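import Pool.Agent.Lib.MP_8b7544_co.One.StmD

set_option autoImplicit false

namespace Pool.Agent.Lib.MP_8b7544_co.One

open Finset

theorem ASM_holds : S_ASM := by
  intro V _ _ G v par hTr K τ e C hi Z N hL hAC hZ hK hhi
  have hV : 0 < Fintype.card V := Fintype.card_pos_iff.2 ⟨v⟩
  obtain ⟨x0, hx0K, hx0⟩ := hL.emem
  have hadj : ∀ x, x ≠ v → G.Adj x (par x) := fun x hx => (hTr x (par x)).2 (Or.inl ⟨hx, rfl⟩)
  set g : V → ℤ := fun x => τ x - C with hg
  have hgv : g v = -C := by
    rw [hg]
    simp only [hL.zero]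
    ring
  set P : ℕ := Fintype.card V - 1 + N with hP
  have hPz : (P : ℤ) = hi - C - 1 := by
    rw [hhi, hP]
    have : ((Fintype.card V - 1 + N : ℕ) : ℤ) = (Fintype.card V : ℤ) - 1 + N := by
      rw [Nat.cast_add, Nat.cast_sub (by omega)]
      norm_num
    rw [this]
    ring
  set U1 : Finset ℤ := (Z.erase hi).image (fun z => z - C) with hU1
  set U2 : Finset ℤ := (K.erase x0).image (fun x => 1 + C - τ x) with hU2
  have hne : ∀ x ∈ K.erase x0, x ∈ K ∧ τ x ≠ e := by
    intro x hx
    rw [mem_erase] at hx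
    refine ⟨hx.2, fun h => hx.1 (hL.inj x hx.2 x0 hx0K (by rw [h, hx0]))⟩
  have hc1 : U1.card = (Kᶜ).card := by
    rw [hU1, Finset.card_image_of_injective _ (fun a b h => by
      have : a - C = b - C := h
      linarith), Finset.card_erase_of_mem hAC.mhi, hAC.card]
    rfl
  have hc2 : U2.card = K.card - 1 := by
    rw [hU2, Finset.card_image_of_injOn, Finset.card_erase_of_mem hx0K]
    intro x hx y hy h
    have h' : 1 + C - τ x = 1 + C - τ y := h
    exact hL.inj x (hne x hx).1 y (hne y hy).1 (by linarith)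
  have hdisj : Disjoint U1 U2 := by
    rw [Finset.disjoint_left]
    intro t ht ht2
    rw [hU1, mem_image] at ht
    rw [hU2, mem_image] at ht2
    obtain ⟨z, hz, hzt⟩ := ht
    obtain ⟨x, hx, hxt⟩ := ht2
    obtain ⟨hxK, hxe⟩ := hne x hx
    refine (hK x hxK hxe).2.2 ?_
    have : 2 * C + 1 - τ x = z := by
      have h1 : z - C = t := hzt
      have h2 : 1 + C - τ x = t := hxt
      linarith
    rw [this]
    exact mem_of_mem_erase hz
  have hKpos : 0 < K.card := Finset.card_pos.2 ⟨v, hL.root⟩
  have hcU : (U1 ∪ U2).card + N = P := by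
    rw [Finset.card_union_of_disjoint hdisj, hc1, hc2, hP, Finset.card_compl]
    have := Finset.card_le_univ K
    omega
  have hneg : ∀ z ∈ Z, (∃ x, g x = 1 + C - z) ∨
      (∃ x y, G.Adj x y ∧ (g v + 1) - g x - g y = 1 + C - z) := by
    intro z hz
    rcases hAC.arr z hz with h | ⟨x, hx, hx2⟩
    · left
      refine ⟨x0, ?_⟩
      rw [hg, h]
      simp only [hx0]
      ring
    · right
      have hxv : x ≠ v := by
        rintro rfl
        exact (Finset.mem_compl.1 hx) hL.root
      refine ⟨x, par x, hadj x hxv, ?_⟩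
      rw [hgv, hg, ← hx2]
      ring
  refine assemble G v N P par (fun a b h => (hTr a b).1 h) rfl 1 g (U1 ∪ U2) ?_ hcU ?_ ?_
  · intro t ht
    rw [mem_Icc, hPz]
    rcases mem_union.1 ht with ht | ht
    · rw [hU1, mem_image] at ht
      obtain ⟨z, hz, rfl⟩ := ht
      have h1 := hZ z (mem_of_mem_erase hz)
      have h3 : z < hi := lt_of_le_of_ne h1.2 (ne_of_mem_erase hz)
      constructor
      · linarith [h1.1]
      · linarith
    · rw [hU2, mem_image] at ht
      obtain ⟨x, hx, rfl⟩ := ht
      obtain ⟨hxK, hxe⟩ := hne x hx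
      have h1 := hK x hxK hxe
      constructor
      · linarith [h1.1]
      · linarith [h1.2.1]
  · intro t ht
    rcases mem_union.1 ht with ht | ht
    · rw [hU1, mem_image] at ht
      obtain ⟨z, hz, rfl⟩ := ht
      left
      rcases hAC.frm z (mem_of_mem_erase hz) with h | ⟨x, hx, hx2⟩
      · exact absurd h (ne_of_mem_erase hz)
      · exact ⟨x, by rw [hg]; simp only [hx2]⟩
    · rw [hU2, mem_image] at ht
      obtain ⟨x, hx, rfl⟩ := ht
      obtain ⟨hxK, hxe⟩ := hne x hx
      right
      obtain ⟨w, hwK, hwv, hw⟩ := hL.loc x hxK hxe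
      refine ⟨w, par w, hadj w hwv, ?_⟩
      rw [hgv, hg, ← hw]
      ring
  · intro t ht1 ht2 hcase
    rcases hcase with hU | h | h
    · rcases mem_union.1 hU with hU | hU
      · rw [hU1, mem_image] at hU
        obtain ⟨z, hz, hz2⟩ := hU
        have h5 : t = 1 + C - z := by
          have : z - C = 1 - t := hz2
          linarith
        rw [h5]
        exact hneg z (mem_of_mem_erase hz)
      · rw [hU2, mem_image] at hU
        obtain ⟨x, hx, hx2⟩ := hU
        left
        refine ⟨x, ?_⟩
        have : 1 + C - τ x = 1 - t := hx2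
        rw [hg]
        linarith
    · exact absurd h (by linarith)
    · have h5 : t = 1 + C - hi := by linarith
      rw [h5]
      exact hneg hi hAC.mhi

end Pool.Agent.Lib.MP_8b7544_co.One
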