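import Pool.Agent.Lib.MP_8b7544_co.One.StmD

set_option autoImplicit false

namespace Pool.Agent.Lib.MP_8b7544_co.One

open Finset

theorem BA_holds : S_BA := by
  intro V _ v par dep h p₁ p₂ hne h1 h2
  have e1 : par p₁ = v := h.eq_root (by rw [h.dep_par]; omega)
  have e2 : par p₂ = v := h.eq_root (by rw [h.dep_par]; omega)
  have n1 : p₁ ≠ v := by
    intro hh
    rw [hh, h.dv] at h1
    omega
  have n2 : p₂ ≠ v := by
    intro hh
    rw [hh, h.dv] at h2
    omega
  have d0 : (fun x => if x = v then (0 : ℤ) else if x = p₁ then -1 else 1) v = 0 := by simp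
  have d1 : (fun x => if x = v then (0 : ℤ) else if x = p₁ then -1 else 1) p₁ = -1 := by
    simp [n1]
  have d2 : (fun x => if x = v then (0 : ℤ) else if x = p₁ then -1 else 1) p₂ = 1 := by
    simp [n2, hne.symm]
  refine ⟨fun x => if x = v then 0 else if x = p₁ then -1 else 1, ?_⟩
  generalize hδ : (fun x => if x = v then (0 : ℤ) else if x = p₁ then -1 else 1) = δ at d0 d1 d2
  refine ⟨⟨by simp, ?_, d0, ?_, ⟨v, by simp, d0⟩, ?_⟩, by simp, by simp, by rw [d1]; decide,
    by rw [d1, d2]; ring⟩
  · intro x hx
    simp only [mem_insert, mem_singleton] at hx ⊢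
    rcases hx with rfl | rfl | rfl
    · left; exact h.pv
    · left; exact e1
    · left; exact e2
  · intro x hx y hy hxy
    simp only [mem_insert, mem_singleton] at hx hy
    rcases hx with rfl | rfl | rfl <;> rcases hy with rfl | rfl | rfl <;>
      simp_all
  · intro x hx hx0
    simp only [mem_insert, mem_singleton] at hx
    rcases hx with rfl | rfl | rfl
    · exact absurd d0 hx0
    · exact ⟨x, by simp, n1, by rw [e1, d0]; ring⟩
    · exact ⟨x, by simp, n2, by rw [e2, d0]; ring⟩

end Pool.Agent.Lib.MP_8b7544_co.One
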