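import Pool.Agent.Lib.MP_8b7544_co.One.StmD

set_option autoImplicit false

namespace Pool.Agent.Lib.MP_8b7544_co.One

open Finset

/-- the labels by depth -/
private def BC_f (h d : ℕ) : ℤ :=
  if d = 0 then 0 else if d % 2 = 0 then ((d / 2 : ℕ) : ℤ) + 1 else ((d / 2 : ℕ) : ℤ) - h - 1

private theorem BC_range (h d : ℕ) (_hh : 1 ≤ h) (hd : d ≤ 2 * h + 1) :
    -(h : ℤ) - 1 ≤ BC_f h d ∧ BC_f h d ≤ h + 1 ∧ BC_f h d ≠ 1 := by
  unfold BC_f
  split_ifs <;> refine ⟨?_, ?_, ?_⟩ <;> omega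

private theorem BC_inj (h d d' : ℕ) (hd : d ≤ 2 * h + 1) (hd' : d' ≤ 2 * h + 1)
    (hf : BC_f h d = BC_f h d') : d = d' := by
  unfold BC_f at hf
  split_ifs at hf <;> omega

private theorem BC_sum (h d : ℕ) (_hh : 1 ≤ h) (hd : 2 ≤ d) (_hd' : d ≤ 2 * h + 1) :
    BC_f h d + BC_f h (d - 1) = (d : ℤ) - h - 1 := by
  unfold BC_f
  split_ifs <;> omega

theorem BC_holds : S_BC := by
  classical
  intro V _ _ v par dep hRt x₁ y hodd hy3 hx1 hpx hna
  obtain ⟨h, hh⟩ := hodd
  have hh1 : 1 ≤ h := by omega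
  -- ancestors
  obtain ⟨an, han⟩ : ∃ an : ℕ → V, ∀ d, an d = par^[dep y - d] y := ⟨_, fun _ => rfl⟩
  have an_anc : ∀ d, Anc par y (an d) := fun d => ⟨dep y - d, (han d).symm⟩
  have an_dep : ∀ d, d ≤ dep y → dep (an d) = d := by
    intro d hd
    rw [han, hRt.dep_iter]
    omega
  have an_par : ∀ d, d ≤ dep y → par (an d) = an (d - 1) := by
    intro d hd
    apply hRt.anc_eq (an_anc d).par (an_anc (d - 1))
    rw [hRt.dep_par, an_dep d hd, an_dep (d - 1) (by omega)]
  have an_ne : ∀ d, an d ≠ x₁ := fun d hd => hna (hd ▸ an_anc d)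
  have hv : an 0 = v := hRt.eq_root (an_dep 0 (by omega))
  have hy : an (dep y) = y := by rw [han, Nat.sub_self]; rfl
  have hpx' : par x₁ = an 1 := by rw [hpx, han]
  obtain ⟨δ, hδ⟩ : ∃ δ : V → ℤ, ∀ w, δ w = if w = x₁ then 1 else BC_f h (dep w) :=
    ⟨_, fun _ => rfl⟩
  have hδx : δ x₁ = 1 := by rw [hδ, if_pos rfl]
  have hδa : ∀ d, d ≤ dep y → δ (an d) = BC_f h d := by
    intro d hd
    rw [hδ, if_neg (an_ne d), an_dep d hd]
  have hcase : ∀ w, (w = x₁ ∨ Anc par y w) → w = x₁ ∨ ∃ d ≤ dep y, w = an d := by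
    rintro w (hw | hw)
    · exact Or.inl hw
    · right
      refine ⟨dep w, (hRt.anc_dep hw).1, ?_⟩
      rw [han]
      exact (hRt.anc_dep hw).2.symm
  refine ⟨univ.filter (fun w => w = x₁ ∨ Anc par y w), δ, (h : ℤ) + 1, ?_, ?_, ?_⟩
  · refine ⟨⟨?_, ?_, ?_, ?_, ?_, ?_⟩, ?_, ?_, ?_, ?_⟩
    · rw [mem_filter]
      exact ⟨mem_univ _, Or.inr (hRt.anc_root y)⟩
    · intro x hx
      rw [mem_filter] at hx ⊢
      refine ⟨mem_univ _, Or.inr ?_⟩
      rcases hx.2 with hx | hx
      · rw [hx, hpx']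
        exact an_anc 1
      · exact hx.par
    · rw [← hv, hδa 0 (by omega)]
      rfl
    · intro x hx z hz hxz
      rw [mem_filter] at hx hz
      rcases hcase x hx.2 with rfl | ⟨d, hd, rfl⟩
      · rcases hcase z hz.2 with rfl | ⟨d', hd', rfl⟩
        · rfl
        · rw [hδx, hδa d' hd'] at hxz
          exact absurd hxz.symm (BC_range h d' hh1 (by omega)).2.2
      · rcases hcase z hz.2 with rfl | ⟨d', hd', rfl⟩
        · rw [hδx, hδa d hd] at hxz
          exact absurd hxz (BC_range h d hh1 (by omega)).2.2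
        · rw [hδa d hd, hδa d' hd'] at hxz
          rw [BC_inj h d d' (by omega) (by omega) hxz]
    · refine ⟨an (2 * h), ?_, ?_⟩
      · rw [mem_filter]
        exact ⟨mem_univ _, Or.inr (an_anc _)⟩
      · rw [hδa (2 * h) (by omega)]
        unfold BC_f
        split_ifs <;> omega
    · intro x hx hne
      rw [mem_filter] at hx
      have hr : -(h : ℤ) - 1 ≤ δ x ∧ δ x ≤ h + 1 := by
        rcases hcase x hx.2 with rfl | ⟨d, hd, rfl⟩
        · rw [hδx]
          omega
        · rw [hδa d hd]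
          exact ⟨(BC_range h d hh1 (by omega)).1, (BC_range h d hh1 (by omega)).2.1⟩
      have hne_v : ∀ d, 1 ≤ d → d ≤ dep y → an d ≠ v := by
        intro d hd1 hd2 hd
        have := an_dep d hd2
        rw [hd, hRt.dv] at this
        omega
      rcases eq_or_ne (δ x) (-(h : ℤ) - 1) with h1 | h1
      · refine ⟨an 1, ?_, hne_v 1 (le_refl _) (by omega), ?_⟩
        · rw [mem_filter]
          exact ⟨mem_univ _, Or.inr (an_anc _)⟩
        · rw [an_par 1 (by omega), hδa 1 (by omega), hδa 0 (by omega), h1]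
          unfold BC_f
          simp
      · rcases eq_or_ne (δ x) (-(h : ℤ)) with h2 | h2
        · refine ⟨x₁, ?_, ?_, ?_⟩
          · rw [mem_filter]
            exact ⟨mem_univ _, Or.inl rfl⟩
          · intro hx
            rw [hx, hRt.dv] at hx1
            omega
          · rw [hpx', hδa 1 (by omega), hδx, h2]
            unfold BC_f
            simp
        · obtain ⟨d, hd⟩ : ∃ d : ℕ, (d : ℤ) = δ x + h + 1 :=
            ⟨(δ x + h + 1).toNat, by rw [Int.toNat_of_nonneg (by omega)]⟩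
          have hd2 : 2 ≤ d := by omega
          have hd3 : d ≤ 2 * h + 1 := by omega
          refine ⟨an d, ?_, hne_v d (by omega) (by omega), ?_⟩
          · rw [mem_filter]
            exact ⟨mem_univ _, Or.inr (an_anc _)⟩
          · rw [an_par d (by omega), hδa d (by omega), hδa (d - 1) (by omega),
              BC_sum h d hh1 hd2 hd3]
            omega
    · rw [mem_filter]
      exact ⟨mem_univ _, Or.inl rfl⟩
    · rw [mem_filter]
      exact ⟨mem_univ _, Or.inr (Anc.refl _)⟩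
    · rw [hδx]
      exact odd_one
    · rw [hδx]
      conv_lhs => rw [← hy]
      rw [hδa _ (le_refl _), hh]
      unfold BC_f
      split_ifs <;> omega
  · intro w
    rw [mem_filter]
    exact ⟨fun hw => hw.2, fun hw => ⟨mem_univ _, hw⟩⟩
  · intro w hw
    rw [mem_filter] at hw
    rcases hcase w hw.2 with rfl | ⟨d, hd, rfl⟩
    · rw [hδx]
      omega
    · rw [hδa d hd]
      exact (BC_range h d hh1 (by omega)).2.1

end Pool.Agent.Lib.MP_8b7544_co.One
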