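import Pool.Agent.Lib.MP_8b7544_co.One.StmD

set_option autoImplicit false

namespace Pool.Agent.Lib.MP_8b7544_co.One

open Finset

theorem CAL_holds (hFIN : S_FIN) (hOC : S_OC) : S_CAL := by
  classical
  intro V _ _ v par dep hR p x r y₁ y₂ hdp hpx hx hr hrp h3 h4 hy hy1 hy2 hpar hl1 hl2
  have hrv : r ≠ v := by
    rintro rfl
    rw [hR.dv] at h3
    omega
  have hdu : dep r = dep (par r) + 1 := hR.ds r hrv
  obtain ⟨K, δ, e, hloc, hK, hδ, -⟩ := hOC V v par dep hR (par r) (by omega) (by omega)
  have hup : Anc par (par r) p := by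
    obtain ⟨j, hj⟩ := hrp
    cases j with
    | zero =>
      have : r = p := hj
      rw [this, hdp] at h3
      omega
    | succ j => exact ⟨j, by rw [← hj, Function.iterate_succ_apply]⟩
  obtain ⟨hδp, hδu⟩ := hδ p hdp hup
  have hpv : p ≠ v := by
    rintro rfl
    rw [hR.dv] at hdp
    omega
  have hxK : x ∉ K := by
    intro hmem
    rw [hK] at hmem
    obtain ⟨j, hj⟩ := hmem
    cases j with
    | zero => exact hx r hrv hj
    | succ j =>
      rw [Function.iterate_succ_apply'] at hj
      by_cases hw : par^[j] (par r) = v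
      · rw [hw, hR.pv] at hj
        rw [← hj, hR.pv] at hpx
        exact hpv hpx.symm
      · exact hx _ hw hj
  have hrK : r ∉ K := by
    intro hmem
    rw [hK] at hmem
    have := (hR.anc_dep hmem).1
    omega
  have hxr : x ≠ r := by
    rintro rfl
    exact hr.1 hx
  have hGood : Good v par K δ e x r :=
    { loc := hloc
      ne := hxr
      aK := hxK
      bK := hrK
      pa := by rw [hpx, hK]; exact hup
      pb := by rw [hK]; exact Anc.refl _
      nz := by rw [hpx]; exact hδp
      opp := by rw [hpx]; exact hδu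
      ta := fun y hyv hyx => absurd hyx (hx y hyv)
      tb := hr.2 }
  have hchild : ∀ z, ¬ Lf v par z → ∃ c, c ≠ v ∧ par c = z := by
    intro z hz
    by_contra hcon
    push Not at hcon
    exact hz (fun c hc => hcon c hc)
  refine hFIN V v par dep hR K δ e x r hGood ?_ (Or.inr (Or.inl ?_))
  · obtain ⟨c, hc, hcr⟩ := hchild r hr.1
    exact ⟨c, hc, Or.inr hcr⟩
  · -- an internal vertex which is not an ancestor of `r`
    have key : ∀ y, ¬ Lf v par y → ¬ Anc par r y →
        ∃ r', r' ∉ K ∧ par r' ∉ K ∧ par r' ≠ x ∧ par r' ≠ r := by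
      intro y hly hny
      obtain ⟨c, hc, hcy⟩ := hchild y hly
      refine ⟨c, ?_, ?_, ?_, ?_⟩
      · intro hmem
        rw [hK] at hmem
        exact hny (by rw [← hcy]; exact (Anc.of_par hmem).par)
      · intro hmem
        rw [hK, hcy] at hmem
        exact hny (Anc.of_par hmem)
      · rw [hcy]
        rintro rfl
        exact hly hx
      · rw [hcy]
        rintro rfl
        exact hny (Anc.refl _)
    by_cases h1 : Anc par r y₁
    · refine key y₂ hl2 (fun h2 => hy (hR.anc_eq h1 h2 ?_))
      rw [hR.ds y₁ hy1, hR.ds y₂ hy2, hpar]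
    · exact key y₁ hl1 h1

end Pool.Agent.Lib.MP_8b7544_co.One
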