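import Pool.Agent.Lib.MP_8b7544_co.One.StmD

set_option autoImplicit false

namespace Pool.Agent.Lib.MP_8b7544_co.One

open Finset

theorem CAP_holds (hFIN : S_FIN) (hOC : S_OC) (hPEN : S_PEN) : S_CAP := by
  classical
  intro V _ _ v par dep hR p x q hp hx hq hxq hPx hLq
  have hpv : p ≠ v := by
    rintro rfl
    rw [hR.dv] at hp
    omega
  have hxv : x ≠ v := by
    rintro rfl
    exact hpv (hx.symm.trans hR.pv)
  have hqv : q ≠ v := by
    rintro rfl
    exact hpv (hq.symm.trans hR.pv)
  have hdx : dep x = 2 := by rw [hR.ds x hxv, hx, hp]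
  have hdq : dep q = 2 := by rw [hR.ds q hqv, hq, hp]
  obtain ⟨r, hPr, hrq⟩ := hPEN V v par dep hR q hLq
  have hdr : 2 ≤ dep r := by
    have := (hR.anc_dep hrq).1
    omega
  -- the common part
  have key : ∀ u b : V, 2 ≤ dep u → dep u ≠ 3 → Anc par u q → b ≠ v → par b = u →
      Thin v par b → (Even (dep u) ∨ ¬ Lf v par b) → Win v par := by
    intro u b hu2 hu3 huq hbv hbu hTb halt
    obtain ⟨K, δ, e, hloc, hK, hop, hmax⟩ := hOC V v par dep hR u hu2 hu3
    have hup : Anc par u p := by
      have := huq.par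
      rwa [hq] at this
    obtain ⟨hnz, hopp⟩ := hop p hp hup
    have hdb : dep b = dep u + 1 := by rw [hR.ds b hbv, hbu]
    have hxK : x ∉ K := by
      intro h
      exact hxq (hR.anc_eq ((hK x).1 h) huq (by rw [hdx, hdq]))
    have hbK : b ∉ K := by
      intro h
      have := (hR.anc_dep ((hK b).1 h)).1
      omega
    have hxb : x ≠ b := by
      intro h
      rw [← h, hdx] at hdb
      omega
    have hG : Good v par K δ e x b := by
      refine ⟨hloc, hxb, hxK, hbK, ?_, ?_, ?_, ?_, hPx.2, hTb⟩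
      · rw [hx]; exact (hK p).2 hup
      · rw [hbu]; exact (hK u).2 (Anc.refl u)
      · rw [hx]; exact hnz
      · rw [hbu, hx]; exact hopp
    have hch : ∃ ℓ, ℓ ≠ v ∧ par ℓ = x := by
      by_contra hcon
      push Not at hcon
      exact hPx.1 hcon
    obtain ⟨ℓ, hℓv, hℓ⟩ := hch
    refine hFIN V v par dep hR K δ e x b hG ⟨ℓ, hℓv, Or.inl hℓ⟩ ?_
    rcases hmax with hmax | hodd
    · exact Or.inl hmax
    · rcases halt with hev | hLb
      · exact absurd hev (Nat.not_even_iff_odd.2 hodd)
      · have hch' : ∃ ℓ', ℓ' ≠ v ∧ par ℓ' = b := by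
          by_contra hcon
          push Not at hcon
          exact hLb hcon
        obtain ⟨ℓ', hℓv', hℓ'⟩ := hch'
        refine Or.inr (Or.inr ⟨ℓ, ℓ', ?_, ⟨hℓv, Or.inl hℓ⟩, ⟨hℓv', Or.inr hℓ'⟩⟩)
        rintro rfl
        exact hxb (hℓ.symm.trans hℓ')
  by_cases hcase : dep r = 2 ∨ dep r = 4
  · have hch : ∃ b, b ≠ v ∧ par b = r := by
      by_contra hcon
      push Not at hcon
      exact hPr.1 hcon
    obtain ⟨b, hbv, hbr⟩ := hch
    have hLb : Lf v par b := hPr.2 b hbv hbr
    refine key r b hdr (by omega) hrq hbv hbr ?_ (Or.inl ?_)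
    · intro y hy hyb
      exact absurd hyb (hLb y hy)
    · rcases hcase with h | h <;> rw [h] <;> decide
  · push Not at hcase
    have hrv : r ≠ v := by
      rintro rfl
      rw [hR.dv] at hdr
      omega
    have hd : dep r = dep (par r) + 1 := hR.ds r hrv
    have hpq : Anc par (par r) q := by
      obtain ⟨j, hj⟩ := hrq
      cases j with
      | zero =>
        exfalso
        have : r = q := hj
        rw [this, hdq] at hcase
        exact hcase.1 rfl
      | succ j => exact ⟨j, by rw [← hj, Function.iterate_succ_apply]⟩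
    exact key (par r) r (by omega) (by omega) hpq hrv rfl hPr.2 (Or.inr hPr.1)

end Pool.Agent.Lib.MP_8b7544_co.One
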