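import Pool.Agent.Lib.MP_8b7544_co.One.StmD

set_option autoImplicit false

namespace Pool.Agent.Lib.MP_8b7544_co.One

open Finset

theorem CAT_holds (hZP : S_ZP) (hLMX : S_LMX) : S_CAT := by
  intro V _ _ v par dep hR huniq
  by_cases hall : ∀ x, x ≠ v → Lf v par x
  · -- a star
    refine hLMX V v par dep hR {v} (fun _ => 0) 0 ⟨mem_singleton_self v, ?_, rfl, ?_, ?_, ?_⟩ ?_ ?_
    · intro x hx
      rw [mem_singleton] at hx ⊢
      rw [hx, hR.pv]
    · intro x hx y hy _
      rw [mem_singleton] at hx hy
      rw [hx, hy]
    · exact ⟨v, mem_singleton_self v, rfl⟩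
    · intro x _ hne
      exact absurd rfl hne
    · intro x _
      exact le_rfl
    · intro x hx
      rw [mem_singleton] at hx
      by_contra hp
      exact hall (par x) hp x hx rfl
  · push Not at hall
    obtain ⟨x₀, hx₀v, hx₀L⟩ := hall
    -- the internal vertex of depth one
    have hd₀ : dep x₀ = dep (par x₀) + 1 := hR.ds x₀ hx₀v
    set p : V := par^[dep x₀ - 1] x₀ with hp
    have hdp : dep p = 1 := by
      rw [hp, hR.dep_iter]
      omega
    have hpv : p ≠ v := by
      intro h
      rw [h, hR.dv] at hdp
      omega
    have hpp : par p = v := hR.eq_root (by rw [hR.dep_par, hdp])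
    have hpL : ¬ Lf v par p := by
      by_cases h1 : dep x₀ = 1
      · have : p = x₀ := by
          rw [hp, h1]
          rfl
        rw [this]
        exact hx₀L
      · intro hL
        have h2 : par^[dep x₀ - 2] x₀ ≠ v := by
          intro h
          have := hR.dep_iter (dep x₀ - 2) x₀
          rw [h, hR.dv] at this
          omega
        apply hL _ h2
        have e : par^[dep x₀ - 2 + 1] x₀ = par (par^[dep x₀ - 2] x₀) :=
          Function.iterate_succ_apply' ..
        rw [← e, hp]
        congr 2
        omega
    have hZ : ZZ v par dep ({v, p} : Finset V) (fun x => if x = v then 0 else -1) 0 1 v p := by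
      refine ⟨by simp, ?_, if_pos rfl, ?_, ?_, ?_, ?_, ?_, by simp, ?_, if_pos rfl, by simp, ?_,
        if_neg hpv⟩
      · intro x hx
        rw [mem_insert, mem_singleton] at hx
        rcases hx with rfl | rfl
        · rw [hR.pv]
          simp
        · rw [hpp]
          simp
      · intro x hx y hy he
        rw [mem_insert, mem_singleton] at hx hy
        rcases hx with rfl | rfl <;> rcases hy with rfl | rfl
        · rfl
        · simp [hpv] at he
        · simp [hpv] at he
        · rfl
      · intro x hx he
        rw [mem_insert, mem_singleton] at hx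
        rcases hx with rfl | rfl
        · simp
        · rw [hdp] at he
          exact absurd he (by decide)
      · intro x hx ho
        rw [mem_insert, mem_singleton] at hx
        rcases hx with rfl | rfl
        · rw [hR.dv] at ho
          exact absurd ho (by decide)
        · simp [hpv]
      · intro t ht1 ht2
        rcases (show t = 0 ∨ t = -1 by omega) with rfl | rfl
        · exact ⟨v, by simp, if_pos rfl⟩
        · exact ⟨p, by simp, if_neg hpv⟩
      · intro t ht1 ht2
        have : t = -1 := by omega
        subst this
        refine ⟨p, by simp, hpv, ?_⟩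
        rw [hpp, if_neg hpv, if_pos rfl]
        rfl
      · rw [hR.dv]
        exact ⟨0, rfl⟩
      · rw [hdp]
        exact odd_one
    obtain ⟨K', δ', a', b', α', β', h', hsub, hfin⟩ := hZP V v par dep hR huniq
      (({v, p} : Finset V)ᶜ.card) {v, p} _ 0 1 v p p hZ (Or.inr rfl) hpv (by
        intro x hx hxm
        rw [mem_insert, mem_singleton] at hxm
        rcases hxm with rfl | rfl
        · exact hpv (by rw [← hx, hR.pv])
        · exact hpv (by rw [← hx, hpp])) (by
        intro x hx hxv hxp
        rw [mem_insert, mem_singleton] at hx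
        rcases hx with rfl | rfl
        · exact absurd rfl hxv
        · exact absurd rfl hxp) le_rfl
    have ha0 : 0 ≤ a' := by
      have := h'.even α' h'.αK h'.αe
      linarith [this.1, this.2]
    have hle : ∀ x ∈ K', δ' x ≤ a' ∧ - b' ≤ δ' x := by
      intro x hx
      rcases Nat.even_or_odd (dep x) with he | ho
      · have h1 := h'.even x hx he
        have h2 := h'.odd β' h'.βK h'.βo
        exact ⟨h1.2, by linarith [h1.1, h2.1, h2.2]⟩
      · have h1 := h'.odd x hx ho
        exact ⟨by linarith [h1.2], h1.1⟩
    refine hLMX V v par dep hR K' (fun x => - δ' x) (- a')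
      ⟨h'.root, h'.closed, by show - δ' v = 0; rw [h'.zero]; rfl, ?_, ⟨α', h'.αK, by
        show - δ' α' = - a'; rw [h'.αa]⟩, ?_⟩ ?_ ?_
    · intro x hx y hy he
      exact h'.inj x hx y hy (neg_injective he)
    · intro x hx hne
      have hlt : δ' x < a' := lt_of_le_of_ne (hle x hx).1 (fun h => hne (by rw [h]))
      obtain ⟨w, hw, hwv, he⟩ := h'.sums (δ' x) (hle x hx).2 hlt
      refine ⟨w, hw, hwv, ?_⟩
      rw [← he]
      ring
    · intro x hx
      have := (hle x hx).1
      show - a' ≤ - δ' x
      omega
    · intro x hx
      by_contra hpx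
      have hex : ∃ j, par^[j] x ∈ K' := ⟨dep x, by rw [hR.iter_dep]; exact h'.root⟩
      classical
      obtain ⟨j, hj, hmin⟩ : ∃ j, par^[j] x ∈ K' ∧ ∀ i < j, par^[i] x ∉ K' :=
        ⟨Nat.find hex, Nat.find_spec hex, fun i hi => Nat.find_min hex hi⟩
      rcases j with _ | _ | j
      · exact hx hj
      · exact hx (hfin (par x) hj hpx x rfl)
      · have h1 := hmin (j + 1) (by omega)
        have h2 := hmin j (by omega)
        have e1 : par^[j + 1 + 1] x = par (par^[j + 1] x) := Function.iterate_succ_apply' ..
        have e2 : par^[j + 1] x = par (par^[j] x) := Function.iterate_succ_apply' ..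
        rw [e1] at hj
        have h3 : par (par^[j + 1] x) = v := by
          by_contra hne
          exact h1 (hfin _ hj hne _ rfl)
        have hyv : par^[j + 1] x ≠ v := fun h => h1 (by rw [h]; exact h'.root)
        have hwv : par^[j] x ≠ v := fun h => h2 (by rw [h]; exact h'.root)
        have hyL : ¬ Lf v par (par^[j + 1] x) := fun hL => hL _ hwv e2.symm
        have hyp : par^[j + 1] x = p := huniq _ p hyv hpv (by rw [h3, hpp]) hyL hpL
        exact h1 (by rw [hyp]; exact hsub (by simp))

end Pool.Agent.Lib.MP_8b7544_co.One
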