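import Pool.Agent.Lib.MP_8b7544_co.One.StmD

set_option autoImplicit false

namespace Pool.Agent.Lib.MP_8b7544_co.One

open Finset

private theorem CB1_child {V : Type} {v : V} {par : V → V} {x : V} (h : ¬ Lf v par x) :
    ∃ y, y ≠ v ∧ par y = x := by
  unfold Lf at h
  push Not at h
  exact h

private theorem CB1_dep {V : Type} {v : V} {par : V → V} {dep : V → ℕ} (h : Rt v par dep) {x y : V}
    (hx : par x = y) (hy : 1 ≤ dep y) : dep x = dep y + 1 := by
  have hne : x ≠ v := by
    rintro rfl
    rw [h.pv] at hx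
    rw [← hx, h.dv] at hy
    omega
  rw [h.ds x hne, hx]

theorem CB1_holds (hFIN : S_FIN) (hBA : S_BA) : S_CB1 := by
  intro V _ _ v par dep h p₁ p₂ x y q d1 d2 hp hx hxP hy hyL hq hqL
  obtain ⟨δ, hO⟩ := hBA V v par dep h p₁ p₂ hp d1 d2
  have dx : dep x = 2 := by rw [CB1_dep h hx (by omega), d1]
  have dy : dep y = 2 := by rw [CB1_dep h hy (by omega), d2]
  have dq : dep q = 2 := by rw [CB1_dep h hq (by omega), d2]
  have hK : ∀ z ∈ ({v, p₁, p₂} : Finset V), dep z ≤ 1 := by
    intro z hz
    rw [mem_insert, mem_insert, mem_singleton] at hz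
    rcases hz with rfl | rfl | rfl
    · rw [h.dv]; omega
    · omega
    · omega
  have hnK : ∀ z, 2 ≤ dep z → z ∉ ({v, p₁, p₂} : Finset V) := by
    intro z hz hzK
    have := hK z hzK
    omega
  have hG : Good v par ({v, p₁, p₂} : Finset V) δ 0 x y :=
    { loc := hO.loc
      ne := by
        rintro rfl
        exact hp (hx.symm.trans hy)
      aK := hnK x (by omega)
      bK := hnK y (by omega)
      pa := by rw [hx]; exact hO.pK
      pb := by rw [hy]; exact hO.qK
      nz := by
        rw [hx]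
        intro h0
        have := hO.odd
        rw [h0] at this
        exact absurd this (by decide)
      opp := by rw [hx, hy]; exact hO.opp
      ta := hxP.2
      tb := fun z hz hz' => absurd hz' (hyL z hz) }
  obtain ⟨c, hc, hcx⟩ := CB1_child hxP.1
  obtain ⟨r, hr, hrq⟩ := CB1_child hqL
  have dr : dep r = 3 := by rw [CB1_dep h hrq (by omega), dq]
  refine hFIN V v par dep h _ δ 0 x y hG ⟨c, hc, Or.inl hcx⟩ (Or.inr (Or.inl ⟨r, ?_, ?_, ?_, ?_⟩))
  · exact hnK r (by omega)
  · rw [hrq]; exact hnK q (by omega)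
  · rw [hrq]
    rintro rfl
    exact hp (hx.symm.trans hq)
  · rw [hrq]
    rintro rfl
    exact hqL hyL

end Pool.Agent.Lib.MP_8b7544_co.One
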