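import Pool.Agent.Lib.MP_8b7544_co.One.StmD

set_option autoImplicit false

namespace Pool.Agent.Lib.MP_8b7544_co.One

open Finset

private theorem CB2_child {V : Type} {v : V} {par : V → V} {x : V} (h : ¬ Lf v par x) :
    ∃ y, y ≠ v ∧ par y = x := by
  unfold Lf at h
  push Not at h
  exact h

theorem CB2_holds (hFIN : S_FIN) (hBA : S_BA) (hE11N : S_E11N) : S_CB2 := by
  intro V _ _ v par dep h p₁ p₂ r₁ r₂ d1 d2 hp hr1 hr2 ha1 ha2 hd hd2
  obtain ⟨δ, hO⟩ := hBA V v par dep h p₁ p₂ hp d1 d2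
  have hK : ∀ z ∈ ({v, p₁, p₂} : Finset V), dep z ≤ 1 := by
    intro z hz
    rw [mem_insert, mem_insert, mem_singleton] at hz
    rcases hz with rfl | rfl | rfl
    · rw [h.dv]; omega
    · omega
    · omega
  have hnK : ∀ z, 2 ≤ dep z → z ∉ ({v, p₁, p₂} : Finset V) := by
    intro z hz hzK
    have := hK z hzK
    omega
  have it1 : par^[dep r₁ - 2] (par r₁) = p₁ := by
    have := (h.anc_dep ha1).2
    rw [d1, show dep r₁ - 1 = (dep r₁ - 2) + 1 by omega, Function.iterate_succ_apply] at this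
    exact this
  have it2 : par^[dep r₁ - 2] (par r₂) = p₂ := by
    have := (h.anc_dep ha2).2
    rw [d2, show dep r₂ - 1 = (dep r₁ - 2) + 1 by omega, Function.iterate_succ_apply] at this
    exact this
  have nk1 : ∀ j < dep r₁ - 2, par^[j] (par r₁) ∉ ({v, p₁, p₂} : Finset V) := by
    intro j hj
    apply hnK
    rw [h.dep_iter, h.dep_par]
    omega
  have nk2 : ∀ j < dep r₁ - 2, par^[j] (par r₂) ∉ ({v, p₁, p₂} : Finset V) := by
    intro j hj
    apply hnK
    rw [h.dep_iter, h.dep_par]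
    omega
  obtain ⟨K', δ', e', hO', hmem, -⟩ := hE11N V v par dep h (dep r₁ - 2) _ δ 0 p₁ p₂ (par r₁)
    (par r₂) hO it1 it2 nk1 nk2
  have hne : r₁ ≠ r₂ := by
    rintro rfl
    exact hp (h.anc_eq ha1 ha2 (by omega))
  have hn1 : r₁ ∉ K' := by
    rw [hmem]
    rintro (hh | hh | hh)
    · exact hnK r₁ hd2 hh
    · have := (h.anc_dep hh).1
      rw [h.dep_par] at this
      omega
    · have := (h.anc_dep hh).1
      rw [h.dep_par] at this
      omega
  have hn2 : r₂ ∉ K' := by
    rw [hmem]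
    rintro (hh | hh | hh)
    · exact hnK r₂ (by omega) hh
    · have := (h.anc_dep hh).1
      rw [h.dep_par] at this
      omega
    · have := (h.anc_dep hh).1
      rw [h.dep_par] at this
      omega
  have hG : Good v par K' δ' e' r₁ r₂ :=
    { loc := hO'.loc
      ne := hne
      aK := hn1
      bK := hn2
      pa := hO'.pK
      pb := hO'.qK
      nz := by
        intro h0
        have := hO'.odd
        rw [h0] at this
        exact absurd this (by decide)
      opp := hO'.opp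
      ta := hr1.2
      tb := hr2.2 }
  obtain ⟨c, hc, hcx⟩ := CB2_child hr1.1
  obtain ⟨c', hc', hcx'⟩ := CB2_child hr2.1
  refine hFIN V v par dep h _ δ' e' r₁ r₂ hG ⟨c, hc, Or.inl hcx⟩
    (Or.inr (Or.inr ⟨c, c', ?_, ⟨hc, Or.inl hcx⟩, ⟨hc', Or.inr hcx'⟩⟩))
  rintro rfl
  exact hne (hcx.symm.trans hcx')

end Pool.Agent.Lib.MP_8b7544_co.One
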