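import Pool.Agent.Lib.MP_8b7544_co.One.StmD
import Pool.Agent.Lib.MP_8b7544_co.DegTwo

set_option autoImplicit false

namespace Pool.Agent.Lib.MP_8b7544_co.One

open Finset

theorem CD2_holds (hTRE : S_TRE) : S_CD2 := by
  classical
  intro V _ _ v par dep hR p w hp hw hyw
  refine ⟨4 ^ Fintype.card V, fun N hN G hG => ?_⟩
  have hpv : p ≠ v := by
    rintro rfl
    rw [hR.dv] at hp
    exact absurd hp (by norm_num)
  have hpp : par p = v := by
    apply hR.eq_root
    rw [hR.dep_par, hp]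
  have hwv : w ≠ v := by
    rintro rfl
    rw [hR.pv] at hw
    exact hpv hw.symm
  refine part_b G (hTRE V G v par dep hR hG) v p w ((hG v p).2 (Or.inr ⟨hpv, hpp⟩))
    ((hG p w).2 (Or.inr ⟨hwv, hw⟩)) hwv ?_ N hN
  intro x hx
  rcases (hG p x).1 hx with ⟨_, h⟩ | ⟨_, h⟩
  · left; rw [← h, hpp]
  · right; exact hyw x h

end Pool.Agent.Lib.MP_8b7544_co.One
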