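import Pool.Agent.Lib.MP_8b7544_co.One.StmD

set_option autoImplicit false

namespace Pool.Agent.Lib.MP_8b7544_co.One

open Finset

theorem CHN_holds : S_CHN := by
  classical
  intro V _ _ v par dep hR u lam e hN
  have hmem : ∀ w, w ∈ (univ.filter (fun w => Anc par u w)) ↔ Anc par u w := by
    intro w
    simp
  refine ⟨univ.filter (fun w => Anc par u w), fun w => by simp, ?_⟩
  refine ⟨(hmem v).2 (hR.anc_root u), ?_, ?_, ?_, ?_, ?_⟩
  · intro x hx
    exact (hmem _).2 ((hmem x).1 hx).par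
  · show lam (dep v) = 0
    rw [hR.dv, hN.zero]
  · intro x hx y hy hxy
    have hx' := (hmem x).1 hx
    have hy' := (hmem y).1 hy
    exact hR.anc_eq hx' hy' (hN.inj _ (hR.anc_dep hx').1 _ (hR.anc_dep hy').1 hxy)
  · obtain ⟨i, hi, he⟩ := hN.emem
    refine ⟨par^[dep u - i] u, (hmem _).2 ⟨_, rfl⟩, ?_⟩
    show lam (dep (par^[dep u - i] u)) = e
    rw [hR.dep_iter, show dep u - (dep u - i) = i by omega, he]
  · intro x hx hne
    have hx' := (hmem x).1 hx
    obtain ⟨j, hj, hs⟩ := hN.loc (dep x) (hR.anc_dep hx').1 hne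
    have hd : dep (par^[dep u - (j + 1)] u) = j + 1 := by
      rw [hR.dep_iter]
      omega
    refine ⟨par^[dep u - (j + 1)] u, (hmem _).2 ⟨_, rfl⟩, ?_, ?_⟩
    · intro h
      rw [h, hR.dv] at hd
      omega
    · show lam (dep (par^[dep u - (j + 1)] u)) + lam (dep (par (par^[dep u - (j + 1)] u))) = _
      rw [hR.dep_par, hd, show j + 1 - 1 = j by omega, ← hs]
      ring

end Pool.Agent.Lib.MP_8b7544_co.One
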