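import Pool.Agent.Lib.MP_8b7544_co.One.StmD

set_option autoImplicit false

namespace Pool.Agent.Lib.MP_8b7544_co.One

open Finset

private theorem CK3_child {V : Type} {v : V} {par : V → V} {x : V} (h : ¬ Lf v par x) :
    ∃ y, y ≠ v ∧ par y = x := by
  unfold Lf at h
  push Not at h
  exact h

private theorem CK3_dep {V : Type} {v : V} {par : V → V} {dep : V → ℕ} (h : Rt v par dep) {x y : V}
    (hx : par x = y) (hy : 1 ≤ dep y) : dep x = dep y + 1 := by
  have hne : x ≠ v := by
    rintro rfl
    rw [h.pv] at hx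
    rw [← hx, h.dv] at hy
    omega
  rw [h.ds x hne, hx]

theorem CK3_holds (hFIN : S_FIN) (hN3 : S_N3) (hCHN : S_CHN) : S_CK3 := by
  intro V _ _ v par dep h w r₁ r₂ dw h1 h2 hne hr1 hr2
  obtain ⟨lam, e, hN, hle, h3, h4⟩ := hN3
  have d1 : dep r₁ = 4 := by rw [CK3_dep h h1 (by omega), dw]
  have d2 : dep r₂ = 4 := by rw [CK3_dep h h2 (by omega), dw]
  obtain ⟨K, hK, hL⟩ := hCHN V v par dep h r₁ lam e (by rw [d1]; exact hN)
  obtain ⟨c, hc, hc1⟩ := CK3_child hr1.1
  obtain ⟨c', hc', hc2⟩ := CK3_child hr2.1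
  have dc : dep c = 5 := by rw [CK3_dep h hc1 (by omega), d1]
  have hcL : Lf v par c := hr1.2 c hc hc1
  have hG : Good v par K (fun w => lam (dep w)) e r₂ c :=
    { loc := hL
      ne := by
        rintro rfl
        omega
      aK := by
        rw [hK]
        intro hh
        exact hne (h.anc_eq (Anc.refl r₁) hh (by omega))
      bK := by
        rw [hK]
        intro hh
        have := (h.anc_dep hh).1
        omega
      pa := by
        rw [hK, h2, ← h1]
        exact (Anc.refl r₁).par
      pb := by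
        rw [hK, hc1]
        exact Anc.refl r₁
      nz := by
        show lam (dep (par r₂)) ≠ 0
        rw [h2, dw]
        exact h3
      opp := by
        show lam (dep (par c)) = - lam (dep (par r₂))
        rw [hc1, h2, d1, dw]
        exact h4
      ta := hr2.2
      tb := fun z hz hz' => absurd hz' (hcL z hz) }
  refine hFIN V v par dep h K _ e r₂ c hG ⟨c', hc', Or.inl hc2⟩ (Or.inl ?_)
  intro x hx
  rw [hK] at hx
  exact hle _ (by have := (h.anc_dep hx).1; omega)

end Pool.Agent.Lib.MP_8b7544_co.One
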