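import Pool.Agent.Lib.MP_8b7544_co.One.StmD

set_option autoImplicit false

namespace Pool.Agent.Lib.MP_8b7544_co.One

open Finset

theorem CLM_holds (hPEN : S_PEN) (hCAP : S_CAP) (hCAL : S_CAL) (hCSP : S_CSP) (hCWW : S_CWW)
    (hCK3 : S_CK3) : S_CLM := by
  classical
  intro V _ _ v par dep hR hbr p c₁ c₂ q hp hc1 hc2 hc12 hq hqi
  obtain ⟨y₁, y₂, hy12, hy1v, hy2v, hyp, hy1, hy2⟩ := hbr
  -- children of vertices different from the root
  have hchd : ∀ x y, par x = y → 1 ≤ dep y → dep x = dep y + 1 := by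
    intro x y hxy hy
    have h1 := hR.dep_par x
    rw [hxy] at h1
    omega
  have hne_v : ∀ x, 1 ≤ dep x → x ≠ v := by
    intro x hx h
    rw [h, hR.dv] at hx
    omega
  have hintc : ∀ x, ¬ Lf v par x → ∃ y, y ≠ v ∧ par y = x := by
    intro x hx
    unfold Lf at hx
    push Not at hx
    exact hx
  have hpenc : ∀ x, ¬ Lf v par x → ¬ Pen v par x → ∃ y, y ≠ v ∧ par y = x ∧ ¬ Lf v par y := by
    intro x hx hx2
    unfold Pen Thin at hx2
    push Not at hx2
    exact hx2 hx
  by_cases hW : Win v par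
  · exact Or.inl hW
  right
  by_cases hpc : ∃ x, par x = p ∧ Pen v par x
  · obtain ⟨x, hx, hxp⟩ := hpc
    have huniq : ∀ q', par q' = p → ¬ Lf v par q' → q' = x := by
      intro q' h1 h2
      by_contra h3
      exact hW (hCAP V v par dep hR p x q' hp hx h1 (fun h => h3 h.symm) hxp h2)
    refine ⟨?_, x, hx, hxp.1, huniq, Or.inl hxp⟩
    by_cases h1 : Lf v par c₁
    · exact ⟨c₁, hc1, h1⟩
    · refine ⟨c₂, hc2, ?_⟩
      by_contra h2
      exact hc12 ((huniq c₁ hc1 h1).trans (huniq c₂ hc2 h2).symm)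
  · push Not at hpc
    -- penultimate vertices below a child of p
    have hdeep : ∀ q' r, par q' = p → Anc par r q' → Pen v par r → r ≠ q' ∧ 3 ≤ dep r ∧
        Anc par r p := by
      intro q' r h1 h2 h3
      have hne : r ≠ q' := by
        rintro rfl
        exact hpc r h1 h3
      have hdq : dep q' = 2 := by rw [hchd q' p h1 (by omega), hp]
      have h4 := hR.anc_dep h2
      refine ⟨hne, ?_, ?_⟩
      · by_contra h5
        have h6 : dep r = dep q' := by omega
        exact hne (hR.anc_eq (Anc.refl r) h2 h6)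
      · have := h2.par
        rw [h1] at this
        exact this
    have htwo : ∀ q₁ q₂, par q₁ = p → par q₂ = p → q₁ ≠ q₂ → ¬ Lf v par q₁ → ¬ Lf v par q₂ →
        False := by
      intro q₁ q₂ h1 h2 h3 h4 h5
      obtain ⟨r₁, hr1, hr1q⟩ := hPEN V v par dep hR q₁ h4
      obtain ⟨r₂, hr2, hr2q⟩ := hPEN V v par dep hR q₂ h5
      exact hW (hCSP V v par dep hR p q₁ q₂ r₁ r₂ hp h1 h2 h3 hr1 hr2 hr1q hr2q
        (hdeep q₁ r₁ h1 hr1q hr1).1 (hdeep q₂ r₂ h2 hr2q hr2).1)
    by_cases hlf : ∃ x, par x = p ∧ Lf v par x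
    · obtain ⟨x, hx, hxl⟩ := hlf
      have hd4 : ∀ r, Pen v par r → Anc par r p → 3 ≤ dep r → dep r = 4 := by
        intro r h1 h2 h3
        by_contra h4
        exact hW (hCAL V v par dep hR p x r y₁ y₂ hp hx hxl h1 h2 h3 h4 hy12 hy1v hy2v hyp hy1
          hy2)
      have huniq : ∀ q', par q' = p → ¬ Lf v par q' → q' = q := by
        intro q' h1 h2
        by_contra h3
        exact htwo q' q h1 hq h3 h2 hqi
      refine ⟨⟨x, hx, hxl⟩, q, hq, hqi, huniq, Or.inr ?_⟩
      obtain ⟨w, hwv, hw, hwi⟩ := hpenc q hqi (hpc q hq)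
      have hdq : dep q = 2 := by rw [hchd q p hq (by omega), hp]
      have hdw : dep w = 3 := by rw [hchd w q hw (by omega), hdq]
      -- penultimate vertices below a child of q are grandchildren of q
      have hpq : ∀ w' r, par w' = q → Pen v par r → Anc par r w' → par r = w' := by
        intro w' r h1 h2 h3
        have hdw' : dep w' = 3 := by rw [hchd w' q h1 (by omega), hdq]
        have h4 : Anc par r q := by
          have := h3.par
          rw [h1] at this
          exact this
        have h5 := hdeep q r hq h4 h2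
        have h6 := hd4 r h2 h5.2.2 h5.2.1
        have h7 := (hR.anc_dep h3).2
        rw [hdw', h6] at h7
        exact h7
      have hwuniq : ∀ w', par w' = q → ¬ Lf v par w' → w' = w := by
        intro w' h1 h2
        by_contra h3
        obtain ⟨r₁, hr1, hr1q⟩ := hPEN V v par dep hR w hwi
        obtain ⟨r₂, hr2, hr2q⟩ := hPEN V v par dep hR w' h2
        exact hW (hCWW V v par dep hR q w w' r₁ r₂ hdq hw h1 (fun h => h3 h.symm)
          (hpq w r₁ hw hr1 hr1q) (hpq w' r₂ h1 hr2 hr2q) hr1 hr2)
      have hwp : ¬ Pen v par w := by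
        intro h1
        have h4 : Anc par w q := by
          have := (Anc.refl (par := par) w).par
          rw [hw] at this
          exact this
        have h5 := hdeep q w hq h4 h1
        have h6 := hd4 w h1 h5.2.2 h5.2.1
        omega
      have hrp : ∀ r, par r = w → ¬ Lf v par r → Pen v par r := by
        intro r h1 h2
        obtain ⟨r', hr', hr'r⟩ := hPEN V v par dep hR r h2
        have h3 : Anc par r' w := by
          have := hr'r.par
          rw [h1] at this
          exact this
        have h4 := hpq w r' hw hr' h3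
        have h5 : dep r = 4 := by rw [hchd r w h1 (by omega), hdw]
        have h6 : dep r' = 4 := by rw [hchd r' w h4 (by omega), hdw]
        have h7 : r' = r := hR.anc_eq (Anc.refl r') hr'r (by rw [h5, h6])
        rw [← h7]
        exact hr'
      obtain ⟨r, hrv, hr, hri⟩ := hpenc w hwi hwp
      refine ⟨w, r, hw, hwi, hwuniq, hr, hrp r hr hri, ?_⟩
      intro r' h1 h2
      by_contra h3
      exact hW (hCK3 V v par dep hR w r r' hdw hr h1 (fun h => h3 h.symm) (hrp r hr hri)
        (hrp r' h1 h2))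
    · push Not at hlf
      exact (htwo c₁ c₂ hc1 hc2 hc12 (hlf c₁ hc1) (hlf c₂ hc2)).elim

end Pool.Agent.Lib.MP_8b7544_co.One
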