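import Pool.Agent.Lib.MP_8b7544_co.One.StmD

set_option autoImplicit false

namespace Pool.Agent.Lib.MP_8b7544_co.One

open Finset

theorem CSP_holds (hFIN : S_FIN) (hSPI : S_SPI) : S_CSP := by
  classical
  intro V _ _ v par dep hR p q₁ q₂ r₁ r₂ hp hq1 hq2 hne hr1 hr2 ha1 ha2 hn1 hn2
  have hpv : p ≠ v := by
    rintro rfl
    rw [hR.dv] at hp
    exact absurd hp (by norm_num)
  have dq : ∀ q, par q = p → dep q = 2 := by
    intro q hq
    have hqv : q ≠ v := by
      rintro rfl
      rw [hR.pv] at hq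
      exact hpv hq.symm
    rw [hR.ds q hqv, hq, hp]
  have d1 := dq q₁ hq1
  have d2 := dq q₂ hq2
  have hboth : ∀ x, Anc par x q₁ → Anc par x q₂ → False := fun x h1 h2 =>
    hne (hR.anc_eq h1 h2 (by rw [d1, d2]))
  have dr : ∀ q r, dep q = 2 → Anc par r q → r ≠ q → 3 ≤ dep r := by
    intro q r hq hrq hrne
    obtain ⟨h1, h2⟩ := hR.anc_dep hrq
    by_contra hlt
    have : dep r - dep q = 0 := by omega
    rw [this] at h2
    exact hrne h2
  have e1 := dr q₁ r₁ d1 ha1 hn1
  have e2 := dr q₂ r₂ d2 ha2 hn2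
  -- ancestors of depth two and one
  have an : ∀ q x, par q = p → Anc par x q → par^[dep x - 2] x = q ∧ par^[dep x - 1] x = p := by
    intro q x hq hxq
    have hd := dq q hq
    refine ⟨?_, ?_⟩
    · have := (hR.anc_dep hxq).2
      rw [hd] at this
      exact this
    · have h3 : Anc par x p := by
        have := hxq.par
        rw [hq] at this
        exact this
      have := (hR.anc_dep h3).2
      rw [hp] at this
      exact this
  have apar : ∀ q r, par q = p → Anc par r q → r ≠ q → Anc par (par r) q := by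
    intro q r hq hrq hrne
    obtain ⟨j, hj⟩ := hrq
    rcases Nat.eq_zero_or_pos j with h0 | h0
    · rw [h0] at hj
      exact absurd hj hrne
    · refine ⟨j - 1, ?_⟩
      rw [← Function.iterate_succ_apply, Nat.succ_eq_add_one, Nat.sub_add_cancel h0, hj]
  have hp1 := apar q₁ r₁ hq1 ha1 hn1
  have hp2 := apar q₂ r₂ hq2 ha2 hn2
  have dp1 := hR.dep_par r₁
  have dp2 := hR.dep_par r₂
  have noanc : ∀ x y, dep x < dep y → ¬ Anc par x y := by
    intro x y hlt h
    have := (hR.anc_dep h).1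
    omega
  -- a child of r₂
  obtain ⟨ℓ, hℓv, hℓ⟩ : ∃ y, y ≠ v ∧ par y = r₂ := by
    have := hr2.1
    unfold Lf at this
    push Not at this
    obtain ⟨y, h1, h2⟩ := this
    exact ⟨y, h1, h2⟩
  by_cases hodd : Odd (dep r₁ + dep r₂)
  · obtain ⟨K, δ, e, hO, hK, hle⟩ := hSPI V v par dep hR (par r₁) (par r₂) (by omega) (by omega)
      (by
        rw [dp1, dp2]
        obtain ⟨t, ht⟩ := hodd
        exact ⟨t - 1, by omega⟩)
      (by rw [(an q₁ _ hq1 hp1).2, (an q₂ _ hq2 hp2).2])
      (by rw [(an q₁ _ hq1 hp1).1, (an q₂ _ hq2 hp2).1]; exact hne)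
    refine hFIN V v par dep hR K δ e r₁ r₂ ?_ ⟨ℓ, hℓv, Or.inr hℓ⟩ (Or.inl hle)
    refine ⟨hO.loc, ?_, ?_, ?_, hO.pK, hO.qK, ?_, hO.opp, hr1.2, hr2.2⟩
    · rintro rfl
      exact hboth _ ha1 ha2
    · rw [hK]
      rintro (h | h)
      · exact noanc _ _ (by omega) h
      · exact hboth _ (h.trans ha1) hp2
    · rw [hK]
      rintro (h | h)
      · exact hboth _ hp1 (h.trans ha2)
      · exact noanc _ _ (by omega) h
    · intro h0
      have := hO.odd
      rw [h0] at this
      exact absurd this (by decide)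
  · obtain ⟨c, hcv, hc⟩ : ∃ y, y ≠ v ∧ par y = r₁ := by
      have := hr1.1
      unfold Lf at this
      push Not at this
      obtain ⟨y, h1, h2⟩ := this
      exact ⟨y, h1, h2⟩
    have hcl : Lf v par c := hr1.2 c hcv hc
    have dc : dep c = dep r₁ + 1 := by rw [hR.ds c hcv, hc]
    obtain ⟨K, δ, e, hO, hK, hle⟩ := hSPI V v par dep hR r₁ (par r₂) (by omega) (by omega)
      (by
        rw [dp2]
        rw [Nat.not_odd_iff_even] at hodd
        obtain ⟨t, ht⟩ := hodd
        exact ⟨t - 1, by omega⟩)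
      (by rw [(an q₁ _ hq1 ha1).2, (an q₂ _ hq2 hp2).2])
      (by rw [(an q₁ _ hq1 ha1).1, (an q₂ _ hq2 hp2).1]; exact hne)
    refine hFIN V v par dep hR K δ e c r₂ ?_ ⟨ℓ, hℓv, Or.inr hℓ⟩ (Or.inl hle)
    refine ⟨hO.loc, ?_, ?_, ?_, by rw [hc]; exact hO.pK, hO.qK, ?_, by rw [hc]; exact hO.opp,
      fun y hy hyc => absurd hyc (hcl y hy), hr2.2⟩
    · rintro rfl
      exact hr2.1 hcl
    · rw [hK]
      rintro (h | h)
      · exact noanc _ _ (by omega) h
      · have h1 := h.par
        rw [hc] at h1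
        exact hboth _ (h1.trans ha1) hp2
    · rw [hK]
      rintro (h | h)
      · exact hboth _ ha1 (h.trans ha2)
      · exact noanc _ _ (by omega) h
    · rw [hc]
      intro h0
      have := hO.odd
      rw [h0] at this
      exact absurd this (by decide)

end Pool.Agent.Lib.MP_8b7544_co.One
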