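import Pool.Agent.Lib.MP_8b7544_co.One.StmD
import Pool.Agent.Lib.MP_8b7544_co.Star

set_option autoImplicit false

namespace Pool.Agent.Lib.MP_8b7544_co.One

open Finset

theorem CTH_holds (hTRE : S_TRE) : S_CTH := by
  classical
  intro V _ _ v par dep hR p hp hpen
  have hpv : p ≠ v := by
    rintro rfl
    rw [hR.dv] at hp
    exact absurd hp (by norm_num)
  have hpp : par p = v := by
    apply hR.eq_root
    rw [hR.dep_par, hp]
  by_cases hex : ∃ G : SimpleGraph V, Tr G v par
  · obtain ⟨G, hG⟩ := hex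
    have hpar : ∀ x, G.Adj p x → x ≠ v → par x = p := by
      intro x hx hxv
      rcases (hG p x).1 hx with ⟨_, h⟩ | ⟨_, h⟩
      · exact absurd (h.symm.trans hpp) hxv
      · exact h
    obtain ⟨N₁, hN₁⟩ := part_c G (hTRE V G v par dep hR hG) v p
      ((hG v p).2 (Or.inr ⟨hpv, hpp⟩))
      (by
        obtain ⟨hl, -⟩ := hpen
        unfold Lf at hl
        push Not at hl
        obtain ⟨y, hyv, hy⟩ := hl
        exact ⟨y, (hG p y).2 (Or.inr ⟨hyv, hy⟩), hyv⟩)
      (by
        intro x hx hxv y hy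
        have hxp := hpar x hx hxv
        rcases (hG x y).1 hy with ⟨_, h⟩ | ⟨hyv, h⟩
        · rw [← h, hxp]
        · exact absurd h (hpen.2 x hxv hxp y hyv))
    refine ⟨N₁, fun N hN G' hG' => ?_⟩
    have : G' = G := by
      ext a b
      rw [hG' a b, hG a b]
    rw [this]
    exact hN₁ N hN
  · exact ⟨0, fun N _ G hG => absurd ⟨G, hG⟩ hex⟩

end Pool.Agent.Lib.MP_8b7544_co.One
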