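import Pool.Agent.Lib.MP_8b7544_co.One.StmD

set_option autoImplicit false

namespace Pool.Agent.Lib.MP_8b7544_co.One

open Finset

private theorem CWW_child {V : Type} {v : V} {par : V → V} {x : V} (h : ¬ Lf v par x) :
    ∃ y, y ≠ v ∧ par y = x := by
  unfold Lf at h
  push Not at h
  exact h

private theorem CWW_dep {V : Type} {v : V} {par : V → V} {dep : V → ℕ} (h : Rt v par dep) {x y : V}
    (hx : par x = y) (hy : 1 ≤ dep y) : dep x = dep y + 1 := by
  have hne : x ≠ v := by
    rintro rfl
    rw [h.pv] at hx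
    rw [← hx, h.dv] at hy
    omega
  rw [h.ds x hne, hx]

theorem CWW_holds (hFIN : S_FIN) (hBB : S_BB) (hE11 : S_E11) : S_CWW := by
  intro V _ _ v par dep h q w₁ w₂ r₁ r₂ dq h1 h2 hne hr1 hr2 hP1 hP2
  have d1 : dep w₁ = 3 := by rw [CWW_dep h h1 (by omega), dq]
  have d2 : dep w₂ = 3 := by rw [CWW_dep h h2 (by omega), dq]
  have e1 : dep r₁ = 4 := by rw [CWW_dep h hr1 (by omega), d1]
  have e2 : dep r₂ = 4 := by rw [CWW_dep h hr2 (by omega), d2]
  obtain ⟨δ, hO, hb⟩ := hBB V v par dep h (par q) q w₁ d1 h1 rfl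
  have hK : ∀ z ∈ ({v, par q, q, w₁} : Finset V), dep z ≤ 3 ∧ (dep z = 3 → z = w₁) := by
    intro z hz
    rw [mem_insert, mem_insert, mem_insert, mem_singleton] at hz
    rcases hz with rfl | rfl | rfl | rfl
    · rw [h.dv]; omega
    · rw [h.dep_par]; omega
    · omega
    · exact ⟨by omega, fun _ => rfl⟩
  have hr1K : r₁ ∉ ({v, par q, q, w₁} : Finset V) := by
    intro hh
    have := (hK r₁ hh).1
    omega
  have hw2K : w₂ ∉ ({v, par q, q, w₁} : Finset V) := by
    intro hh
    exact hne ((hK w₂ hh).2 d2).symm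
  obtain ⟨δ', hO', hb'⟩ := hE11 V v par dep h _ δ 1 w₁ q r₁ w₂ hO hr1K hw2K hr1 h2
  obtain ⟨c, hc, hc1⟩ := CWW_child hP1.1
  obtain ⟨c', hc', hc2⟩ := CWW_child hP2.1
  have dc : dep c = 5 := by rw [CWW_dep h hc1 (by omega), e1]
  have hcL : Lf v par c := hP1.2 c hc hc1
  have hG : Good v par (insert r₁ (insert w₂ ({v, par q, q, w₁} : Finset V))) δ' (2 * 1) c r₂ :=
    { loc := hO'.loc
      ne := by
        rintro rfl
        omega
      aK := by
        rw [mem_insert, mem_insert]
        rintro (hh | hh | hh)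
        · rw [hh] at dc; omega
        · rw [hh] at dc; omega
        · have := (hK c hh).1; omega
      bK := by
        rw [mem_insert, mem_insert]
        rintro (hh | hh | hh)
        · rw [hh, hr1] at hr2
          exact hne hr2
        · rw [hh] at e2; omega
        · have := (hK r₂ hh).1; omega
      pa := by rw [hc1]; exact hO'.pK
      pb := by rw [hr2]; exact hO'.qK
      nz := by
        rw [hc1]
        intro h0
        have := hO'.odd
        rw [h0] at this
        exact absurd this (by decide)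
      opp := by rw [hc1, hr2]; exact hO'.opp
      ta := fun z hz hz' => absurd hz' (hcL z hz)
      tb := hP2.2 }
  exact hFIN V v par dep h _ δ' (2 * 1) c r₂ hG ⟨c', hc', Or.inr hc2⟩ (Or.inl (hb' hb))

end Pool.Agent.Lib.MP_8b7544_co.One
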