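import Pool.Agent.Lib.MP_8b7544_co.One.StmD

set_option autoImplicit false

namespace Pool.Agent.Lib.MP_8b7544_co.One

open Finset

theorem E11_holds : S_E11 := by
  intro V _ v par dep hR K δ e P Q x y hO hx hy hxP hyQ
  obtain ⟨hL, hP, hQ, hodd, hopp⟩ := hO
  have hPQ : P ≠ Q := by
    rintro rfl
    have : δ P = 0 := by linarith
    rw [this] at hodd
    exact absurd hodd (by decide)
  have hxy : x ≠ y := by
    rintro rfl
    exact hPQ (hxP.symm.trans hyQ)
  have hodd' : Odd (δ Q) := by rw [hopp]; exact hodd.neg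
  let δ' : V → ℤ := fun w => if w = x then - δ P else if w = y then - δ Q else 2 * δ w
  have dx : δ' x = - δ P := by simp [δ']
  have dy : δ' y = - δ Q := by simp [δ', hxy.symm]
  have dK : ∀ w ∈ K, δ' w = 2 * δ w := by
    intro w hw
    have h1 : w ≠ x := fun h => hx (h ▸ hw)
    have h2 : w ≠ y := fun h => hy (h ▸ hw)
    simp [δ', h1, h2]
  have hvx : v ≠ x := fun h => hx (h ▸ hL.root)
  have hvy : v ≠ y := fun h => hy (h ▸ hL.root)
  have hmem : ∀ w, w ∈ insert x (insert y K) ↔ w = x ∨ w = y ∨ w ∈ K := by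
    intro w; simp only [mem_insert]
  have hlabx : δ' x + δ' (par x) = δ P := by rw [dx, hxP, dK P hP]; ring
  have hlaby : δ' y + δ' (par y) = δ Q := by rw [dy, hyQ, dK Q hQ]; ring
  have heven : ∀ w ∈ K, Even (δ' w) := by
    intro w hw; rw [dK w hw]; exact even_two_mul _
  have ox : Odd (δ' x) := by rw [dx]; exact hodd.neg
  have oy : Odd (δ' y) := by rw [dy]; exact hodd'.neg
  have hneo : ∀ w ∈ K, ∀ t : ℤ, Odd t → δ' w ≠ t := by
    intro w hw t ht h
    have := heven w hw
    rw [h] at this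
    exact (Int.not_even_iff_odd.2 ht) this
  have hxyv : δ' x ≠ δ' y := by
    rw [dx, dy, hopp]
    intro h
    have : δ P = 0 := by linarith
    rw [this] at hodd
    exact absurd hodd (by decide)
  refine ⟨δ', ⟨⟨?_, ?_, ?_, ?_, ?_, ?_⟩, ?_, ?_, ?_, ?_⟩, ?_⟩
  · rw [hmem]; exact Or.inr (Or.inr hL.root)
  · intro w hw
    rw [hmem] at hw ⊢
    rcases hw with rfl | rfl | hw
    · right; right; rw [hxP]; exact hP
    · right; right; rw [hyQ]; exact hQ
    · right; right; exact hL.closed w hw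
  · rw [dK v hL.root, hL.zero]; rfl
  · intro w hw w' hw' h
    rw [hmem] at hw hw'
    rcases hw with rfl | rfl | hw <;> rcases hw' with rfl | rfl | hw'
    · rfl
    · exact absurd h hxyv
    · exact absurd h.symm (hneo w' hw' _ ox)
    · exact absurd h.symm hxyv
    · rfl
    · exact absurd h.symm (hneo w' hw' _ oy)
    · exact absurd h (hneo w hw _ ox)
    · exact absurd h (hneo w hw _ oy)
    · rw [dK w hw, dK w' hw'] at h
      exact hL.inj w hw w' hw' (by linarith)
  · obtain ⟨w, hw, hwe⟩ := hL.emem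
    exact ⟨w, (hmem w).2 (Or.inr (Or.inr hw)), by rw [dK w hw, hwe]⟩
  · intro w hw hwe
    rw [hmem] at hw
    rcases hw with rfl | rfl | hw
    · exact ⟨y, (hmem y).2 (Or.inr (Or.inl rfl)), hvy.symm, by rw [hlaby, dx, hopp]⟩
    · exact ⟨x, (hmem x).2 (Or.inl rfl), hvx.symm, by rw [hlabx, dy, hopp]; ring⟩
    · have h1 : δ w ≠ e := by
        intro h
        exact hwe (by rw [dK w hw, h])
      obtain ⟨u, hu, huv, h2⟩ := hL.loc w hw h1
      exact ⟨u, (hmem u).2 (Or.inr (Or.inr hu)), huv, by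
        rw [dK u hu, dK _ (hL.closed u hu), dK w hw, ← h2]; ring⟩
  · rw [hmem]; exact Or.inl rfl
  · rw [hmem]; exact Or.inr (Or.inl rfl)
  · exact ox
  · rw [dx, dy, hopp]
  · intro hmax w hw
    have h1 := hmax P hP
    have h2 := hmax Q hQ
    rw [hmem] at hw
    rcases hw with rfl | rfl | hw
    · rw [dx]; linarith
    · rw [dy]; linarith
    · rw [dK w hw]; linarith [hmax w hw]

end Pool.Agent.Lib.MP_8b7544_co.One
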