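import Pool.Agent.Lib.MP_8b7544_co.One.StmD

set_option autoImplicit false

namespace Pool.Agent.Lib.MP_8b7544_co.One

open Finset

private theorem E11N_anc {V : Type} {par : V → V} {x w : V} :
    Anc par x w ↔ w = x ∨ Anc par (par x) w := by
  constructor
  · rintro ⟨j, rfl⟩
    cases j with
    | zero => exact Or.inl rfl
    | succ j => exact Or.inr ⟨j, by rw [Function.iterate_succ_apply]⟩
  · rintro (rfl | h)
    · exact Anc.refl _
    · exact h.of_par

/-- The next vertex is not in the set obtained so far. -/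
private theorem E11N_not {V : Type} {v : V} {par : V → V} {dep : V → ℕ} (h : Rt v par dep)
    {K : Finset V} {δ : V → ℤ} {e : ℤ} (hK : Loc v par K δ e) {n : ℕ} {P' Q' Q : V}
    (hQ : Q ∈ K) (hQ' : par^[n + 1] Q' = Q) (hP : ∀ j < n + 1, par^[j] P' ∉ K) :
    P' ∉ K ∧ ¬ Anc par (par P') P' ∧ ¬ Anc par (par Q') P' := by
  have h0 : P' ∉ K := hP 0 (by omega)
  refine ⟨h0, ?_, ?_⟩
  · intro ha
    have h1 := (h.anc_dep ha).1
    rw [h.dep_par] at h1
    have h2 : P' = v := h.eq_root (by omega)
    exact h0 (h2 ▸ hK.root)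
  · rintro ⟨i, hi⟩
    have hi' : par^[i + 1] Q' = P' := by rw [Function.iterate_succ_apply, hi]
    rcases le_or_gt (i + 1) n with hin | hin
    · have e1 : par^[n + 1 - (i + 1)] P' = Q := by
        rw [← hi', ← Function.iterate_add_apply, ← hQ']
        congr 1
        rw [show n + 1 - (i + 1) + (i + 1) = n + 1 by omega]
      exact hP (n + 1 - (i + 1)) (by omega) (e1 ▸ hQ)
    · have e1 : par^[i + 1 - (n + 1)] Q = P' := by
        rw [← hi', ← hQ', ← Function.iterate_add_apply]
        congr 1
        rw [show i + 1 - (n + 1) + (n + 1) = i + 1 by omega]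
      exact h0 (hK.anc hQ ⟨_, e1⟩)

theorem E11N_holds (hE11 : S_E11) : S_E11N := by
  intro V _ v par dep hRt n
  induction n with
  | zero =>
    intro K δ e P Q P' Q' hO hP hQ _ _
    have hP' : P' = P := hP
    have hQ' : Q' = Q := hQ
    subst hP' hQ'
    refine ⟨K, δ, e, hO, ?_, fun h => h⟩
    intro w
    constructor
    · exact Or.inl
    · rintro (h | h | h)
      · exact h
      · exact hO.loc.anc hO.pK h
      · exact hO.loc.anc hO.qK h
  | succ n ih =>
    intro K δ e P Q P' Q' hO hP hQ hjP hjQ
    obtain ⟨K', δ', e', hO', hmem, hle⟩ := ih K δ e P Q (par P') (par Q') hO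
      (by rw [← Function.iterate_succ_apply]; exact hP)
      (by rw [← Function.iterate_succ_apply]; exact hQ)
      (by
        intro j hj
        rw [← Function.iterate_succ_apply]
        exact hjP (j + 1) (by omega))
      (by
        intro j hj
        rw [← Function.iterate_succ_apply]
        exact hjQ (j + 1) (by omega))
    have hPn := E11N_not hRt hO.loc hO.qK hQ hjP
    have hQn := E11N_not hRt hO.loc hO.pK hP hjQ
    have hPK : P' ∉ K' := by
      rw [hmem]
      rintro (h | h | h)
      · exact hPn.1 h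
      · exact hPn.2.1 h
      · exact hPn.2.2 h
    have hQK : Q' ∉ K' := by
      rw [hmem]
      rintro (h | h | h)
      · exact hQn.1 h
      · exact hQn.2.2 h
      · exact hQn.2.1 h
    obtain ⟨δ'', hO'', hle''⟩ := hE11 V v par dep hRt K' δ' e' (par P') (par Q') P' Q' hO' hPK hQK
      rfl rfl
    refine ⟨insert P' (insert Q' K'), δ'', 2 * e', hO'', ?_, ?_⟩
    · intro w
      rw [mem_insert, mem_insert, hmem, E11N_anc (x := P'), E11N_anc (x := Q')]
      tauto
    · intro h
      exact hle'' (hle h)

end Pool.Agent.Lib.MP_8b7544_co.One
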