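import Pool.Agent.Lib.MP_8b7544_co.One.StmD

set_option autoImplicit false

namespace Pool.Agent.Lib.MP_8b7544_co.One

open Finset

theorem FIN_holds (hPATH : S_PATH) (hPATHC : S_PATHC) (hTUNE : S_TUNE) (hPW : S_PW) : S_FIN := by
  classical
  intro V _ _ v par dep hR K δ e a b hG hℓ hor
  let L : Finset V := univ.filter (fun x => x ≠ v ∧ (par x = a ∨ par x = b))
  let R : Finset V := univ.filter (fun x => x ∉ K ∧ par x ∉ K ∧ par x ≠ a ∧ par x ≠ b)
  have hL : ∀ x, x ∈ L ↔ x ≠ v ∧ (par x = a ∨ par x = b) := fun x => by simp [L]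
  have hRm : ∀ x, x ∈ R ↔ x ∉ K ∧ par x ∉ K ∧ par x ≠ a ∧ par x ≠ b := fun x => by simp [R]
  have key : ∀ i : ℕ, 1 ≤ i → i ≤ L.card → (R.Nonempty ∨ i < L.card) →
      (∀ A : ℤ, 1 ≤ A → (R = ∅ → A = 1) →
        IsCoprime (2 * A - 1) ((i : ℤ) * A + ((L.card : ℤ) - i))) → Win v par := by
    intro i h1 h2 h3 h4
    obtain ⟨L₁, hL1, hc⟩ := Finset.exists_subset_card_eq h2
    have hc2 : (L \ L₁).card = L.card - i := by rw [card_sdiff_of_subset hL1, hc]
    obtain ⟨A, κ, B, hA, hA1, hP⟩ := hPATH V v par dep hR K δ e a b hG L₁ (L \ L₁) R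
      disjoint_sdiff (by rw [← card_pos, hc]; exact h1)
      (by intro x; rw [union_sdiff_of_subset hL1]; exact hL x) hRm
      (by
        rcases h3 with h | h
        · exact Or.inl h
        · right; rw [← card_pos, hc2]; omega)
    have hq : ((L₁.card : ℤ) * A + ((L \ L₁).card : ℤ)) = (i : ℤ) * A + ((L.card : ℤ) - i) := by
      rw [hc, hc2]; push_cast [h2]; ring
    rw [hq] at hP
    refine hPW V v par K δ e (2 * A - 1) _ κ B hG.loc (by linarith) ?_ (h4 A hA hA1) hP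
    have h5 : (1 : ℤ) ≤ i := by exact_mod_cast h1
    have h6 : (i : ℤ) ≤ L.card := by exact_mod_cast h2
    nlinarith
  obtain ⟨ℓ, hℓ1⟩ := hℓ
  have hLpos : 1 ≤ L.card := card_pos.2 ⟨ℓ, (hL ℓ).2 hℓ1⟩
  by_cases hRe : R = ∅
  · by_cases hg : 1 < L.card
    · refine key 1 le_rfl hLpos (Or.inr hg) ?_
      intro A _ hA
      rw [hA hRe]
      simpa using isCoprime_one_left
    · have hL1 : L.card = 1 := by omega
      obtain ⟨ℓ', hL'⟩ := card_eq_one.1 hL1
      have hmem : ∀ x, (x ≠ v ∧ (par x = a ∨ par x = b)) ↔ x = ℓ' := by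
        intro x
        rw [← hL x, hL', mem_singleton]
      have hno : ∀ x, ¬ (x ∉ K ∧ par x ∉ K ∧ par x ≠ a ∧ par x ≠ b) := by
        intro x hx
        have := (hRm x).2 hx
        rw [hRe] at this
        exact absurd this (notMem_empty x)
      rcases hor with h | ⟨r, hr⟩ | ⟨y, y', hne, h1, h2⟩
      · obtain ⟨κ, B, hP⟩ := hPATHC V v par dep hR K δ e a b hG h ℓ' hmem hno
        exact hPW V v par K δ e 1 1 κ B hG.loc le_rfl le_rfl isCoprime_one_left hP
      · exact absurd hr (hno r)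
      · exact absurd (((hmem y).1 h1).trans ((hmem y').1 h2).symm) hne
  · obtain ⟨i, h1, h2, h3⟩ := hTUNE L.card hLpos
    exact key i h1 h2 (Or.inl (nonempty_iff_ne_empty.2 hRe)) (fun A hA _ => h3 A hA)

end Pool.Agent.Lib.MP_8b7544_co.One
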