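import Pool.Agent.Lib.MP_8b7544_co.One.StmD

set_option autoImplicit false

namespace Pool.Agent.Lib.MP_8b7544_co.One

open Finset

theorem GROW_holds : S_GROW := by
  intro V _ par dep R
  refine Finset.induction_on_max_value dep R ?_ ?_
  · intro _ c c₂ B
    refine ⟨1, c₂, 0, fun _ => 1, c, le_refl _, fun _ => ⟨rfl, rfl⟩, fun x _ => ⟨rfl, rfl⟩,
      fun _ => le_refl _, ?_⟩
    intro W _
    refine ⟨{W + c₂}, ?_, ?_, ?_⟩
    · rw [one_mul]
      exact AC.nil (V := V) (fun x => 1 * W + c x) (fun x => 1 * W + c (par x)) (W + c₂)
    · intro z hz
      left
      exact mem_singleton.mp hz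
    · intro z hz
      rw [mem_singleton.mp hz, one_mul]
  · intro x₀ s hx₀ hmax ih hR c c₂ B
    obtain ⟨A, c', W₀, α, γ, hA, -, hout, hα, hW⟩ :=
      ih (fun x hx => hR x (mem_insert_of_mem hx)) c c₂ B
    have hpar : ∀ x ∈ insert x₀ s, par x ≠ x₀ := by
      intro x hx hp
      have h1 := hR x hx
      rw [hp] at h1
      rcases mem_insert.mp hx with h | h
      · rw [h] at h1
        exact lt_irrefl _ h1
      · exact absurd (hmax x h) (by omega)
    refine ⟨A + α (par x₀), c' + γ (par x₀),
      max W₀ (|γ (par x₀)| + |c' + γ (par x₀)| + |B| + 1), Function.update α x₀ A,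
      Function.update γ x₀ c', ?_, ?_, ?_, ?_, ?_⟩
    · linarith [hα (par x₀)]
    · intro h
      exact absurd h (insert_ne_empty _ _)
    · intro x hx
      have h1 : x ≠ x₀ := fun h => hx (by rw [h]; exact mem_insert_self _ _)
      have h2 : x ∉ s := fun h => hx (mem_insert_of_mem h)
      rw [Function.update_of_ne h1, Function.update_of_ne h1]
      exact hout x h2
    · intro x
      by_cases h1 : x = x₀
      · rw [h1, Function.update_self]
        exact hA
      · rw [Function.update_of_ne h1]
        exact hα x
    · intro W hWW
      have hW0 : W₀ ≤ W := le_trans (le_max_left _ _) hWW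
      have hW1 : |γ (par x₀)| + |c' + γ (par x₀)| + |B| + 1 ≤ W := le_trans (le_max_right _ _) hWW
      obtain ⟨Z, hAC, hZ1, hZ2⟩ := hW W hW0
      have a1 := neg_abs_le (γ (par x₀))
      have a2 := neg_abs_le (c' + γ (par x₀))
      have a3 := le_abs_self B
      have a4 := abs_nonneg (γ (par x₀))
      have a5 := abs_nonneg (c' + γ (par x₀))
      have a6 := abs_nonneg B
      have hWpos : 0 ≤ W := by linarith
      have b1 : W ≤ α (par x₀) * W := le_mul_of_one_le_left hWpos (hα _)
      have b2 : W ≤ A * W := le_mul_of_one_le_left hWpos hA
      have hstep : 0 < α (par x₀) * W + γ (par x₀) := by linarith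
      -- the new functions on the old set
      have h1 : AC s (fun x => Function.update α x₀ A x * W + Function.update γ x₀ c' x)
          (fun x => Function.update α x₀ A (par x) * W + Function.update γ x₀ c' (par x)) Z
          (W + c₂) (A * W + c') := by
        refine hAC.congr ?_ ?_
        · intro x hx
          have : x ≠ x₀ := fun h => hx₀ (h ▸ hx)
          simp only [Function.update_of_ne this]
        · intro x hx
          have : par x ≠ x₀ := hpar x (mem_insert_of_mem hx)
          simp only [Function.update_of_ne this]
      have hp0 : par x₀ ≠ x₀ := hpar x₀ (mem_insert_self _ _)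
      have h2 : AC ({x₀} : Finset V)
          (fun x => Function.update α x₀ A x * W + Function.update γ x₀ c' x)
          (fun x => Function.update α x₀ A (par x) * W + Function.update γ x₀ c' (par x))
          {A * W + c', (A + α (par x₀)) * W + (c' + γ (par x₀))}
          (A * W + c') ((A + α (par x₀)) * W + (c' + γ (par x₀))) := by
        have := AC.single (fun x => Function.update α x₀ A x * W + Function.update γ x₀ c' x)
          (fun x => Function.update α x₀ A (par x) * W + Function.update γ x₀ c' (par x)) x₀
          (by
            simp only [Function.update_of_ne hp0]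
            exact hstep.ne')
        simp only [Function.update_of_ne hp0, Function.update_self] at this
        have e : A * W + c' + (α (par x₀) * W + γ (par x₀)) =
            (A + α (par x₀)) * W + (c' + γ (par x₀)) := by ring
        rw [e] at this
        exact this
      have h3 := h1.append h2 (disjoint_singleton_right.mpr hx₀) (by
        intro z hz hz'
        rw [mem_insert, mem_singleton] at hz'
        rcases hz' with h | h
        · exact h
        · have := hZ2 z hz
          have e : (A + α (par x₀)) * W + (c' + γ (par x₀)) =
            A * W + c' + (α (par x₀) * W + γ (par x₀)) := by ring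
          rw [h, e] at this
          linarith)
      have hset : insert x₀ s = s ∪ {x₀} := by
        rw [insert_eq, union_comm]
      rw [hset]
      refine ⟨_, h3, ?_, ?_⟩
      · intro z hz
        rcases mem_union.mp hz with h | h
        · exact hZ1 z h
        · rw [mem_insert, mem_singleton] at h
          rcases h with h | h
          · rw [h]
            exact hZ1 _ hAC.mhi
          · right
            rw [h]
            have e : (A + α (par x₀)) * W + (c' + γ (par x₀)) =
              A * W + α (par x₀) * W + (c' + γ (par x₀)) := by ring
            rw [e]
            linarith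
      · intro z hz
        have e : (A + α (par x₀)) * W + (c' + γ (par x₀)) =
            A * W + c' + (α (par x₀) * W + γ (par x₀)) := by ring
        rw [e]
        rcases mem_union.mp hz with h | h
        · have := hZ2 z h
          linarith
        · rw [mem_insert, mem_singleton] at h
          rcases h with h | h
          · rw [h]
            linarith
          · rw [h, e]

end Pool.Agent.Lib.MP_8b7544_co.One
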