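import Pool.Agent.Lib.MP_8b7544_co.One.StmD

/-! Piece INC (helper88): chains with positive steps. -/

set_option autoImplicit false

namespace Pool.Agent.Lib.MP_8b7544_co.One

open Finset

theorem INC_holds : S_INC := by
  intro V _ S ω z m hm hω
  induction S using Finset.induction_on with
  | empty =>
    refine ⟨fun _ => 0, {z}, ?_, ?_, ?_⟩
    · rw [Finset.sum_empty, add_zero]
      exact AC.nil _ _ z
    · intro t ht
      left
      exact Finset.mem_singleton.1 ht
    · intro t ht
      left
      rw [Finset.sum_empty, add_zero]
      exact Finset.mem_singleton.1 ht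
  | insert x₀ S hx₀ ih =>
    obtain ⟨o, Z, hAC, h1, h2⟩ := ih (fun x hx => hω x (Finset.mem_insert_of_mem hx))
    have hx : m ≤ ω x₀ := hω x₀ (Finset.mem_insert_self _ _)
    obtain ⟨T, hT⟩ : ∃ T, T = z + ∑ x ∈ S, ω x := ⟨_, rfl⟩
    rw [← hT] at hAC h2
    have hsum : z + ∑ x ∈ insert x₀ S, ω x = T + ω x₀ := by
      rw [Finset.sum_insert hx₀, hT]
      ring
    rw [hsum]
    have ho : Function.update o x₀ T x₀ = T := Function.update_self _ _ _
    have hA : AC S (Function.update o x₀ T) ω Z z T :=
      hAC.congr (fun x hxS => by
        have hne : x ≠ x₀ := fun h => hx₀ (h ▸ hxS)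
        exact Function.update_of_ne hne _ _) (fun x _ => rfl)
    have hB := AC.single (Function.update o x₀ T) ω x₀ (by omega)
    rw [ho] at hB
    refine ⟨Function.update o x₀ T, Z ∪ {T, T + ω x₀}, ?_, ?_, ?_⟩
    · have hC := hA.append hB (Finset.disjoint_singleton_right.2 hx₀) (by
        intro t ht ht'
        rw [Finset.mem_insert, Finset.mem_singleton] at ht'
        rcases ht' with h | h
        · exact h
        · rcases h2 t ht with h' | h'
          · exact h'
          · exfalso; linarith)
      have he : insert x₀ S = S ∪ {x₀} := by
        rw [Finset.insert_eq, Finset.union_comm]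
      rw [he]
      exact hC
    · intro t ht
      rcases Finset.mem_union.1 ht with h | h
      · exact h1 t h
      · rw [Finset.mem_insert, Finset.mem_singleton] at h
        rcases h with h | h
        · rw [h]
          exact h1 T hAC.mhi
        · rw [h]
          rcases h1 T hAC.mhi with h' | h'
          · right; linarith
          · right; linarith
    · intro t ht
      rcases Finset.mem_union.1 ht with h | h
      · right
        rcases h2 t h with h' | h'
        · rw [h']; linarith
        · linarith
      · rw [Finset.mem_insert, Finset.mem_singleton] at h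
        rcases h with h | h
        · right; rw [h]; linarith
        · left; exact h

end Pool.Agent.Lib.MP_8b7544_co.One
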