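import Pool.Agent.Lib.MP_8b7544_co.One.StmD

set_option autoImplicit false

namespace Pool.Agent.Lib.MP_8b7544_co.One

theorem ISO_holds : S_ISO := by
  rintro W W' G G' ⟨f⟩ ⟨e, k, he⟩
  have hcard : Nat.card (W ⊕ G.edgeSet) = Nat.card (W' ⊕ G'.edgeSet) :=
    Nat.card_congr (f.toEquiv.sumCongr f.mapEdgeSet)
  refine ⟨((f.toEquiv.sumCongr f.mapEdgeSet).symm.trans e).trans (finCongr hcard), k, ?_⟩
  intro u v h
  have hs : G.Adj (f.symm u) (f.symm v) := by
    rw [SimpleGraph.Iso.map_adj_iff f.symm]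
    exact h
  have h1 := he (f.symm u) (f.symm v) hs
  have e1 : ∀ u : W', ((((f.toEquiv.sumCongr f.mapEdgeSet).symm.trans e).trans (finCongr hcard))
      (Sum.inl u)).val = (e (Sum.inl (f.symm u))).val := fun u => rfl
  have e2 : ((((f.toEquiv.sumCongr f.mapEdgeSet).symm.trans e).trans (finCongr hcard))
      (Sum.inr ⟨s(u, v), (SimpleGraph.mem_edgeSet G').mpr h⟩)).val =
      (e (Sum.inr ⟨s(f.symm u, f.symm v), (SimpleGraph.mem_edgeSet G).mpr hs⟩)).val := rfl
  rw [e1, e1, e2]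
  exact h1

end Pool.Agent.Lib.MP_8b7544_co.One
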