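import Pool.Agent.Lib.MP_8b7544_co.One.StmD

set_option autoImplicit false

namespace Pool.Agent.Lib.MP_8b7544_co.One

open Finset

theorem LMX_holds (hASM : S_ASM) : S_LMX := by
  classical
  intro V _ _ v par dep hR K δ e hloc hmin hout
  -- a bound for the labels
  obtain ⟨B, hB⟩ : ∃ B : ℤ, ∀ x, δ x ≤ B := by
    obtain ⟨B, hB⟩ := (Set.finite_range δ).bddAbove
    exact ⟨B, fun x => hB ⟨x, rfl⟩⟩
  refine ⟨(B - e + 1).toNat, ?_⟩
  intro N hN G hG
  have hN' : B - e + 1 ≤ (N : ℤ) := by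
    have := Int.self_le_toNat (B - e + 1)
    omega
  -- the numbering
  let num : V → ℕ := fun x => if h : x ∈ Kᶜ then ((Kᶜ).equivFin ⟨x, h⟩ : ℕ) else 0
  have hnum_lt : ∀ x ∈ Kᶜ, num x < (Kᶜ).card := by
    intro x hx
    show (if h : x ∈ Kᶜ then ((Kᶜ).equivFin ⟨x, h⟩ : ℕ) else 0) < _
    rw [dif_pos hx]
    exact Fin.is_lt _
  have hnum_inj : ∀ x ∈ Kᶜ, ∀ y ∈ Kᶜ, num x = num y → x = y := by
    intro x hx y hy hxy
    have hxy' : (if h : x ∈ Kᶜ then ((Kᶜ).equivFin ⟨x, h⟩ : ℕ) else 0)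
      = (if h : y ∈ Kᶜ then ((Kᶜ).equivFin ⟨y, h⟩ : ℕ) else 0) := hxy
    rw [dif_pos hx, dif_pos hy] at hxy'
    have := (Kᶜ).equivFin.injective (Fin.ext hxy')
    exact congrArg Subtype.val this
  have hcard : (Kᶜ).card < Fintype.card V := by
    apply Finset.card_lt_univ_of_notMem (x := v)
    rw [mem_compl]
    exact fun h => h hloc.root
  set C : ℤ := (Fintype.card V : ℤ) + N + e - 1 with hC
  let τ : V → ℤ := fun x => if x ∈ K then δ x else C + 1 + num x
  have hτK : ∀ x ∈ K, τ x = δ x := fun x hx => if_pos hx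
  have hτc : ∀ x ∈ Kᶜ, τ x = C + 1 + num x := fun x hx => if_neg (mem_compl.1 hx)
  have hτv : τ v = 0 := by rw [hτK v hloc.root, hloc.zero]
  have hlo : 2 * C + 1 - e = (Fintype.card V : ℤ) + N + C := by rw [hC]; ring
  refine hASM V G v par hG K τ e C ((Fintype.card V : ℤ) + N + C)
    (insert (2 * C + 1 - e) ((Kᶜ).image τ)) N ?_ ?_ ?_ ?_ rfl
  · -- local labelling
    refine ⟨hloc.root, hloc.closed, hτv, ?_, ?_, ?_⟩
    · intro x hx y hy hxy
      rw [hτK x hx, hτK y hy] at hxy
      exact hloc.inj x hx y hy hxy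
    · obtain ⟨x, hx, he⟩ := hloc.emem
      exact ⟨x, hx, by rw [hτK x hx, he]⟩
    · intro x hx hne
      rw [hτK x hx] at hne ⊢
      obtain ⟨w, hw, hwv, hs⟩ := hloc.loc x hx hne
      exact ⟨w, hw, hwv, by rw [hτK w hw, hτK _ (hloc.closed w hw), hs]⟩
  · refine ⟨?_, mem_insert_self _ _, ?_, ?_, ?_⟩
    · rw [card_insert_of_notMem, card_image_of_injOn]
      · intro x hx y hy hxy
        have hx' : x ∈ Kᶜ := hx
        have hy' : y ∈ Kᶜ := hy
        rw [hτc x hx', hτc y hy'] at hxy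
        exact hnum_inj x hx' y hy' (by omega)
      · rw [mem_image]
        rintro ⟨x, hx, h⟩
        rw [hτc x hx] at h
        have := hnum_lt x hx
        omega
    · rw [← hlo]; exact mem_insert_self _ _
    · intro z hz
      rcases mem_insert.1 hz with h | h
      · left; rw [h, hlo]
      · obtain ⟨x, hx, h⟩ := mem_image.1 h
        exact Or.inr ⟨x, hx, h⟩
    · intro z hz
      rcases mem_insert.1 hz with h | h
      · left; exact h
      · obtain ⟨x, hx, h⟩ := mem_image.1 h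
        refine Or.inr ⟨x, hx, ?_⟩
        rw [hout x (mem_compl.1 hx), hτv, h]
        ring
  · intro z hz
    rcases mem_insert.1 hz with h | h
    · rw [h, hlo]
      constructor
      · omega
      · exact le_refl _
    · obtain ⟨x, hx, h⟩ := mem_image.1 h
      rw [hτc x hx] at h
      have := hnum_lt x hx
      constructor <;> omega
  · intro x hx hne
    rw [hτK x hx] at hne ⊢
    have h1 := hmin x hx
    have h2 := hB x
    refine ⟨by omega, by omega, ?_⟩
    intro hmem
    rcases mem_insert.1 hmem with h | h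
    · exact hne (by omega)
    · obtain ⟨y, hy, h⟩ := mem_image.1 h
      rw [hτc y hy] at h
      have := hnum_lt y hy
      omega

end Pool.Agent.Lib.MP_8b7544_co.One
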