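import Pool.Agent.Lib.MP_8b7544_co.One.StmD
import Pool.Agent.Lib.MP_8b7544_co.Hv.Stm3

set_option autoImplicit false

namespace Pool.Agent.Lib.MP_8b7544_co.One

open Finset

theorem MAIN_holds (hUN1 : S_UN1) (hISO : S_ISO) (hSTR : S_STR) (hTWO : Hv.S_FIN) : S_MAIN := by
  classical
  intro k
  obtain ⟨M₂, hM₂⟩ := hTWO k
  obtain ⟨M₁, hM₁⟩ := hUN1 (k + k * M₂)
  refine ⟨k + k * M₂ + M₁ + 3, ?_⟩
  intro W _ T hT hk hM
  by_cases hxy : ∃ x y, x ≠ y ∧ M₂ ≤ Hv.lv T x ∧ M₂ ≤ Hv.lv T y
  · exact hM₂ W T hT hk hxy
  -- leaves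
  have hleaf : ∀ w, (T.neighborSet w).ncard = 1 → ∃ p, T.Adj w p ∧ ∀ x, T.Adj w x → x = p := by
    intro w hw
    obtain ⟨p, hp⟩ := Set.ncard_eq_one.1 hw
    refine ⟨p, ?_, ?_⟩
    · have : p ∈ T.neighborSet w := by rw [hp]; exact Set.mem_singleton p
      exact this
    · intro x hx
      have : x ∈ T.neighborSet w := hx
      rw [hp] at this
      exact this
  let I : Finset W := univ.filter (fun w => (T.neighborSet w).ncard ≠ 1)
  have hmemI : ∀ w, w ∈ I ↔ (T.neighborSet w).ncard ≠ 1 := fun w =>
    ⟨fun h => (mem_filter.1 h).2, fun h => mem_filter.2 ⟨mem_univ _, h⟩⟩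
  have hIk : I.card ≤ k := by
    have : {w | (T.neighborSet w).ncard ≠ 1}.ncard = I.card := by
      rw [← Set.ncard_coe_finset]
      congr 1
      ext w
      simp [I]
    omega
  -- the neighbour of a leaf is not a leaf
  have hI : ∀ w p, (T.neighborSet w).ncard = 1 → T.Adj w p → p ∈ I := by
    intro w p hw hwp
    by_contra hp
    have hp1 : (T.neighborSet p).ncard = 1 := by
      by_contra h
      exact hp ((hmemI p).2 h)
    obtain ⟨q, hq, hq'⟩ := hleaf w hw
    obtain ⟨r, hr, hr'⟩ := hleaf p hp1
    have hqp : p = q := hq' p hwp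
    have hrw : w = r := hr' w hwp.symm
    have key : ∀ a, T.Reachable w a → a = w ∨ a = p := by
      rintro a ⟨wk⟩
      have : ∀ (b c : W) (q : T.Walk b c), (b = w ∨ b = p) → (c = w ∨ c = p) := by
        intro b c q
        induction q with
        | nil => exact id
        | cons h q ih =>
          intro hb
          apply ih
          rcases hb with rfl | rfl
          · right; rw [hqp]; exact hq' _ h
          · left; rw [hrw]; exact hr' _ h
      exact this w a wk (Or.inl rfl)
    have h1 : (univ : Finset W) ⊆ {w, p} := by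
      intro a _
      rw [mem_insert, mem_singleton]
      exact key a (hT.1.preconnected w a)
    have h2 := (card_le_card h1).trans (card_le_two (a := w) (b := p))
    rw [card_univ] at h2
    omega
  have hlv : ∀ w, (univ.filter (fun z => T.Adj w z ∧ (T.neighborSet z).ncard = 1)).card =
      Hv.lv T w := by
    intro w
    unfold Hv.lv
    rw [← Set.ncard_coe_finset]
    congr 1
    ext z
    simp
  -- a vertex with many leaves
  obtain ⟨v, hvI, hv⟩ : ∃ v ∈ I, M₂ < Hv.lv T v := by
    by_contra hcon
    push Not at hcon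
    have hsub : (univ : Finset W) ⊆ I ∪ I.biUnion
        (fun w => (univ.filter (fun z => T.Adj w z ∧ (T.neighborSet z).ncard = 1))) := by
      intro w _
      rw [mem_union]
      by_cases hwI : w ∈ I
      · exact Or.inl hwI
      · right
        have hw1 : (T.neighborSet w).ncard = 1 := by
          by_contra h
          exact hwI ((hmemI w).2 h)
        obtain ⟨p, hp, hp'⟩ := hleaf w hw1
        rw [mem_biUnion]
        exact ⟨p, hI w p hw1 hp, mem_filter.2 ⟨mem_univ _, hp.symm, hw1⟩⟩
    have h1 : Fintype.card W ≤ k + k * M₂ := by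
      rw [← card_univ]
      refine (card_le_card hsub).trans ((card_union_le _ _).trans ?_)
      refine Nat.add_le_add hIk ?_
      refine card_biUnion_le.trans ?_
      refine (sum_le_card_nsmul _ _ M₂ fun w hw => ?_).trans ?_
      · rw [hlv]
        exact hcon w hw
      · rw [smul_eq_mul]
        exact Nat.mul_le_mul_right _ hIk
    omega
  have hother : ∀ w, w ≠ v → Hv.lv T w ≤ M₂ := by
    intro w hw
    by_contra h
    exact hxy ⟨w, v, hw, by omega, hv.le⟩
  let S : Set W := {w | w ∈ I ∨ ¬ T.Adj w v}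
  have hvS : v ∈ S := Or.inl hvI
  have hout : ∀ w, w ∉ S → T.Adj w v ∧ ∀ x, T.Adj w x → x = v := by
    intro w hw
    have hw1 : (T.neighborSet w).ncard = 1 := by
      by_contra h
      exact hw (Or.inl ((hmemI w).2 h))
    have hwv : T.Adj w v := by
      by_contra h
      exact hw (Or.inr h)
    obtain ⟨p, hp, hp'⟩ := hleaf w hw1
    refine ⟨hwv, fun x hx => ?_⟩
    rw [hp' x hx, hp' v hwv]
  have hScard : S.ncard ≤ k + k * M₂ := by
    have hsub : S ⊆ ↑(I ∪ (I \ {v}).biUnion
        (fun w => (univ.filter (fun z => T.Adj w z ∧ (T.neighborSet z).ncard = 1)))) := by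
      intro w hw
      rw [mem_coe, mem_union]
      by_cases hwI : w ∈ I
      · exact Or.inl hwI
      · right
        have hw1 : (T.neighborSet w).ncard = 1 := by
          by_contra h
          exact hwI ((hmemI w).2 h)
        obtain ⟨p, hp, hp'⟩ := hleaf w hw1
        have hpv : p ≠ v := by
          rintro rfl
          rcases hw with hw | hw
          · exact hwI hw
          · exact hw hp
        rw [mem_biUnion]
        refine ⟨p, mem_sdiff.2 ⟨hI w p hw1 hp, ?_⟩, mem_filter.2 ⟨mem_univ _, hp.symm, hw1⟩⟩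
        rw [mem_singleton]
        exact hpv
    refine (Set.ncard_le_ncard hsub (Set.toFinite _)).trans ?_
    rw [Set.ncard_coe_finset]
    refine (card_union_le _ _).trans ?_
    refine Nat.add_le_add hIk ?_
    refine card_biUnion_le.trans ?_
    refine (sum_le_card_nsmul _ _ M₂ fun w hw => ?_).trans ?_
    · rw [hlv]
      rw [mem_sdiff, mem_singleton] at hw
      exact hother w hw.2
    · rw [smul_eq_mul]
      exact Nat.mul_le_mul_right _ ((card_le_card sdiff_subset).trans hIk)
  have hcompl : S.ncard + Sᶜ.ncard = Fintype.card W := by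
    rw [Set.ncard_add_ncard_compl, Nat.card_eq_fintype_card]
  obtain ⟨G, v', hG, hiso⟩ := hSTR W T hT v S hvS hout
  exact hISO _ _ _ _ hiso (hM₁ _ hScard G hG v' _ (by omega))

end Pool.Agent.Lib.MP_8b7544_co.One
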