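import Pool.Agent.Lib.MP_8b7544_co.One.StmD

set_option autoImplicit false

namespace Pool.Agent.Lib.MP_8b7544_co.One

open Finset

/-- the chain of [N1] -/
private def N1_lam (h : ℕ) (i : ℕ) : ℤ :=
  if i % 2 = 0 then ((i / 2 : ℕ) : ℤ) else (((i + 1) / 2 : ℕ) : ℤ) - h - 1

private theorem N1_one (h : ℕ) : N1_lam h 1 = - h := by
  unfold N1_lam
  rw [if_neg (by omega)]
  norm_num

theorem N1_holds : S_N1 := by
  intro h hh
  refine ⟨N1_lam h, (h : ℤ), ⟨?_, ?_, ?_, ?_⟩, ?_, ?_, ?_⟩
  · simp [N1_lam]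
  · intro i hi j hj hij
    unfold N1_lam at hij
    split_ifs at hij <;> omega
  · refine ⟨2 * h, le_refl _, ?_⟩
    unfold N1_lam
    split_ifs <;> omega
  · intro i hi hne
    have hsum : ∀ j : ℕ, j < 2 * h → N1_lam h j + N1_lam h (j + 1) = (j : ℤ) - h := by
      intro j hj
      unfold N1_lam
      split_ifs <;> omega
    have hr : -(h : ℤ) ≤ N1_lam h i ∧ N1_lam h i < h := by
      have hne' := hne
      unfold N1_lam at hne' ⊢
      split_ifs at hne' ⊢ <;> omega
    have hj : ((N1_lam h i + h).toNat : ℤ) = N1_lam h i + h := Int.toNat_of_nonneg (by omega)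
    refine ⟨(N1_lam h i + h).toNat, by omega, ?_⟩
    rw [hsum _ (by omega), hj]
    ring
  · intro i hi
    unfold N1_lam
    split_ifs <;> omega
  · rw [N1_one]; omega
  · rw [N1_one]
    unfold N1_lam
    rw [if_pos (by omega)]
    omega

end Pool.Agent.Lib.MP_8b7544_co.One
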