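import Pool.Agent.Lib.MP_8b7544_co.One.StmD

set_option autoImplicit false

namespace Pool.Agent.Lib.MP_8b7544_co.One

open Finset

/-- the chain of [N2] for length five -/
private def N2_lam (i : ℕ) : ℤ :=
  if i = 0 then 0 else if i = 1 then -5 else if i = 2 then 2 else if i = 3 then 3
  else if i = 4 then -3 else 5

/-- the step of [N2] -/
private def N2_step (lam : ℕ → ℤ) (m : ℕ) (i : ℕ) : ℤ :=
  if i ≤ m then 2 * lam i else if i = m + 1 then - lam m else if i = m + 2 then lam m
  else 2 * lam (i - 2)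

private theorem N2_step_le (lam : ℕ → ℤ) (m i : ℕ) (h : i ≤ m) :
    N2_step lam m i = 2 * lam i := by
  unfold N2_step
  rw [if_pos h]

private theorem N2_step_one (lam : ℕ → ℤ) (m : ℕ) : N2_step lam m (m + 1) = - lam m := by
  unfold N2_step
  rw [if_neg (by omega), if_pos rfl]

private theorem N2_step_two (lam : ℕ → ℤ) (m : ℕ) : N2_step lam m (m + 2) = lam m := by
  unfold N2_step
  rw [if_neg (by omega), if_neg (by omega), if_pos rfl]

private theorem N2_step_ge (lam : ℕ → ℤ) (m i : ℕ) (h : m + 1 ≤ i) :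
    N2_step lam m (i + 2) = 2 * lam i := by
  unfold N2_step
  rw [if_neg (by omega), if_neg (by omega), if_neg (by omega)]
  rfl

private theorem N2_cases (lam : ℕ → ℤ) (m L i : ℕ) (hi : i ≤ L + 2) :
    (i ≤ m ∧ N2_step lam m i = 2 * lam i) ∨ (i = m + 1 ∧ N2_step lam m i = - lam m) ∨
    (i = m + 2 ∧ N2_step lam m i = lam m) ∨
    (∃ k, m + 1 ≤ k ∧ k ≤ L ∧ i = k + 2 ∧ N2_step lam m i = 2 * lam k) := by
  rcases le_or_gt i m with h | h
  · exact Or.inl ⟨h, N2_step_le lam m i h⟩
  · rcases Nat.lt_or_ge i (m + 3) with h' | h'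
    · rcases Nat.lt_or_ge i (m + 2) with h'' | h''
      · have : i = m + 1 := by omega
        subst this
        exact Or.inr (Or.inl ⟨rfl, N2_step_one lam m⟩)
      · have : i = m + 2 := by omega
        subst this
        exact Or.inr (Or.inr (Or.inl ⟨rfl, N2_step_two lam m⟩))
    · obtain ⟨k, rfl⟩ : ∃ k, i = k + 2 := ⟨i - 2, by omega⟩
      exact Or.inr (Or.inr (Or.inr ⟨k, by omega, by omega, rfl, N2_step_ge lam m k (by omega)⟩))

private theorem N2_strong (t : ℕ) : ∃ (lam : ℕ → ℤ) (e : ℤ) (m : ℕ), Num (5 + 2 * t) lam e ∧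
    lam 1 ≠ 0 ∧ lam (5 + 2 * t) = - lam 1 ∧ 1 ≤ m ∧ m < 5 + 2 * t ∧ Odd (lam m) ∧
    lam (m + 1) = - lam m := by
  induction t with
  | zero =>
    have h0 : N2_lam 0 = 0 := rfl
    have h1 : N2_lam 1 = -5 := rfl
    have h2 : N2_lam 2 = 2 := rfl
    have h3 : N2_lam 3 = 3 := rfl
    have h4 : N2_lam 4 = -3 := rfl
    have h5 : N2_lam 5 = 5 := rfl
    refine ⟨N2_lam, 3, 3, ⟨rfl, ?_, ⟨3, by norm_num, rfl⟩, ?_⟩, ?_, ?_, by norm_num, by norm_num,
      ?_, ?_⟩
    · intro i hi j hj hij
      simp only [Nat.mul_zero, Nat.add_zero] at hi hj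
      interval_cases i <;> interval_cases j <;> simp [h0, h1, h2, h3, h4, h5] at hij ⊢
    · intro i hi hne
      simp only [Nat.mul_zero, Nat.add_zero] at hi
      interval_cases i
      · exact ⟨3, by norm_num, by rw [h3, h4, h0]; norm_num⟩
      · exact ⟨0, by norm_num, by rw [h0, h1]; norm_num⟩
      · exact ⟨4, by norm_num, by rw [h4, h5, h2]; norm_num⟩
      · exact absurd h3 hne
      · exact ⟨1, by norm_num, by rw [h1, h2, h4]; norm_num⟩
      · exact ⟨2, by norm_num, by rw [h2, h3, h5]; norm_num⟩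
    · rw [h1]; norm_num
    · show N2_lam 5 = _
      rw [h1, h5]; norm_num
    · rw [h3]; decide
    · rw [h3, h4]
  | succ t ih =>
    obtain ⟨lam, e, m, hN, hl1, hlL, hm1, hmL, hodd, hopp⟩ := ih
    set L := 5 + 2 * t with hL
    have hL' : 5 + 2 * (t + 1) = L + 2 := by omega
    rw [hL']
    refine ⟨N2_step lam m, 2 * e, m + 1, ⟨?_, ?_, ?_, ?_⟩, ?_, ?_, by omega, by omega, ?_, ?_⟩
    · rw [N2_step_le lam m 0 (Nat.zero_le _), hN.zero]; norm_num
    · intro i hi j hj hij
      obtain ⟨c, hc⟩ := hodd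
      rcases N2_cases lam m L i hi with ⟨h1, e1⟩ | ⟨h1, e1⟩ | ⟨h1, e1⟩ | ⟨k, h1, h1', h1'', e1⟩ <;>
      rcases N2_cases lam m L j hj with ⟨h2, e2⟩ | ⟨h2, e2⟩ | ⟨h2, e2⟩ | ⟨l, h2, h2', h2'', e2⟩ <;>
      rw [e1, e2] at hij
      · exact hN.inj i (by omega) j (by omega) (by omega)
      · omega
      · omega
      · have := hN.inj i (by omega) l (by omega) (by omega)
        omega
      · omega
      · omega
      · omega
      · omega
      · omega
      · omega
      · omega
      · omega
      · have := hN.inj k (by omega) j (by omega) (by omega)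
        omega
      · omega
      · omega
      · have := hN.inj k (by omega) l (by omega) (by omega)
        omega
    · obtain ⟨i, hi, he⟩ := hN.emem
      rcases le_or_gt i m with h | h
      · exact ⟨i, by omega, by rw [N2_step_le lam m i h, he]⟩
      · exact ⟨i + 2, by omega, by rw [N2_step_ge lam m i h, he]⟩
    · -- the sums
      have hold : ∀ i ≤ L, lam i ≠ e → ∃ j < L + 2,
          N2_step lam m j + N2_step lam m (j + 1) = 2 * lam i := by
        intro i hi hne
        obtain ⟨j, hj, hs⟩ := hN.loc i hi hne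
        rcases Nat.lt_trichotomy j m with h | h | h
        · refine ⟨j, by omega, ?_⟩
          rw [N2_step_le lam m j (by omega), N2_step_le lam m (j + 1) (by omega), ← hs]
          ring
        · subst h
          refine ⟨j + 1, by omega, ?_⟩
          rw [N2_step_one, N2_step_two, ← hs, hopp]
          ring
        · refine ⟨j + 2, by omega, ?_⟩
          rw [N2_step_ge lam m j (by omega), show j + 2 + 1 = (j + 1) + 2 by omega,
            N2_step_ge lam m (j + 1) (by omega), ← hs]
          ring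
      intro i hi hne
      rcases N2_cases lam m L i hi with ⟨h1, e1⟩ | ⟨h1, e1⟩ | ⟨h1, e1⟩ | ⟨k, h1, h1', h1'', e1⟩
      · rw [e1] at hne ⊢
        exact hold i (by omega) (fun h => hne (by rw [h]))
      · refine ⟨m + 2, by omega, ?_⟩
        rw [e1, N2_step_two, show m + 2 + 1 = (m + 1) + 2 by omega,
          N2_step_ge lam m (m + 1) (by omega), hopp]
        ring
      · refine ⟨m, by omega, ?_⟩
        rw [e1, N2_step_le lam m m (le_refl _), N2_step_one]
        ring
      · rw [e1] at hne ⊢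
        exact hold k (by omega) (fun h => hne (by rw [h]))
    · rw [N2_step_le lam m 1 hm1]
      intro h
      exact hl1 (by omega)
    · rw [N2_step_le lam m 1 hm1, N2_step_ge lam m L (by omega), hlL]
      ring
    · rw [N2_step_one]
      exact hodd.neg
    · rw [show m + 1 + 1 = m + 2 by omega, N2_step_two, N2_step_one]
      ring

theorem N2_holds : S_N2 := by
  intro L hL hodd
  obtain ⟨c, hc⟩ := hodd
  obtain ⟨lam, e, m, h1, h2, h3, _⟩ := N2_strong (c - 2)
  have : 5 + 2 * (c - 2) = L := by omega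
  rw [this] at h1 h3
  exact ⟨lam, e, h1, h2, h3⟩

end Pool.Agent.Lib.MP_8b7544_co.One
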