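import Pool.Agent.Lib.MP_8b7544_co.One.StmD

set_option autoImplicit false

namespace Pool.Agent.Lib.MP_8b7544_co.One

open Finset

/-- the chain of [N3] -/
private def N3_lam (i : ℕ) : ℤ :=
  if i = 0 then 0 else if i = 1 then -3 else if i = 2 then 2 else if i = 3 then -1 else 1

theorem N3_holds : S_N3 := by
  have h0 : N3_lam 0 = 0 := rfl
  have h1 : N3_lam 1 = -3 := rfl
  have h2 : N3_lam 2 = 2 := rfl
  have h3 : N3_lam 3 = -1 := rfl
  have h4 : N3_lam 4 = 1 := rfl
  refine ⟨N3_lam, 2, ⟨rfl, ?_, ⟨2, by norm_num, rfl⟩, ?_⟩, ?_, ?_, ?_⟩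
  · intro i hi j hj hij
    interval_cases i <;> interval_cases j <;> simp [h0, h1, h2, h3, h4] at hij ⊢
  · intro i hi hne
    interval_cases i
    · exact ⟨3, by norm_num, by rw [h3, h4, h0]; norm_num⟩
    · exact ⟨0, by norm_num, by rw [h0, h1]; norm_num⟩
    · exact absurd h2 hne
    · exact ⟨1, by norm_num, by rw [h1, h2, h3]; norm_num⟩
    · exact ⟨2, by norm_num, by rw [h2, h3, h4]; norm_num⟩
  · intro i hi
    interval_cases i <;> simp [h0, h1, h2, h3, h4]
  · rw [h3]; norm_num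
  · rw [h3, h4]; norm_num

end Pool.Agent.Lib.MP_8b7544_co.One
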