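import Pool.Agent.Lib.MP_8b7544_co.One.StmD

set_option autoImplicit false

namespace Pool.Agent.Lib.MP_8b7544_co.One

open Finset

theorem OC_holds (hN1 : S_N1) (hN2 : S_N2) (hCHN : S_CHN) : S_OC := by
  intro V _ _ v par dep hR u h2 h3
  rcases Nat.even_or_odd (dep u) with ⟨h, hh⟩ | hodd
  · obtain ⟨lam, e, hNum, hle, h1, hlast⟩ := hN1 h (by omega)
    have hd : 2 * h = dep u := by omega
    rw [hd] at hNum hle hlast
    obtain ⟨K, hK, hloc⟩ := hCHN V v par dep hR u lam e hNum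
    refine ⟨K, fun w => lam (dep w), e, hloc, hK, ?_, Or.inl ?_⟩
    · intro p hp _
      refine ⟨?_, ?_⟩
      · show lam (dep p) ≠ 0
        rw [hp]; exact h1
      · show lam (dep u) = - lam (dep p)
        rw [hp]; exact hlast
    · intro x hx
      exact hle _ (hR.anc_dep ((hK x).1 hx)).1
  · obtain ⟨c, hc⟩ := hodd
    obtain ⟨lam, e, hNum, h1, hlast⟩ := hN2 (dep u) (by omega) ⟨c, hc⟩
    obtain ⟨K, hK, hloc⟩ := hCHN V v par dep hR u lam e hNum
    refine ⟨K, fun w => lam (dep w), e, hloc, hK, ?_, Or.inr ⟨c, hc⟩⟩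
    intro p hp _
    refine ⟨?_, ?_⟩
    · show lam (dep p) ≠ 0
      rw [hp]; exact h1
    · show lam (dep u) = - lam (dep p)
      rw [hp]; exact hlast

end Pool.Agent.Lib.MP_8b7544_co.One
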