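import Pool.Agent.Lib.MP_8b7544_co.One.StmD

set_option autoImplicit false

namespace Pool.Agent.Lib.MP_8b7544_co.One

open Finset

theorem ONE_holds (hCAT : S_CAT) (hCD2 : S_CD2) (hCTH : S_CTH) (hCLM : S_CLM) (hCB1 : S_CB1)
    (hCB2 : S_CB2) : S_ONE := by
  classical
  intro V _ _ v par dep hR
  by_contra hW
  have hnv : ∀ x, 1 ≤ dep x → x ≠ v := by
    intro x hx h
    rw [h, hR.dv] at hx
    omega
  have hpi : ∀ x, x ≠ v → ¬ Lf v par (par x) := by
    intro x hx h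
    exact h x hx rfl
  have hcat : ¬ (∀ y z, y ≠ v → z ≠ v → par y = par z → ¬ Lf v par y → ¬ Lf v par z → y = z) :=
    fun h => hW (hCAT V v par dep hR h)
  push Not at hcat
  obtain ⟨y, z, hy, hz, hyz, hyi, hzi, hne⟩ := hcat
  have hbad : ∀ p, dep p = 1 → ¬ Lf v par p → Bad v par p := by
    intro p hp hpi'
    have h1 : ∃ c₁, c₁ ≠ v ∧ par c₁ = p := by
      by_contra h
      push Not at h
      exact hpi' (fun y hy => h y hy)
    obtain ⟨c₁, hc₁, hc₁p⟩ := h1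
    have h2 : ∃ c₂, par c₂ = p ∧ c₂ ≠ c₁ := by
      by_contra h
      push Not at h
      exact hW (hCD2 V v par dep hR p c₁ hp hc₁p h)
    obtain ⟨c₂, hc₂, hc₂n⟩ := h2
    have hnp : ¬ Pen v par p := fun h => hW (hCTH V v par dep hR p hp h)
    have h3 : ∃ q, par q = p ∧ ¬ Lf v par q := by
      by_contra h
      push Not at h
      exact hnp ⟨hpi', fun y _ hyp => h y hyp⟩
    obtain ⟨q, hq, hqi⟩ := h3
    rcases hCLM V v par dep hR ⟨y, z, hne, hy, hz, hyz, hyi, hzi⟩ p c₁ c₂ q hp hc₁p hc₂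
      (Ne.symm hc₂n) hq hqi with h | h
    · exact absurd h hW
    · exact h
  have hdep : ∀ x p, par x = p → p ≠ v → dep x = dep p + 1 ∧ x ≠ v := by
    intro x p hx hp
    have hxv : x ≠ v := by
      rintro rfl
      exact hp (by rw [← hx, hR.pv])
    exact ⟨by rw [hR.ds x hxv, hx], hxv⟩
  have huniq : ∀ p₁ p₂, dep p₁ = 1 → dep p₂ = 1 → ¬ Lf v par p₁ → ¬ Lf v par p₂ → p₁ = p₂ := by
    intro p₁ p₂ h1 h2 i1 i2
    by_contra hp
    obtain ⟨⟨l₁, hl₁, hl₁'⟩, q₁, hq₁, hq₁i, hq₁u, hk₁⟩ := hbad p₁ h1 i1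
    obtain ⟨⟨l₂, hl₂, hl₂'⟩, q₂, hq₂, hq₂i, hq₂u, hk₂⟩ := hbad p₂ h2 i2
    rcases hk₁ with hk₁ | ⟨w₁, r₁, hw₁, hw₁i, hw₁u, hr₁, hr₁P, hr₁u⟩
    · exact hW (hCB1 V v par dep hR p₁ p₂ q₁ l₂ q₂ h1 h2 hp hq₁ hk₁ hl₂ hl₂' hq₂ hq₂i)
    rcases hk₂ with hk₂ | ⟨w₂, r₂, hw₂, hw₂i, hw₂u, hr₂, hr₂P, hr₂u⟩
    · exact hW (hCB1 V v par dep hR p₂ p₁ q₂ l₁ q₁ h2 h1 (Ne.symm hp) hq₂ hk₂ hl₁ hl₁' hq₁ hq₁i)
    have a1 := hdep q₁ p₁ hq₁ (hnv _ (by omega))
    have b1 := hdep w₁ q₁ hw₁ a1.2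
    have c1 := hdep r₁ w₁ hr₁ b1.2
    have a2 := hdep q₂ p₂ hq₂ (hnv _ (by omega))
    have b2 := hdep w₂ q₂ hw₂ a2.2
    have c2 := hdep r₂ w₂ hr₂ b2.2
    refine hW (hCB2 V v par dep hR p₁ p₂ r₁ r₂ h1 h2 hp hr₁P hr₂P ⟨3, ?_⟩ ⟨3, ?_⟩
      (by omega) (by omega))
    · show par (par (par r₁)) = p₁
      rw [hr₁, hw₁, hq₁]
    · show par (par (par r₂)) = p₂
      rw [hr₂, hw₂, hq₂]
  have hex : ∀ n x, dep x = n + 1 → ¬ Lf v par x → ∃ p, dep p = 1 ∧ ¬ Lf v par p := by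
    intro n
    induction n with
    | zero => exact fun x hx hxi => ⟨x, hx, hxi⟩
    | succ n ih =>
      intro x hx hxi
      refine ih (par x) ?_ (hpi x (hnv x (by omega)))
      rw [hR.dep_par, hx]
      omega
  have hdy : dep y = dep y - 1 + 1 := by
    have := hR.ds y hy
    omega
  obtain ⟨p, hp, hpI⟩ := hex _ y hdy hyi
  obtain ⟨-, q, hq, hqi, hqu, hk⟩ := hbad p hp hpI
  have hdeq : dep y = dep z := by
    rw [hR.ds y hy, hR.ds z hz, hyz]
  -- internal vertices of depth 1 and 2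
  have e1 : ∀ x, dep x = 1 → ¬ Lf v par x → x = p := fun x hx hxi => huniq x p hx hp hxi hpI
  have e2 : ∀ x, dep x = 2 → ¬ Lf v par x → x = q := by
    intro x hx hxi
    refine hqu x (e1 _ ?_ (hpi x (hnv x (by omega)))) hxi
    rw [hR.dep_par, hx]
  -- no internal vertices of large depth
  have hno : ∀ m s, 1 ≤ m → (∀ x, dep x = m → ¬ Lf v par x → x = s) → Pen v par s →
      ∀ n x, dep x = m + 1 + n → ¬ Lf v par x → False := by
    intro m s hm hs hsP n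
    induction n with
    | zero =>
      intro x hx hxi
      have hxv : x ≠ v := hnv x (by omega)
      have h1 := hs (par x) (by rw [hR.dep_par, hx]; omega) (hpi x hxv)
      exact hxi (hsP.2 x hxv h1)
    | succ n ih =>
      intro x hx hxi
      have hxv : x ≠ v := hnv x (by omega)
      exact ih (par x) (by rw [hR.dep_par, hx]; omega) (hpi x hxv)
  rcases hk with hk | ⟨w, r, hw, hwi, hwu, hr, hrP, hru⟩
  · rcases Nat.lt_or_ge (dep y) 3 with hd | hd
    · rcases Nat.lt_or_ge (dep y) 2 with hd' | hd'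
      · exact hne ((e1 y (by omega) hyi).trans (e1 z (by omega) hzi).symm)
      · exact hne ((e2 y (by omega) hyi).trans (e2 z (by omega) hzi).symm)
    · exact hno 2 q (by omega) e2 hk (dep y - 3) y (by omega) hyi
  · have e3 : ∀ x, dep x = 3 → ¬ Lf v par x → x = w := by
      intro x hx hxi
      refine hwu x (e2 _ ?_ (hpi x (hnv x (by omega)))) hxi
      rw [hR.dep_par, hx]
    have e4 : ∀ x, dep x = 4 → ¬ Lf v par x → x = r := by
      intro x hx hxi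
      refine hru x (e3 _ ?_ (hpi x (hnv x (by omega)))) hxi
      rw [hR.dep_par, hx]
    rcases Nat.lt_or_ge (dep y) 5 with hd | hd
    · have : dep y = 1 ∨ dep y = 2 ∨ dep y = 3 ∨ dep y = 4 := by omega
      rcases this with h | h | h | h
      · exact hne ((e1 y (by omega) hyi).trans (e1 z (by omega) hzi).symm)
      · exact hne ((e2 y (by omega) hyi).trans (e2 z (by omega) hzi).symm)
      · exact hne ((e3 y (by omega) hyi).trans (e3 z (by omega) hzi).symm)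
      · exact hne ((e4 y (by omega) hyi).trans (e4 z (by omega) hzi).symm)
    · exact hno 4 r (by omega) e4 hrP (dep y - 5) y (by omega) hyi

end Pool.Agent.Lib.MP_8b7544_co.One
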