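import Pool.Agent.Lib.MP_8b7544_co.One.StmD

set_option autoImplicit false

namespace Pool.Agent.Lib.MP_8b7544_co.One

open Finset

theorem ONT_holds (hONE : S_ONE) : S_ONT := by
  classical
  intro V _ G hG v
  obtain ⟨par, d, h1, h2⟩ := exists_par G hG v
  let par' : V → V := fun x => if x = v then v else par x
  have hp : ∀ x, x ≠ v → par' x = par x := fun x hx => if_neg hx
  have hpv : par' v = v := if_pos rfl
  have hex : ∀ n x, d x = n → ∃ j, par'^[j] x = v := by
    intro n
    induction n using Nat.strong_induction_on with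
    | _ n ih =>
      intro x hx
      by_cases hxv : x = v
      · exact ⟨0, hxv⟩
      · obtain ⟨j, hj⟩ := ih (d (par x)) (hx ▸ (h1 x hxv).2) (par x) rfl
        refine ⟨j + 1, ?_⟩
        rw [Function.iterate_succ_apply, hp x hxv, hj]
  have hex' : ∀ x, ∃ j, par'^[j] x = v := fun x => hex _ x rfl
  have hRt : Rt v par' (fun x => Nat.find (hex' x)) := by
    refine ⟨hpv, ?_, ?_⟩
    · exact (Nat.find_eq_zero (hex' v)).2 rfl
    · intro x hx
      apply le_antisymm
      · refine Nat.find_min' (hex' x) ?_
        rw [Function.iterate_succ_apply]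
        exact Nat.find_spec (hex' (par' x))
      · have h0 : Nat.find (hex' x) ≠ 0 := by
          intro h
          exact hx ((Nat.find_eq_zero (hex' x)).1 h)
        obtain ⟨m, hm⟩ := Nat.exists_eq_succ_of_ne_zero h0
        have h3 := Nat.find_spec (hex' x)
        rw [hm, Function.iterate_succ_apply] at h3
        have h4 : Nat.find (hex' (par' x)) ≤ m := Nat.find_min' _ h3
        show Nat.find (hex' (par' x)) + 1 ≤ Nat.find (hex' x)
        omega
  have hTr : Tr G v par' := by
    intro a b
    constructor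
    · intro hab
      rcases h2 a b hab with ⟨ha, h⟩ | ⟨hb, h⟩
      · exact Or.inl ⟨ha, (hp a ha).trans h⟩
      · exact Or.inr ⟨hb, (hp b hb).trans h⟩
    · rintro (⟨ha, h⟩ | ⟨hb, h⟩)
      · rw [hp a ha] at h
        rw [← h]
        exact (h1 a ha).1
      · rw [hp b hb] at h
        rw [← h]
        exact (h1 b hb).1.symm
  obtain ⟨N₀, hN₀⟩ := hONE V v par' _ hRt
  exact ⟨N₀, fun N hN => hN₀ N hN G hTr⟩

end Pool.Agent.Lib.MP_8b7544_co.One
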