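import Pool.Agent.Lib.MP_8b7544_co.One.StmD

set_option autoImplicit false

namespace Pool.Agent.Lib.MP_8b7544_co.One

open Finset

/-- [PACK] Arbitrary families. -/
theorem PACK_holds (hPKF : S_PKF) : S_PACK := by
  intro V _ F ω
  induction F using Finset.strongInduction with
  | H F ih =>
    by_cases hz : ∀ M ⊆ F, M.Nonempty → ∑ x ∈ M, ω x ≠ 0
    · obtain ⟨o, Z, h, -⟩ := hPKF V F ω hz
      exact ⟨o, Z, _, h⟩
    · -- a zero-sum subset of least cardinality
      obtain ⟨M, hM, hmin⟩ := Finset.exists_min_image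
        (F.powerset.filter (fun M => M.Nonempty ∧ ∑ x ∈ M, ω x = 0)) (fun M => M.card) (by
          push Not at hz
          obtain ⟨M, hM, hne, h0⟩ := hz
          exact ⟨M, mem_filter.2 ⟨mem_powerset.2 hM, hne, h0⟩⟩)
      rw [mem_filter, mem_powerset] at hM
      obtain ⟨hMF, hne, h0⟩ := hM
      obtain ⟨x₀, hx₀⟩ := hne
      have hM' : ∀ N ⊆ M.erase x₀, N.Nonempty → ∑ x ∈ N, ω x ≠ 0 := by
        intro N hN hNne hN0
        have h1 := hmin N (mem_filter.2 ⟨mem_powerset.2
          ((hN.trans (erase_subset _ _)).trans hMF), hNne, hN0⟩)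
        have h2 := Finset.card_le_card hN
        have h3 := Finset.card_erase_lt_of_mem hx₀
        have h4 : M.card ≤ N.card := h1
        omega
      obtain ⟨o₂, Y, hY, -⟩ := hPKF V (M.erase x₀) ω hM'
      obtain ⟨o₁, Z, E, hZ⟩ := ih (F \ M) (by
        refine Finset.sdiff_ssubset hMF ⟨x₀, hx₀⟩)
      obtain ⟨c, hc⟩ := Infinite.exists_notMem_finset ((Z ×ˢ Y).image (fun p => p.1 - p.2))
      have hsum : ∑ x ∈ M.erase x₀, ω x + ω x₀ = 0 := by
        rw [Finset.sum_erase_add M ω hx₀, h0]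
      refine ⟨fun x => if x ∈ M then c + (if x = x₀ then ∑ y ∈ M.erase x₀, ω y else o₂ x)
        else o₁ x, Z ∪ Y.image (fun z => c + z), E, ?_⟩
      have hU : F \ M ∪ M = F := Finset.sdiff_union_of_subset hMF
      have hcongr : AC (F \ M) (fun x => if x ∈ M then
          c + (if x = x₀ then ∑ y ∈ M.erase x₀, ω y else o₂ x) else o₁ x) ω Z 0 E := by
        refine hZ.congr (fun x hx => ?_) (fun x _ => rfl)
        rw [if_neg (mem_sdiff.1 hx).2]
      have key := hcongr.cycle (M := M) (Y := Y.image (fun z => c + z)) sdiff_disjoint ?_ ?_ ?_ ?_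
      · rwa [hU] at key
      · intro z hz hzY
        obtain ⟨y, hy, rfl⟩ := mem_image.1 hzY
        exact hc (mem_image.2 ⟨(c + y, y), mem_product.2 ⟨hz, hy⟩, by simp⟩)
      · rw [card_image_of_injective _ (add_right_injective c), hY.card,
          Finset.card_erase_add_one hx₀]
      · intro z hz
        obtain ⟨y, hy, rfl⟩ := mem_image.1 hz
        rcases hY.frm y hy with h | ⟨x, hx, h⟩
        · refine ⟨x₀, hx₀, ?_⟩
          rw [if_pos hx₀, if_pos rfl, h]
        · refine ⟨x, mem_of_mem_erase hx, ?_⟩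
          rw [if_pos (mem_of_mem_erase hx), if_neg (ne_of_mem_erase hx), h]
      · intro z hz
        obtain ⟨y, hy, rfl⟩ := mem_image.1 hz
        rcases hY.arr y hy with h | ⟨x, hx, h⟩
        · refine ⟨x₀, hx₀, ?_⟩
          rw [if_pos hx₀, if_pos rfl, h]
          linarith
        · refine ⟨x, mem_of_mem_erase hx, ?_⟩
          rw [if_pos (mem_of_mem_erase hx), if_neg (ne_of_mem_erase hx), ← h]
          ring

end Pool.Agent.Lib.MP_8b7544_co.One
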