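import Pool.Agent.Lib.MP_8b7544_co.One.StmD

set_option autoImplicit false

namespace Pool.Agent.Lib.MP_8b7544_co.One

open Finset

theorem PATH_holds (hINC : S_INC) (hPACK : S_PACK) (hGROW : S_GROW) : S_PATH := by
  intro V _ _ v par dep hrt K δ e a b hG L₁ L₂ R hL12 hL1ne hL hR hRL
  obtain ⟨hloc, hab, haK, hbK, hpa, hpb, hnz, hopp, hta, htb⟩ := hG
  obtain ⟨D, hD⟩ : ∃ D : ℤ, δ (par a) = D := ⟨_, rfl⟩
  rw [hD] at hnz hopp
  -- the vertices with parent in `K`
  obtain ⟨F, hFm⟩ : ∃ F : Finset V, ∀ x, x ∈ F ↔ x ∉ K ∧ x ≠ a ∧ x ≠ b ∧ par x ∈ K :=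
    ⟨univ.filter (fun x => x ∉ K ∧ x ≠ a ∧ x ≠ b ∧ par x ∈ K), fun x => by simp⟩
  obtain ⟨oF, ZF, E, hF⟩ := hPACK V F (fun x => δ (par x))
  obtain ⟨s1, hs1⟩ : ∃ s : ℤ, ∑ x ∈ L₁, (if par x = a then 0 else D) = s := ⟨_, rfl⟩
  obtain ⟨s2, hs2⟩ : ∃ s : ℤ, ∑ x ∈ L₂, (if par x = a then 0 else D) = s := ⟨_, rfl⟩
  obtain ⟨c₁, hc₁⟩ : ∃ c : ℤ, 1 - e + s1 = c := ⟨_, rfl⟩
  obtain ⟨β, hβ⟩ : ∃ s : ℤ, ∑ z ∈ ZF, |z| = s := ⟨_, rfl⟩
  have hβ0 : 0 ≤ β := by rw [← hβ]; exact sum_nonneg fun z _ => abs_nonneg z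
  have hβz : ∀ z ∈ ZF, |z| ≤ β := by
    intro z hz
    rw [← hβ]
    exact single_le_sum (f := fun z : ℤ => |z|) (fun z _ => abs_nonneg z) hz
  have hdep : ∀ x ∈ R, dep (par x) < dep x := by
    intro x hx
    have hxv : x ≠ v := by
      rintro rfl
      exact ((hR _).1 hx).1 hloc.root
    have := hrt.ds x hxv
    omega
  obtain ⟨A, c', W₀, α, γ, hA1, hRe, hnR, hα, hgrow⟩ :=
    hGROW V par dep R hdep (fun x => c₁ + oF x) (c₁ + E) (c₁ + β)
  obtain ⟨dK, hdK⟩ : ∃ s : ℤ, ∑ x ∈ K, |δ x| = s := ⟨_, rfl⟩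
  have hdK0 : 0 ≤ dK := by rw [← hdK]; exact sum_nonneg fun z _ => abs_nonneg _
  have hdKx : ∀ x ∈ K, |δ x| ≤ dK := by
    intro x hx
    rw [← hdK]
    exact single_le_sum (f := fun x : V => |δ x|) (fun z _ => abs_nonneg _) hx
  obtain ⟨T, hT⟩ : ∃ T : ℤ, |D| + |e| + |c₁| + |E| + |c'| + |W₀| + β + dK = T := ⟨_, rfl⟩
  have a1 := abs_nonneg D
  have a2 := abs_nonneg e
  have a3 := abs_nonneg c₁
  have a4 := abs_nonneg E
  have a5 := abs_nonneg c'
  have a6 := abs_nonneg W₀
  have hT0 : 0 ≤ T := by linarith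
  have bD := abs_le.1 (show |D| ≤ T by linarith)
  have be := abs_le.1 (show |e| ≤ T by linarith)
  have bc := abs_le.1 (show |c₁| ≤ T by linarith)
  have bE := abs_le.1 (show |E| ≤ T by linarith)
  have bc' := abs_le.1 (show |c'| ≤ T by linarith)
  have bW := abs_le.1 (show |W₀| ≤ T by linarith)
  have bβ : β ≤ T := by linarith
  have bK : ∀ x ∈ K, -T ≤ δ x ∧ δ x ≤ T := fun x hx =>
    abs_le.1 ((hdKx x hx).trans (by linarith))
  -- disjointness and covering facts
  have hLK : ∀ x, x ∈ L₁ ∪ L₂ → x ∉ K := by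
    intro x hx hxK
    have h1 := hloc.closed x hxK
    rcases ((hL x).1 hx).2 with h | h
    · rw [h] at h1; exact haK h1
    · rw [h] at h1; exact hbK h1
  have hLa : ∀ x, x ∈ L₁ ∪ L₂ → x ≠ a ∧ x ≠ b := by
    intro x hx
    constructor
    · rintro rfl
      rcases ((hL x).1 hx).2 with h | h
      · rw [h] at hpa; exact haK hpa
      · rw [h] at hpa; exact hbK hpa
    · rintro rfl
      rcases ((hL x).1 hx).2 with h | h
      · rw [h] at hpb; exact haK hpb
      · rw [h] at hpb; exact hbK hpb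
  have hLpar : ∀ x, x ∈ L₁ ∪ L₂ → par x ∉ K := by
    intro x hx
    rcases ((hL x).1 hx).2 with h | h
    · rw [h]; exact haK
    · rw [h]; exact hbK
  have hFL : ∀ x ∈ F, x ∉ L₁ ∧ x ∉ L₂ := by
    intro x hx
    have hp := ((hFm x).1 hx).2.2.2
    exact ⟨fun h => hLpar x (mem_union_left _ h) hp, fun h => hLpar x (mem_union_right _ h) hp⟩
  have hFR : ∀ x ∈ F, x ∉ R := fun x hx h => ((hR x).1 h).2.1 ((hFm x).1 hx).2.2.2
  have hRL' : ∀ x ∈ R, x ∉ L₁ ∧ x ∉ L₂ := by
    intro x hx
    obtain ⟨-, -, h3, h4⟩ := (hR x).1 hx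
    constructor
    · intro h
      rcases ((hL x).1 (mem_union_left _ h)).2 with h | h
      · exact h3 h
      · exact h4 h
    · intro h
      rcases ((hL x).1 (mem_union_right _ h)).2 with h | h
      · exact h3 h
      · exact h4 h
  have hRa : ∀ x ∈ R, x ≠ a ∧ x ≠ b := by
    intro x hx
    obtain ⟨-, h2, -, -⟩ := (hR x).1 hx
    exact ⟨fun h => h2 (h ▸ hpa), fun h => h2 (h ▸ hpb)⟩
  -- parents of the elements of `R`
  have hRpar : ∀ x ∈ R, par x ∈ F ∨ par x ∈ R := by
    intro x hx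
    obtain ⟨h1, h2, h3, h4⟩ := (hR x).1 hx
    have hxv : x ≠ v := by rintro rfl; exact h1 hloc.root
    have hpv : par x ≠ v := by intro h; exact h2 (h ▸ hloc.root)
    by_cases hp : par (par x) ∈ K
    · left
      exact (hFm _).2 ⟨h2, h3, h4, hp⟩
    · right
      refine (hR _).2 ⟨h2, hp, ?_, ?_⟩
      · intro h
        exact hta (par x) hpv h x hxv rfl
      · intro h
        exact htb (par x) hpv h x hxv rfl
  refine ⟨A, c' + s2 - 1, 10 * T + 10, hA1, fun h => (hRe h).1, ?_⟩
  intro C X hC hCX hXC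
  obtain ⟨n1, hn1⟩ : ∃ n : ℤ, (L₁.card : ℤ) = n := ⟨_, rfl⟩
  obtain ⟨n2, hn2⟩ : ∃ n : ℤ, (L₂.card : ℤ) = n := ⟨_, rfl⟩
  have hn1' : 1 ≤ n1 := by
    rw [← hn1]
    have := hL1ne.card_pos
    omega
  have hn2' : 0 ≤ n2 := by rw [← hn2]; positivity
  obtain ⟨W, hW⟩ : ∃ W : ℤ, 2 * C + n1 * X = W := ⟨_, rfl⟩
  have hX0 : 0 ≤ X := by linarith
  have hWX : 2 * C + X ≤ W := by
    rw [← hW]
    nlinarith
  have hW0 : W₀ ≤ W := by linarith
  have hAW : W ≤ A * W := by nlinarith
  obtain ⟨m, hm⟩ : ∃ m : ℤ, X - T = m := ⟨_, rfl⟩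
  have hm0 : 0 < m := by linarith
  have hωm : ∀ x : V, m ≤ (if par x = a then X else X + D) := by
    intro x
    split_ifs <;> linarith [bD.1]
  have hsum : ∀ (S : Finset V), ∑ x ∈ S, (if par x = a then X else X + D)
      = (S.card : ℤ) * X + ∑ x ∈ S, (if par x = a then 0 else D) := by
    intro S
    rw [show (S.card : ℤ) * X = ∑ x ∈ S, X by simp, ← sum_add_distrib]
    refine sum_congr rfl fun x _ => ?_
    split_ifs <;> ring
  obtain ⟨o₁, Z₁, hc1, p1, p1'⟩ := hINC V L₁ (fun x => if par x = a then X else X + D)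
    (2 * C + 1 - e) m hm0 (fun x _ => hωm x)
  obtain ⟨Z₃, hc3, p3, p3'⟩ := hgrow W hW0
  obtain ⟨o₂, Z₄, hc4, p4, p4'⟩ := hINC V L₂ (fun x => if par x = a then X else X + D)
    (A * W + c') m hm0 (fun x _ => hωm x)
  have e1 : 2 * C + 1 - e + ∑ x ∈ L₁, (if par x = a then X else X + D) = W + c₁ := by
    rw [hsum, hs1, hn1, ← hW, ← hc₁]; ring
  have e4 : A * W + c' + ∑ x ∈ L₂, (if par x = a then X else X + D) = A * W + c' + (n2 * X + s2) := by
    rw [hsum, hs2, hn2]
  rw [e1] at hc1 p1'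
  rw [e4] at hc4 p4'
  obtain ⟨hi, hhi⟩ : ∃ h : ℤ, A * W + c' + (n2 * X + s2) = h := ⟨_, rfl⟩
  rw [hhi] at hc4 p4'
  have hhi' : C + 1 + ((2 * A - 1) * C + (n1 * A + n2) * X + (c' + s2 - 1)) = hi := by
    rw [← hhi, ← hW]; ring
  -- the labels
  obtain ⟨τ, hτ⟩ : ∃ τ : V → ℤ, ∀ x, τ x = if x ∈ K then δ x else if x = a then X else
      if x = b then X + D else if x ∈ L₁ then o₁ x else if x ∈ L₂ then o₂ x else
      α x * W + γ x := ⟨_, fun x => rfl⟩
  have tK : ∀ x ∈ K, τ x = δ x := fun x hx => by rw [hτ, if_pos hx]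
  have ta : τ a = X := by rw [hτ, if_neg haK, if_pos rfl]
  have tb : τ b = X + D := by rw [hτ, if_neg hbK, if_neg hab.symm, if_pos rfl]
  have t1 : ∀ x ∈ L₁, τ x = o₁ x := by
    intro x hx
    have h1 := hLK x (mem_union_left _ hx)
    have h2 := hLa x (mem_union_left _ hx)
    rw [hτ, if_neg h1, if_neg h2.1, if_neg h2.2, if_pos hx]
  have t2 : ∀ x ∈ L₂, τ x = o₂ x := by
    intro x hx
    have h1 := hLK x (mem_union_right _ hx)
    have h2 := hLa x (mem_union_right _ hx)
    have h3 : x ∉ L₁ := fun h => (Finset.disjoint_left.1 hL12) h hx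
    rw [hτ, if_neg h1, if_neg h2.1, if_neg h2.2, if_neg h3, if_pos hx]
  have tF : ∀ x ∈ F, τ x = α x * W + γ x := by
    intro x hx
    obtain ⟨h1, h2, h3, h4⟩ := (hFm x).1 hx
    rw [hτ, if_neg h1, if_neg h2, if_neg h3, if_neg (hFL x hx).1, if_neg (hFL x hx).2]
  have tF' : ∀ x ∈ F, τ x = W + c₁ + oF x := by
    intro x hx
    rw [tF x hx, (hnR x (hFR x hx)).1, (hnR x (hFR x hx)).2]
    ring
  have tR : ∀ x ∈ R, τ x = α x * W + γ x := by
    intro x hx
    rw [hτ, if_neg ((hR x).1 hx).1, if_neg (hRa x hx).1, if_neg (hRa x hx).2,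
      if_neg (hRL' x hx).1, if_neg (hRL' x hx).2]
  have tRp : ∀ x ∈ R, τ (par x) = α (par x) * W + γ (par x) := by
    intro x hx
    rcases hRpar x hx with h | h
    · exact tF _ h
    · exact tR _ h
  have tLp : ∀ x ∈ L₁ ∪ L₂, τ (par x) = if par x = a then X else X + D := by
    intro x hx
    rcases ((hL x).1 hx).2 with h | h
    · rw [h, ta, if_pos rfl]
    · rw [h, tb, if_neg hab.symm]
  -- the chains
  have k1 : AC L₁ τ (fun x => τ (par x)) Z₁ (2 * C + 1 - e) (W + c₁) :=
    hc1.congr t1 (fun x hx => tLp x (mem_union_left _ hx))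
  have k4 : AC L₂ τ (fun x => τ (par x)) Z₄ (A * W + c') hi :=
    hc4.congr t2 (fun x hx => tLp x (mem_union_right _ hx))
  have k3 : AC R τ (fun x => τ (par x)) Z₃ (W + (c₁ + E)) (A * W + c') :=
    hc3.congr tR tRp
  obtain ⟨Z₂, hZ₂⟩ : ∃ Z : Finset ℤ, ZF.image (fun z => (W + c₁) + z) = Z := ⟨_, rfl⟩
  have k2 : AC F τ (fun x => τ (par x)) Z₂ (W + c₁) (W + (c₁ + E)) := by
    have h := (hF.shift (W + c₁)).congr (o' := τ) (ω' := fun x => τ (par x)) tF'
      (fun x hx => tK _ ((hFm x).1 hx).2.2.2)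
    rw [hZ₂, add_zero, add_assoc W c₁ E] at h
    exact h
  -- bounds
  have q1 : ∀ t ∈ Z₁, (t = 2 * C + 1 - e ∨ 2 * C + 1 - e + m ≤ t) ∧ (t = W + c₁ ∨ t + m ≤ W + c₁) :=
    fun t ht => ⟨p1 t ht, p1' t ht⟩
  have q2 : ∀ t ∈ Z₂, W + c₁ - β ≤ t ∧ t ≤ W + c₁ + β := by
    intro t ht
    rw [← hZ₂] at ht
    obtain ⟨z, hz, rfl⟩ := mem_image.1 ht
    have := abs_le.1 (hβz z hz)
    constructor <;> linarith [this.1, this.2]
  have q3 : ∀ t ∈ Z₃, (t = W + (c₁ + E) ∨ W + (c₁ + β) < t) ∧ t ≤ A * W + c' :=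
    fun t ht => ⟨p3 t ht, p3' t ht⟩
  have q4 : ∀ t ∈ Z₄, (t = A * W + c' ∨ A * W + c' + m ≤ t) ∧ (t = hi ∨ t + m ≤ hi) :=
    fun t ht => ⟨p4 t ht, p4' t ht⟩
  have hAle : A * W + c' ≤ hi := by
    rcases (q4 _ k4.mlo).2 with h | h <;> linarith
  -- the last state is the largest one
  have htop : W + c₁ + β ≤ hi := by
    rcases hRL with h | h
    · have hcard : 1 < Z₃.card := by
        rw [k3.card]
        have := h.card_pos
        omega
      obtain ⟨t, ht, hne⟩ := Finset.exists_mem_ne hcard (W + (c₁ + E))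
      rcases (q3 t ht).1 with h' | h'
      · exact absurd h' hne
      · linarith [(q3 t ht).2]
    · have h5 : 1 ≤ n2 := by
        rw [← hn2]
        have := h.card_pos
        omega
      have h6 : hi ≠ A * W + c' := by
        intro h7
        have hcard : 1 < Z₄.card := by
          rw [k4.card]
          have := h.card_pos
          omega
        obtain ⟨t, ht, hne⟩ := Finset.exists_mem_ne hcard hi
        rcases (q4 t ht).2 with h' | h'
        · exact hne h'
        · rcases (q4 t ht).1 with h'' | h'' <;> linarith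
      rcases (q4 _ k4.mhi).1 with h' | h'
      · exact absurd h' h6
      · linarith [bc'.1, bc.2]
  -- assemble
  have d1 : Disjoint L₁ F := Finset.disjoint_left.2 fun x h1 h2 => (hFL x h2).1 h1
  have j1 := AC.append k1 k2 d1 (fun z h1 h2 => by
    rcases (q1 z h1).2 with h | h
    · exact h
    · linarith [(q2 z h2).1])
  have d2 : Disjoint (L₁ ∪ F) R := Finset.disjoint_left.2 fun x h1 h2 => by
    rcases mem_union.1 h1 with h | h
    · exact (hRL' x h2).1 h
    · exact hFR x h h2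
  have u12 : ∀ z ∈ Z₁ ∪ Z₂, z ≤ W + c₁ + β := by
    intro z hz
    rcases mem_union.1 hz with h | h
    · rcases (q1 z h).2 with h' | h' <;> linarith
    · exact (q2 z h).2
  have j2 := AC.append j1 k3 d2 (fun z h1 h2 => by
    rcases (q3 z h2).1 with h | h
    · exact h
    · linarith [u12 z h1])
  have d3 : Disjoint (L₁ ∪ F ∪ R) L₂ := Finset.disjoint_left.2 fun x h1 h2 => by
    rcases mem_union.1 h1 with h | h
    · rcases mem_union.1 h with h | h
      · exact (Finset.disjoint_left.1 hL12) h h2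
      · exact (hFL x h).2 h2
    · exact (hRL' x h).2 h2
  have j3 := AC.append j2 k4 d3 (fun z h1 h2 => by
    rcases (q4 z h2).1 with h | h
    · exact h
    · rcases mem_union.1 h1 with h' | h'
      · linarith [u12 z h', bc.2, bc'.1]
      · linarith [(q3 z h').2])
  -- lower bound for all states of the chain
  have low : ∀ z ∈ Z₁ ∪ Z₂ ∪ Z₃ ∪ Z₄, z = 2 * C + 1 - e ∨ 2 * C + X - 3 * T ≤ z := by
    intro z hz
    rcases mem_union.1 hz with hz | hz
    · rcases mem_union.1 hz with hz | hz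
      · rcases mem_union.1 hz with hz | hz
        · rcases (q1 z hz).1 with h | h
          · exact Or.inl h
          · right; linarith [be.2]
        · right; linarith [(q2 z hz).1, bc.1]
      · right
        rcases (q3 z hz).1 with h | h
        · linarith [bc.1, bE.1]
        · linarith [bc.1]
    · right
      rcases (q4 z hz).1 with h | h <;> linarith [bc'.1]
  have hYlt : ∀ z ∈ ({X, X + D} : Finset ℤ), C + 1 ≤ z ∧ z + T + 1 < 2 * C := by
    intro z hz
    rw [mem_insert, mem_singleton] at hz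
    rcases hz with rfl | rfl <;> constructor <;> linarith [bD.1, bD.2]
  have hS : Disjoint (L₁ ∪ F ∪ R ∪ L₂) ({a, b} : Finset V) := Finset.disjoint_left.2 fun x h1 h2 => by
    rw [mem_insert, mem_singleton] at h2
    rcases mem_union.1 h1 with h | h
    · rcases mem_union.1 h with h | h
      · rcases mem_union.1 h with h | h
        · have := hLa x (mem_union_left _ h)
          rcases h2 with h2 | h2
          · exact this.1 h2
          · exact this.2 h2
        · obtain ⟨-, g1, g2, -⟩ := (hFm x).1 h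
          rcases h2 with h2 | h2
          · exact g1 h2
          · exact g2 h2
      · rcases h2 with h2 | h2
        · exact (hRa x h).1 h2
        · exact (hRa x h).2 h2
    · have := hLa x (mem_union_right _ h)
      rcases h2 with h2 | h2
      · exact this.1 h2
      · exact this.2 h2
  have j4 := AC.cycle (Y := ({X, X + D} : Finset ℤ)) j3 hS (fun z hz hY => by
      have h1 := hYlt z hY
      rcases low z hz with h | h <;> linarith [be.2, h1.2])
    (by
      rw [card_pair (by intro h; exact hnz (by linarith)), card_pair hab])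
    (by
      intro z hz
      rw [mem_insert, mem_singleton] at hz
      rcases hz with rfl | rfl
      · exact ⟨a, by simp, ta⟩
      · exact ⟨b, by simp, tb⟩)
    (by
      intro z hz
      rw [mem_insert, mem_singleton] at hz
      rcases hz with rfl | rfl
      · refine ⟨b, by simp, ?_⟩
        rw [tb, tK _ hpb, hopp]; ring
      · refine ⟨a, by simp, ?_⟩
        rw [ta, tK _ hpa, hD])
  have hcov : L₁ ∪ F ∪ R ∪ L₂ ∪ {a, b} = Kᶜ := by
    ext x
    rw [mem_compl]
    constructor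
    · intro h
      rcases mem_union.1 h with h | h
      · rcases mem_union.1 h with h | h
        · rcases mem_union.1 h with h | h
          · rcases mem_union.1 h with h | h
            · exact hLK x (mem_union_left _ h)
            · exact ((hFm x).1 h).1
          · exact ((hR x).1 h).1
        · exact hLK x (mem_union_right _ h)
      · rw [mem_insert, mem_singleton] at h
        rcases h with rfl | rfl
        · exact haK
        · exact hbK
    · intro hx
      by_cases h1 : x = a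
      · exact mem_union_right _ (by simp [h1])
      by_cases h2 : x = b
      · exact mem_union_right _ (by simp [h2])
      refine mem_union_left _ ?_
      have hxv : x ≠ v := by rintro rfl; exact hx hloc.root
      by_cases h3 : par x ∈ K
      · exact mem_union_left _ (mem_union_left _ (mem_union_right _ ((hFm x).2 ⟨hx, h1, h2, h3⟩)))
      by_cases h4 : par x = a ∨ par x = b
      · rcases mem_union.1 ((hL x).2 ⟨hxv, h4⟩) with h | h
        · exact mem_union_left _ (mem_union_left _ (mem_union_left _ h))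
        · exact mem_union_right _ h
      · rw [not_or] at h4
        exact mem_union_left _ (mem_union_right _ ((hR x).2 ⟨hx, h3, h4.1, h4.2⟩))
  rw [hcov] at j4
  refine ⟨τ, Z₁ ∪ Z₂ ∪ Z₃ ∪ Z₄ ∪ {X, X + D}, tK, ?_, ?_, ?_⟩
  · rw [hn1, hn2, hhi']
    exact j4
  · rw [hn1, hn2, hhi']
    intro z hz
    rcases mem_union.1 hz with h | h
    · constructor
      · rcases low z h with h' | h' <;> linarith [be.2]
      · rcases mem_union.1 h with h' | h'
        · rcases mem_union.1 h' with h'' | h''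
          · exact (u12 z h'').trans htop
          · linarith [(q3 z h'').2]
        · rcases (q4 z h').2 with h'' | h'' <;> linarith
    · have h1 := hYlt z h
      exact ⟨h1.1, by linarith [h1.2, bc.1]⟩
  · rw [hn1, hn2, hhi']
    intro x hx hxe
    have hb := bK x hx
    refine ⟨by linarith [hb.2], by linarith [hb.1, bc.1], ?_⟩
    intro hz
    rcases mem_union.1 hz with h | h
    · rcases low _ h with h' | h'
      · exact hxe (by linarith)
      · linarith [hb.1]
    · have h1 := hYlt _ h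
      linarith [h1.2, hb.2]

end Pool.Agent.Lib.MP_8b7544_co.One
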