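import Pool.Agent.Lib.MP_8b7544_co.One.StmD

set_option autoImplicit false

namespace Pool.Agent.Lib.MP_8b7544_co.One

open Finset

theorem PEN_holds : S_PEN := by
  classical
  intro V _ v par dep hR x hx
  obtain ⟨r, hr, hmax⟩ := exists_max_image (univ.filter (fun y => ¬ Lf v par y ∧ Anc par y x)) dep
    ⟨x, mem_filter.2 ⟨mem_univ _, hx, Anc.refl x⟩⟩
  rw [mem_filter] at hr
  refine ⟨r, ⟨hr.2.1, ?_⟩, hr.2.2⟩
  intro y hyv hyr
  by_contra hy
  have h1 : Anc par y r := by
    have := (Anc.refl (par := par) y).par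
    rw [hyr] at this
    exact this
  have h2 := hmax y (mem_filter.2 ⟨mem_univ _, hy, h1.trans hr.2.2⟩)
  have h3 := hR.ds y hyv
  rw [hyr] at h3
  omega

end Pool.Agent.Lib.MP_8b7544_co.One
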