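import Pool.Agent.Lib.MP_8b7544_co.One.StmD

set_option autoImplicit false

namespace Pool.Agent.Lib.MP_8b7544_co.One

open Finset

theorem PKF_holds : S_PKF := by
  intro V _ F ω
  induction F using Finset.induction_on with
  | empty =>
    intro _
    refine ⟨fun _ => 0, {0}, ?_, ?_⟩
    · rw [Finset.sum_empty]
      exact AC.nil _ _ _
    · intro z hz
      rw [mem_singleton] at hz
      exact ⟨∅, Finset.Subset.refl _, by rw [hz, Finset.sum_empty]⟩
  | insert x₀ F hx ih =>
    intro h
    obtain ⟨o, Z, hAC, hZ⟩ := ih (fun M hM hne => h M (hM.trans (Finset.subset_insert _ _)) hne)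
    set s : ℤ := ∑ x ∈ F, ω x with hs
    have hsum : ∑ x ∈ insert x₀ F, ω x = s + ω x₀ := by
      rw [Finset.sum_insert hx]; ring
    have h0 : ω x₀ ≠ 0 := by
      have := h {x₀} (by simp) (by simp)
      simpa using this
    set o' : V → ℤ := Function.update o x₀ s with ho'
    have ho0 : o' x₀ = s := by simp [ho']
    have hA1 : AC F o' ω Z 0 s := by
      refine hAC.congr (fun x hxF => ?_) (fun _ _ => rfl)
      have : x ≠ x₀ := fun e => hx (e ▸ hxF)
      simp [ho', this]
    have hA2 : AC ({x₀} : Finset V) o' ω {o' x₀, o' x₀ + ω x₀} (o' x₀) (o' x₀ + ω x₀) :=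
      AC.single _ _ _ h0
    rw [ho0] at hA2
    have hA := hA1.append hA2 (by simpa using hx) (by
      intro z hz hz2
      rw [mem_insert, mem_singleton] at hz2
      rcases hz2 with h2 | h2
      · exact h2
      · exfalso
        obtain ⟨M, hM, hMz⟩ := hZ z hz
        have hM' : M ⊆ insert x₀ F := hM.trans (Finset.subset_insert _ _)
        have h3 := Finset.sum_sdiff (f := ω) hM'
        have h4 : ∑ x ∈ insert x₀ F \ M, ω x = 0 := by
          rw [hsum, ← h2, hMz] at h3
          linarith
        exact h _ Finset.sdiff_subset ⟨x₀, by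
          rw [Finset.mem_sdiff]
          exact ⟨Finset.mem_insert_self _ _, fun hc => hx (hM hc)⟩⟩ h4)
    refine ⟨o', Z ∪ {s, s + ω x₀}, ?_, ?_⟩
    · rw [hsum]
      rw [Finset.insert_eq, Finset.union_comm]
      exact hA
    · intro z hz
      rcases mem_union.1 hz with hz | hz
      · obtain ⟨M, hM, hMz⟩ := hZ z hz
        exact ⟨M, hM.trans (Finset.subset_insert _ _), hMz⟩
      · rw [mem_insert, mem_singleton] at hz
        rcases hz with hz | hz
        · exact ⟨F, Finset.subset_insert _ _, hz⟩
        · exact ⟨insert x₀ F, Finset.Subset.refl _, by rw [hz, hsum]⟩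

end Pool.Agent.Lib.MP_8b7544_co.One
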