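import Pool.Agent.Lib.MP_8b7544_co.One.StmD

set_option autoImplicit false

namespace Pool.Agent.Lib.MP_8b7544_co.One

theorem PW_holds (hSOLVE : S_SOLVE) (hASM : S_ASM) : S_PW := by
  intro V _ _ v par K δ e p q κ B hLoc hp hq hpq hPth
  obtain ⟨M₀, hM₀⟩ := hSOLVE p q B hp hq hpq
  refine ⟨(M₀ + κ + 1).toNat, ?_⟩
  intro N hN G hG
  have hN' : M₀ + κ + 1 ≤ (N : ℤ) := by
    have := Int.self_le_toNat (M₀ + κ + 1)
    have h2 : (((M₀ + κ + 1).toNat : ℕ) : ℤ) ≤ (N : ℤ) := by exact_mod_cast hN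
    linarith
  have hM : M₀ ≤ (Fintype.card V : ℤ) - 1 + N - κ := by
    have : (0 : ℤ) ≤ (Fintype.card V : ℤ) := by positivity
    linarith
  obtain ⟨C, X, hCX, h1, h2, h3⟩ := hM₀ _ hM
  obtain ⟨τ, Z, hτ, hAC, hZ, hK⟩ := hPth C X h1 h2 h3
  have hLoc' : Loc v par K τ e := by
    refine ⟨hLoc.root, hLoc.closed, ?_, ?_, ?_, ?_⟩
    · rw [hτ v hLoc.root]; exact hLoc.zero
    · intro x hx y hy hxy
      rw [hτ x hx, hτ y hy] at hxy
      exact hLoc.inj x hx y hy hxy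
    · obtain ⟨x, hx, hxe⟩ := hLoc.emem
      exact ⟨x, hx, by rw [hτ x hx, hxe]⟩
    · intro x hx hxe
      rw [hτ x hx] at hxe
      obtain ⟨w, hw, hwv, hwe⟩ := hLoc.loc x hx hxe
      exact ⟨w, hw, hwv, by rw [hτ w hw, hτ _ (hLoc.closed w hw), hτ x hx, hwe]⟩
  refine hASM V G v par hG K τ e C _ Z N hLoc' hAC hZ ?_ ?_
  · intro x hx hxe
    have e1 := hτ x hx
    rw [e1] at hxe ⊢
    exact hK x hx hxe
  · rw [hCX]
    ring

end Pool.Agent.Lib.MP_8b7544_co.One
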