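import Pool.Agent.Lib.MP_8b7544_co.One.StmD

set_option autoImplicit false

namespace Pool.Agent.Lib.MP_8b7544_co.One

theorem SOLVE_holds : S_SOLVE := by
  intro p q B hp hq hpq
  obtain ⟨a, b, hab⟩ := hpq
  refine ⟨(2 * p + 3 * q) * (4 * p + 5 * q + 4 * |B|), fun M hM => ?_⟩
  have hB1 : B ≤ |B| := le_abs_self B
  have hB0 : 0 ≤ |B| := abs_nonneg B
  have hD : 0 < 2 * p + 3 * q := by linarith
  obtain ⟨C₀, hC₀⟩ : ∃ C₀ : ℤ, C₀ = 2 * M / (2 * p + 3 * q) := ⟨_, rfl⟩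
  have h1 : (2 * p + 3 * q) * C₀ ≤ 2 * M := by
    rw [hC₀]; exact Int.mul_ediv_self_le hD.ne'
  have h2 : 2 * M < (2 * p + 3 * q) * (C₀ + 1) := by
    rw [hC₀]
    have := Int.lt_ediv_add_one_mul_self (2 * M) hD
    linarith
  have hT0 : 0 ≤ 4 * p + 5 * q + 4 * |B| := by linarith
  have hM0 : 0 ≤ M := le_trans (mul_nonneg hD.le hT0) hM
  have h3 : 4 * p + 5 * q + 4 * |B| ≤ C₀ := by
    by_contra hc
    push Not at hc
    have : C₀ + 1 ≤ 4 * p + 5 * q + 4 * |B| := by omega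
    have := mul_le_mul_of_nonneg_left this hD.le
    linarith
  obtain ⟨r, hr⟩ : ∃ r : ℤ, r = (a * M - C₀) % q := ⟨_, rfl⟩
  obtain ⟨k, hk⟩ : ∃ k : ℤ, k = (a * M - C₀) / q := ⟨_, rfl⟩
  have hrk : q * k + r = a * M - C₀ := by rw [hr, hk]; exact Int.mul_ediv_add_emod _ _
  have hr0 : 0 ≤ r := by rw [hr]; exact Int.emod_nonneg _ (by linarith)
  have hrq : r + 1 ≤ q := by
    have : r < q := by rw [hr]; exact Int.emod_lt_of_pos _ (by linarith)
    omega
  have hX : p * (C₀ + r) + q * (b * M + p * k) = M := by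
    linear_combination p * hrk + M * hab
  have hqT : q * (4 * p + 5 * q + 4 * |B|) ≤ q * C₀ := mul_le_mul_of_nonneg_left h3 (by linarith)
  have hpq1 : p ≤ p * q := by nlinarith
  have hqq1 : q ≤ q * q := by nlinarith
  have hqB : q * B ≤ q * |B| := mul_le_mul_of_nonneg_left hB1 (by linarith)
  have hqB0 : 0 ≤ q * |B| := mul_nonneg (by linarith) hB0
  refine ⟨C₀ + r, b * M + p * k, hX, by linarith, ?_, ?_⟩
  · have hh : (p + q) * r ≤ (p + q) * (q - 1) := mul_le_mul_of_nonneg_left (by linarith) (by linarith)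
    have : q * ((C₀ + r) + B) ≤ q * (b * M + p * k) := by
      nlinarith
    exact le_of_mul_le_mul_left this (by linarith)
  · have hh : 0 ≤ (p + 2 * q) * r := mul_nonneg (by linarith) hr0
    have : q * ((b * M + p * k) + B) ≤ q * (2 * (C₀ + r)) := by
      nlinarith
    exact le_of_mul_le_mul_left this (by linarith)

end Pool.Agent.Lib.MP_8b7544_co.One
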