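import Pool.Agent.Lib.MP_8b7544_co.One.StmD

set_option autoImplicit false

namespace Pool.Agent.Lib.MP_8b7544_co.One

open Finset

/-- Exchanging the two vertices of an `Odp`. -/
private theorem SPI_swap {V : Type} {v : V} {par : V → V} {K : Finset V} {δ : V → ℤ} {e : ℤ}
    {P Q : V} (h : Odp v par K δ e P Q) : Odp v par K δ e Q P :=
  ⟨h.loc, h.qK, h.pK, by rw [h.opp]; exact h.odd.neg, by rw [h.opp, neg_neg]⟩

private theorem SPI_aux (hBC : S_BC) (hE11N : S_E11N) (V : Type) [Fintype V] [DecidableEq V]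
    (v : V) (par : V → V) (dep : V → ℕ) (hR : Rt v par dep) (P' Q' : V) (h2P : 2 ≤ dep P')
    (hlt : dep P' < dep Q') (hodd : Odd (dep P' + dep Q'))
    (h1 : par^[dep P' - 1] P' = par^[dep Q' - 1] Q')
    (h2 : par^[dep P' - 2] P' ≠ par^[dep Q' - 2] Q') :
    ∃ (K : Finset V) (δ : V → ℤ) (e : ℤ), Odp v par K δ e P' Q' ∧
    (∀ w, w ∈ K ↔ Anc par P' w ∨ Anc par Q' w) ∧ ∀ w ∈ K, δ w ≤ e := by
  obtain ⟨i, hi⟩ : ∃ i, i = dep P' - 2 := ⟨_, rfl⟩
  obtain ⟨x₁, hx₁⟩ : ∃ x, x = par^[i] P' := ⟨_, rfl⟩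
  obtain ⟨y, hy⟩ : ∃ x, x = par^[i] Q' := ⟨_, rfl⟩
  have dx : dep x₁ = 2 := by rw [hx₁, hR.dep_iter]; omega
  have dy : dep y = dep Q' - i := by rw [hy, hR.dep_iter]
  have dy' : dep y + dep P' = dep Q' + 2 := by omega
  have hQy : Anc par Q' y := ⟨i, hy.symm⟩
  have hPx : Anc par P' x₁ := ⟨i, hx₁.symm⟩
  have oy : Odd (dep y) := by
    rcases hodd with ⟨t, ht⟩
    exact ⟨t + 1 - dep P', by omega⟩
  have hpar : par x₁ = par^[dep y - 1] y := by
    have e1 : par x₁ = par^[dep P' - 1] P' := by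
      rw [hx₁, ← Function.iterate_succ_apply' par i P']
      congr 1
      rw [show dep P' - 1 = i.succ by omega]
    have e2 : par^[dep y - 1] y = par^[dep Q' - 1] Q' := by
      rw [hy, ← Function.iterate_add_apply par _ i Q']
      rw [← hy]
      congr 1
      rw [show dep Q' - 1 = dep y - 1 + i by omega]
    rw [e1, e2, h1]
  have hna : ¬ Anc par y x₁ := by
    intro hc
    apply h2
    have a1 : Anc par Q' x₁ := hQy.trans hc
    have a2 : Anc par Q' (par^[dep Q' - 2] Q') := ⟨_, rfl⟩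
    have := hR.anc_eq a1 a2 (by rw [dx, hR.dep_iter]; omega)
    rw [← this, hx₁, hi]
  obtain ⟨K, δ, e, hO, hK, hle⟩ := hBC V v par dep hR x₁ y oy (by omega) dx hpar hna
  have c1 : ∀ j < i, par^[j] P' ∉ K := by
    intro j hj hc
    rcases (hK _).1 hc with hc | hc
    · have := congrArg dep hc
      rw [hR.dep_iter, dx] at this
      omega
    · apply hna
      refine hc.trans ⟨i - j, ?_⟩
      rw [← Function.iterate_add_apply, show i - j + j = i by omega, hx₁]
  have c2 : ∀ j < i, par^[j] Q' ∉ K := by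
    intro j hj hc
    rcases (hK _).1 hc with hc | hc
    · have := congrArg dep hc
      rw [hR.dep_iter, dx] at this
      omega
    · have := (hR.anc_dep hc).1
      rw [hR.dep_iter] at this
      omega
  obtain ⟨K', δ', e', hO', hK', hle'⟩ := hE11N V v par dep hR i K δ e x₁ y P' Q' hO hx₁.symm
    hy.symm c1 c2
  refine ⟨K', δ', e', hO', ?_, hle' hle⟩
  intro w
  rw [hK']
  constructor
  · rintro (hw | hw | hw)
    · rcases (hK w).1 hw with rfl | hw
      · exact Or.inl hPx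
      · exact Or.inr (hQy.trans hw)
    · exact Or.inl hw
    · exact Or.inr hw
  · rintro (hw | hw)
    · exact Or.inr (Or.inl hw)
    · exact Or.inr (Or.inr hw)

/-- [SPI] -/
theorem SPI_holds (hBC : S_BC) (hE11N : S_E11N) : S_SPI := by
  intro V _ _ v par dep hR P' Q' h2P h2Q hodd h1 h2
  rcases lt_trichotomy (dep P') (dep Q') with h | h | h
  · exact SPI_aux hBC hE11N V v par dep hR P' Q' h2P h hodd h1 h2
  · exfalso
    rw [h] at hodd
    rcases hodd with ⟨t, ht⟩
    omega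
  · obtain ⟨K, δ, e, hO, hK, hle⟩ := SPI_aux hBC hE11N V v par dep hR Q' P' h2Q h
      (by rw [add_comm]; exact hodd) h1.symm h2.symm
    exact ⟨K, δ, e, SPI_swap hO, fun w => by rw [hK w, or_comm], hle⟩

end Pool.Agent.Lib.MP_8b7544_co.One
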