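import Pool.Agent.Lib.MP_8b7544_co.One.StmD
import Pool.Agent.Lib.MP_8b7544_co.Hv.Stm3

set_option autoImplicit false

namespace Pool.Agent.Lib.MP_8b7544_co.One

open Finset

theorem STR_holds (hIND : Hv.S_IND) : S_STR := by
  classical
  intro W _ T hT v S hvS hS
  have hfin : Finite S := Subtype.finite
  have hfin' : Finite (Sᶜ : Set W) := Subtype.finite
  have c1 : Nat.card S = S.ncard := rfl
  have c2 : Nat.card (Sᶜ : Set W) = Sᶜ.ncard := rfl
  let e1 : Fin S.ncard ≃ S := (finCongr c1.symm).trans (Finite.equivFin S).symm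
  let e2 : Fin Sᶜ.ncard ≃ (Sᶜ : Set W) :=
    (finCongr c2.symm).trans (Finite.equivFin (Sᶜ : Set W)).symm
  let G : SimpleGraph (Fin S.ncard) := (T.induce S).comap e1
  have hG : ∀ a b, G.Adj a b ↔ T.Adj (e1 a).1 (e1 b).1 := fun a b => Iff.rfl
  have hI : (T.induce S).IsTree :=
    hIND W T hT S ⟨v, hvS⟩ (fun w hw => ⟨v, hvS, (hS w hw).2⟩)
  have hGt : G.IsTree := (SimpleGraph.Iso.isTree_iff (SimpleGraph.Iso.comap e1 (T.induce S))).2 hI
  refine ⟨G, e1.symm ⟨v, hvS⟩, hGt, ⟨?_⟩⟩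
  have hv' : (e1 (e1.symm ⟨v, hvS⟩)).1 = v := by rw [Equiv.apply_symm_apply]
  let E : Fin S.ncard ⊕ Fin Sᶜ.ncard ≃ W := (Equiv.sumCongr e1 e2).trans (Equiv.Set.sumCompl S)
  have hE1 : ∀ a, E (Sum.inl a) = (e1 a).1 := fun a => rfl
  have hE2 : ∀ i, E (Sum.inr i) = (e2 i).1 := fun i => rfl
  refine ⟨E, ?_⟩
  intro x y
  rcases x with a | i <;> rcases y with b | j
  · show T.Adj (E (Sum.inl a)) (E (Sum.inl b)) ↔ _
    rw [hE1, hE1, ← hG]
    constructor
    · intro h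
      exact Or.inl ⟨a, b, rfl, rfl, h⟩
    · rintro (⟨a', b', h1, h2, h⟩ | ⟨k, _, h2⟩ | ⟨k, h1, _⟩)
      · cases h1
        cases h2
        exact h
      · cases h2
      · cases h1
  · show T.Adj (E (Sum.inl a)) (E (Sum.inr j)) ↔ _
    rw [hE1, hE2]
    constructor
    · intro h
      refine Or.inr (Or.inl ⟨j, ?_, rfl⟩)
      have := (hS _ (e2 j).2).2 _ h.symm
      congr 1
      apply e1.injective
      apply Subtype.ext
      rw [hv', this]
    · rintro (⟨a', b', h1, h2, h⟩ | ⟨k, h1, h2⟩ | ⟨k, h1, _⟩)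
      · cases h2
      · cases h1
        rw [hv']
        exact (hS _ (e2 j).2).1.symm
      · cases h1
  · show T.Adj (E (Sum.inr i)) (E (Sum.inl b)) ↔ _
    rw [hE1, hE2]
    constructor
    · intro h
      refine Or.inr (Or.inr ⟨i, rfl, ?_⟩)
      have := (hS _ (e2 i).2).2 _ h
      congr 1
      apply e1.injective
      apply Subtype.ext
      rw [hv', this]
    · rintro (⟨a', b', h1, h2, h⟩ | ⟨k, h1, h2⟩ | ⟨k, h1, h2⟩)
      · cases h1
      · cases h2
      · cases h2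
        rw [hv']
        exact (hS _ (e2 i).2).1
  · show T.Adj (E (Sum.inr i)) (E (Sum.inr j)) ↔ _
    rw [hE2, hE2]
    constructor
    · intro h
      exfalso
      have := (hS _ (e2 i).2).2 _ h
      exact (e2 j).2 (this ▸ hvS)
    · rintro (⟨a', b', h1, h2, h⟩ | ⟨k, h1, h2⟩ | ⟨k, h1, h2⟩)
      · cases h1
      · cases h1
      · cases h2

end Pool.Agent.Lib.MP_8b7544_co.One
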