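import Pool.Agent.Lib.MP_8b7544_co.One.StmD

set_option autoImplicit false

namespace Pool.Agent.Lib.MP_8b7544_co.One

theorem TRE_holds : S_TRE := by
  classical
  intro V _ G v par dep hR hT
  have hadj : ∀ x, x ≠ v → G.Adj x (par x) := fun x hx => (hT x (par x)).2 (Or.inl ⟨hx, rfl⟩)
  have hreach : ∀ n x, dep x = n → G.Reachable x v := by
    intro n
    induction n with
    | zero =>
      intro x hx
      rw [hR.eq_root hx]
    | succ n ih =>
      intro x hx
      have hxv : x ≠ v := by
        rintro rfl
        rw [hR.dv] at hx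
        exact absurd hx (by omega)
      exact (hadj x hxv).reachable.trans (ih (par x) (by rw [hR.dep_par, hx]; rfl))
  rw [SimpleGraph.isTree_iff_connected_and_card]
  refine ⟨?_, ?_⟩
  · rw [SimpleGraph.connected_iff]
    exact ⟨fun x y => (hreach _ x rfl).trans (hreach _ y rfl).symm, ⟨v⟩⟩
  · have e : Nat.card {x : V // x ≠ v} = Nat.card G.edgeSet := by
      apply Nat.card_eq_of_bijective
        (fun x : {x : V // x ≠ v} => (⟨s(x.1, par x.1), hadj x.1 x.2⟩ : G.edgeSet))
      constructor
      · rintro ⟨x, hx⟩ ⟨y, hy⟩ h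
        have h' : s(x, par x) = s(y, par y) := congrArg Subtype.val h
        rw [Sym2.eq_iff] at h'
        apply Subtype.ext
        rcases h' with ⟨h1, _⟩ | ⟨h1, h2⟩
        · exact h1
        · exfalso
          have d1 := hR.ds x hx
          have d2 := hR.ds y hy
          rw [h2] at d1
          rw [← h1] at d2
          omega
      · rintro ⟨z, hz⟩
        induction z using Sym2.ind with
        | _ a b =>
          rcases (hT a b).1 hz with ⟨ha, rfl⟩ | ⟨hb, rfl⟩
          · exact ⟨⟨a, ha⟩, rfl⟩
          · exact ⟨⟨b, hb⟩, Subtype.ext Sym2.eq_swap⟩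
    rw [← e, Nat.card_eq_fintype_card, Nat.card_eq_fintype_card, Fintype.card_subtype_compl,
      Fintype.card_subtype_eq]
    have : 0 < Fintype.card V := Fintype.card_pos_iff.2 ⟨v⟩
    omega

end Pool.Agent.Lib.MP_8b7544_co.One
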