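import Pool.Agent.Lib.MP_8b7544_co.One.StmD

set_option autoImplicit false

namespace Pool.Agent.Lib.MP_8b7544_co.One

/-- There is a power of two between `g` and `2 g - 1`. -/
private theorem TUNE_pow (g : ℕ) (hg : 1 ≤ g) : ∃ s : ℕ, g ≤ 2 ^ s ∧ 2 ^ s + 1 ≤ 2 * g := by
  induction g with
  | zero => omega
  | succ g ih =>
    rcases Nat.eq_zero_or_pos g with h | h
    · subst h
      exact ⟨0, by norm_num, by norm_num⟩
    · obtain ⟨s, h1, h2⟩ := ih h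
      rcases Nat.lt_or_ge g (2 ^ s) with h3 | h3
      · exact ⟨s, h3, by omega⟩
      · refine ⟨s + 1, ?_, ?_⟩
        · rw [pow_succ]; omega
        · rw [pow_succ]; omega

theorem TUNE_holds : S_TUNE := by
  intro g hg
  obtain ⟨s, h1, h2⟩ := TUNE_pow g hg
  refine ⟨2 * g - 2 ^ s, by omega, by omega, fun A _ => ?_⟩
  have hi : (((2 * g - 2 ^ s : ℕ)) : ℤ) = 2 * (g : ℤ) - 2 ^ s := by
    rw [Nat.cast_sub (by omega)]
    push_cast
    ring
  rw [hi]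
  have h3 : IsCoprime (2 * A - 1) (2 : ℤ) := ⟨-1, A, by ring⟩
  have h4 : IsCoprime (2 * A - 1) ((2 : ℤ) ^ s) := h3.pow_right
  have h5 : IsCoprime (2 * A - 1) ((2 : ℤ) ^ s + (2 * A - 1) * (2 * (g : ℤ) - 2 ^ s)) :=
    (IsCoprime.add_mul_left_right_iff).2 h4
  have h6 : (2 : ℤ) ^ s + (2 * A - 1) * (2 * (g : ℤ) - 2 ^ s) =
      2 * ((2 * (g : ℤ) - 2 ^ s) * A + ((g : ℤ) - (2 * (g : ℤ) - 2 ^ s))) := by ring
  rw [h6] at h5
  exact h5.of_mul_right_right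

end Pool.Agent.Lib.MP_8b7544_co.One
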