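import Pool.Agent.Lib.MP_8b7544_co.One.StmD

set_option autoImplicit false

namespace Pool.Agent.Lib.MP_8b7544_co.One

open Finset

theorem ZO_holds : S_ZO := by
  intro V _ v par dep hR K δ a b α β y h hy hpy
  have hyv : y ≠ v := fun h' => hy (h' ▸ h.root)
  let δ' : V → ℤ := fun w => if w = y then -1 else if Even (dep w) then δ w else δ w - 1
  have hself : δ' y = -1 := if_pos rfl
  have hev : ∀ w ∈ K, Even (dep w) → δ' w = δ w := by
    intro w hw he
    have : w ≠ y := by
      rintro rfl
      exact hy hw
    simp only [δ', if_neg this, if_pos he]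
  have hod : ∀ w ∈ K, Odd (dep w) → δ' w = δ w - 1 := by
    intro w hw ho
    have : w ≠ y := by
      rintro rfl
      exact hy hw
    simp only [δ', if_neg this, if_neg (Nat.not_even_iff_odd.2 ho)]
  have hdy : Odd (dep y) := by
    rw [hR.ds y hyv, hpy]
    exact h.αe.add_one
  have hne : ∀ w ∈ K, δ' w ≠ -1 := by
    intro w hw
    rcases Nat.even_or_odd (dep w) with he | ho
    · rw [hev w hw he]
      have := (h.even w hw he).1
      omega
    · rw [hod w hw ho]
      have := (h.odd w hw ho).2
      omega
  refine ⟨δ', ?_⟩
  refine ⟨mem_insert_of_mem h.root, ?_, ?_, ?_, ?_, ?_, ?_, ?_, mem_insert_of_mem h.αK, h.αe, ?_,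
    mem_insert_self _ _, hdy, hself⟩
  · intro w hw
    rcases mem_insert.1 hw with rfl | hw
    · rw [hpy]
      exact mem_insert_of_mem h.αK
    · exact mem_insert_of_mem (h.closed w hw)
  · rw [hev v h.root (by rw [hR.dv]; exact ⟨0, rfl⟩), h.zero]
  · intro w hw w' hw' he
    rcases mem_insert.1 hw with rfl | hw1
    · rcases mem_insert.1 hw' with rfl | hw2
      · rfl
      · rw [hself] at he
        exact absurd he.symm (hne w' hw2)
    · rcases mem_insert.1 hw' with rfl | hw2
      · rw [hself] at he
        exact absurd he (hne w hw1)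
      · apply h.inj w hw1 w' hw2
        rcases Nat.even_or_odd (dep w) with h1 | h1 <;> rcases Nat.even_or_odd (dep w') with h2 | h2
        · rw [hev w hw1 h1, hev w' hw2 h2] at he
          exact he
        · rw [hev w hw1 h1, hod w' hw2 h2] at he
          have := (h.even w hw1 h1).1
          have := (h.odd w' hw2 h2).2
          omega
        · rw [hod w hw1 h1, hev w' hw2 h2] at he
          have := (h.odd w hw1 h1).2
          have := (h.even w' hw2 h2).1
          omega
        · rw [hod w hw1 h1, hod w' hw2 h2] at he
          omega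
  · intro w hw he
    rcases mem_insert.1 hw with rfl | hw1
    · exact absurd hdy (Nat.not_odd_iff_even.2 he)
    · rw [hev w hw1 he]
      exact h.even w hw1 he
  · intro w hw ho
    rcases mem_insert.1 hw with rfl | hw1
    · rw [hself]
      have := h.odd β h.βK h.βo
      omega
    · rw [hod w hw1 ho]
      have := h.odd w hw1 ho
      omega
  · intro t ht1 ht2
    rcases lt_trichotomy t (-1) with ht | rfl | ht
    · obtain ⟨w, hw, he⟩ := h.surj (t + 1) (by omega) (by
        have := h.even α h.αK h.αe
        have := h.αa
        omega)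
      refine ⟨w, mem_insert_of_mem hw, ?_⟩
      rcases Nat.even_or_odd (dep w) with h1 | h1
      · have := (h.even w hw h1).1
        omega
      · rw [hod w hw h1]
        omega
    · exact ⟨y, mem_insert_self _ _, hself⟩
    · obtain ⟨w, hw, he⟩ := h.surj t (by
        have := h.odd β h.βK h.βo
        omega) ht2
      refine ⟨w, mem_insert_of_mem hw, ?_⟩
      rcases Nat.even_or_odd (dep w) with h1 | h1
      · rw [hev w hw h1, he]
      · have := (h.odd w hw h1).2
        omega
  · intro t ht1 ht2
    rcases eq_or_lt_of_le (Int.le_sub_one_of_lt ht2) with ht | ht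
    · refine ⟨y, mem_insert_self _ _, hyv, ?_⟩
      rw [hself, hpy, hev α h.αK h.αe, h.αa, ht]
      ring
    · obtain ⟨w, hw, hwv, he⟩ := h.sums (t + 1) (by omega) (by omega)
      refine ⟨w, mem_insert_of_mem hw, hwv, ?_⟩
      have hd := hR.ds w hwv
      rcases Nat.even_or_odd (dep w) with h1 | h1
      · have h2 : Odd (dep (par w)) := by
          rcases Nat.even_or_odd (dep (par w)) with h3 | h3
          · exact absurd (hd ▸ h1) (Nat.not_even_iff_odd.2 h3.add_one)
          · exact h3
        rw [hev w hw h1, hod _ (h.closed w hw) h2]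
        omega
      · have h2 : Even (dep (par w)) := by
          rcases Nat.even_or_odd (dep (par w)) with h3 | h3
          · exact h3
          · exact absurd (hd ▸ h1) (Nat.not_odd_iff_even.2 h3.add_one)
        rw [hod w hw h1, hev _ (h.closed w hw) h2]
        omega
  · rw [hev α h.αK h.αe, h.αa]

end Pool.Agent.Lib.MP_8b7544_co.One
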