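import Pool.Agent.Lib.MP_8b7544_co.One.StmD

set_option autoImplicit false

namespace Pool.Agent.Lib.MP_8b7544_co.One

open Finset

theorem ZP_holds (hZS : S_ZS) : S_ZP := by
  intro V _ _ v par dep hR huniq n
  induction n with
  | zero =>
    intro K δ a b α β γ h hγ hγv hch hcl hn
    have hK : ∀ x : V, x ∈ K := by
      intro x
      by_contra hx
      have : 0 < Kᶜ.card := card_pos.2 ⟨x, by rw [mem_compl]; exact hx⟩
      omega
    exact ⟨K, δ, a, b, α, β, h, Subset.refl K, fun x _ _ y _ => hK y⟩
  | succ n ih =>
    intro K δ a b α β γ h hγ hγv hch hcl hn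
    have hγK : γ ∈ K := by
      rcases hγ with rfl | rfl
      · exact h.αK
      · exact h.βK
    have hparv : ∀ y, par y ≠ v → y ≠ v := by
      rintro y hy rfl
      exact hy hR.pv
    by_cases hL : Lf v par γ
    · refine ⟨K, δ, a, b, α, β, h, Subset.refl K, ?_⟩
      intro x hx hxv y hy
      by_cases hxγ : x = γ
      · exact absurd (hy.trans hxγ) (hL y (hparv y (by rw [hy]; exact hxv)))
      · exact hcl x hx hxv hxγ y hy
    · -- the children of `γ`
      set S : Finset V := univ.filter (fun x => par x = γ) with hS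
      have hmS : ∀ x, x ∈ S ↔ par x = γ := by
        intro x
        rw [hS, mem_filter]
        exact ⟨fun h => h.2, fun h => ⟨mem_univ _, h⟩⟩
      have hSv : ∀ x ∈ S, x ≠ v := by
        intro x hx
        exact hparv x (by rw [(hmS x).1 hx]; exact hγv)
      obtain ⟨s, hs, hsL⟩ : ∃ s ∈ S, ∀ x ∈ S, ¬ Lf v par x → x = s := by
        by_cases hex : ∃ x ∈ S, ¬ Lf v par x
        · obtain ⟨s, hs, hsi⟩ := hex
          refine ⟨s, hs, fun x hx hxi => ?_⟩
          exact huniq x s (hSv x hx) (hSv s hs) (by rw [(hmS x).1 hx, (hmS s).1 hs]) hxi hsi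
        · unfold Lf at hL
          push Not at hL
          obtain ⟨y, hyv, hy⟩ := hL
          refine ⟨y, (hmS y).2 hy, fun x hx hxi => ?_⟩
          exact absurd ⟨x, hx, hxi⟩ hex
      have hSK : ∀ x ∈ S, x ∉ K ∧ par x = γ := fun x hx =>
        ⟨hch x ((hmS x).1 hx), (hmS x).1 hx⟩
      obtain ⟨δ₁, a₁, b₁, α₁, β₁, h₁, hs₁⟩ := hZS V v par dep hR K δ a b α β γ h hγ S s hs hSK
      obtain ⟨K', δ', a', b', α', β', h', hsub, hfin⟩ := ih (K ∪ S) δ₁ a₁ b₁ α₁ β₁ s h₁ hs₁
        (hSv s hs) (by
          intro x hx hxm
          rcases mem_union.1 hxm with hxK | hxS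
          · exact (hSK s hs).1 (hx ▸ h.closed x hxK)
          · have : γ = s := by rw [← (hmS x).1 hxS, hx]
            exact (hSK s hs).1 (this ▸ hγK)) (by
          intro x hxm hxv hxs y hy
          rcases mem_union.1 hxm with hxK | hxS
          · by_cases hxγ : x = γ
            · exact mem_union_right _ ((hmS y).2 (hy.trans hxγ))
            · exact mem_union_left _ (hcl x hxK hxv hxγ y hy)
          · by_contra _
            have hxL : ¬ Lf v par x := fun hL' =>
              hL' y (hparv y (by rw [hy]; exact hxv)) hy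
            exact hxs (hsL x hxS hxL)) (by
          have hlt : (K ∪ S)ᶜ.card < Kᶜ.card := by
            apply card_lt_card
            rw [ssubset_iff_of_subset]
            · refine ⟨s, ?_, ?_⟩
              · rw [mem_compl]
                exact (hSK s hs).1
              · rw [mem_compl, not_not]
                exact mem_union_right _ hs
            · intro x hx
              rw [mem_compl] at hx ⊢
              exact fun hxK => hx (mem_union_left _ hxK)
          omega)
      exact ⟨K', δ', a', b', α', β', h', Subset.trans subset_union_left hsub, hfin⟩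

end Pool.Agent.Lib.MP_8b7544_co.One
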