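import Pool.Agent.Lib.MP_8b7544_co.One.StmD

set_option autoImplicit false

namespace Pool.Agent.Lib.MP_8b7544_co.One

open Finset

private theorem ZS_step (hZE : S_ZE) (hZO : S_ZO) {V : Type} [DecidableEq V] {v : V} {par : V → V}
    {dep : V → ℕ} (hR : Rt v par dep) {K : Finset V} {δ : V → ℤ} {a b : ℤ} {α β γ : V}
    (h : ZZ v par dep K δ a b α β) (hγ : γ = α ∨ γ = β) {x : V} (hx : x ∉ K) (hpx : par x = γ) :
    ∃ (δ' : V → ℤ) (a' b' : ℤ) (α' β' : V), ZZ v par dep (insert x K) δ' a' b' α' β' ∧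
      (γ = α' ∨ γ = β') ∧ (x = α' ∨ x = β') := by
  rcases hγ with rfl | rfl
  · obtain ⟨δ', h'⟩ := hZO V v par dep hR K δ a b γ β x h hx hpx
    exact ⟨δ', a, b + 1, γ, x, h', Or.inl rfl, Or.inr rfl⟩
  · obtain ⟨δ', h'⟩ := hZE V v par dep hR K δ a b α γ x h hx hpx
    exact ⟨δ', a + 1, b, x, γ, h', Or.inr rfl, Or.inl rfl⟩

private theorem ZS_ind (hZE : S_ZE) (hZO : S_ZO) {V : Type} [DecidableEq V] {v : V} {par : V → V}
    {dep : V → ℕ} (hR : Rt v par dep) {K : Finset V} {δ : V → ℤ} {a b : ℤ} {α β γ : V}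
    (h : ZZ v par dep K δ a b α β) (hγ : γ = α ∨ γ = β) (S : Finset V)
    (hS : ∀ x ∈ S, x ∉ K ∧ par x = γ) :
    ∃ (δ' : V → ℤ) (a' b' : ℤ) (α' β' : V), ZZ v par dep (K ∪ S) δ' a' b' α' β' ∧
      (γ = α' ∨ γ = β') := by
  induction S using Finset.induction_on with
  | empty =>
    rw [union_empty]
    exact ⟨δ, a, b, α, β, h, hγ⟩
  | insert x S hxS ih =>
    obtain ⟨δ', a', b', α', β', h', hγ'⟩ := ih (fun y hy => hS y (mem_insert_of_mem hy))
    have hx := hS x (mem_insert_self _ _)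
    obtain ⟨δ'', a'', b'', α'', β'', h'', hγ'', -⟩ := ZS_step hZE hZO hR h' hγ' (x := x) (by
      rw [mem_union]
      rintro (h1 | h1)
      · exact hx.1 h1
      · exact hxS h1) hx.2
    rw [union_insert]
    exact ⟨δ'', a'', b'', α'', β'', h'', hγ''⟩

theorem ZS_holds (hZE : S_ZE) (hZO : S_ZO) : S_ZS := by
  intro V _ v par dep hR K δ a b α β γ h hγ S s hs hS
  obtain ⟨δ', a', b', α', β', h', hγ'⟩ := ZS_ind hZE hZO hR h hγ (S.erase s)
    (fun x hx => hS x (mem_of_mem_erase hx))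
  obtain ⟨δ'', a'', b'', α'', β'', h'', -, hs''⟩ := ZS_step hZE hZO hR h' hγ' (x := s) (by
    rw [mem_union]
    rintro (h1 | h1)
    · exact (hS s hs).1 h1
    · exact absurd h1 (notMem_erase s S)) (hS s hs).2
  refine ⟨δ'', a'', b'', α'', β'', ?_, hs''⟩
  rw [← union_insert, insert_erase hs] at h''
  exact h''

end Pool.Agent.Lib.MP_8b7544_co.One
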