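import Pool.Agent.Lib.MP_8b7544_co.Hv.All
import Pool.Agent.Lib.MP_8b7544_co.One.P_INC
import Pool.Agent.Lib.MP_8b7544_co.One.P_PKF
import Pool.Agent.Lib.MP_8b7544_co.One.P_PACK
import Pool.Agent.Lib.MP_8b7544_co.One.P_GROW
import Pool.Agent.Lib.MP_8b7544_co.One.P_TUNE
import Pool.Agent.Lib.MP_8b7544_co.One.P_SOLVE
import Pool.Agent.Lib.MP_8b7544_co.One.P_ASM
import Pool.Agent.Lib.MP_8b7544_co.One.P_PW
import Pool.Agent.Lib.MP_8b7544_co.One.P_PATH
import Pool.Agent.Lib.MP_8b7544_co.One.P_PATHC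
import Pool.Agent.Lib.MP_8b7544_co.One.P_FIN
import Pool.Agent.Lib.MP_8b7544_co.One.P_LMX
import Pool.Agent.Lib.MP_8b7544_co.One.P_N1
import Pool.Agent.Lib.MP_8b7544_co.One.P_N2
import Pool.Agent.Lib.MP_8b7544_co.One.P_N3
import Pool.Agent.Lib.MP_8b7544_co.One.P_CHN
import Pool.Agent.Lib.MP_8b7544_co.One.P_OC
import Pool.Agent.Lib.MP_8b7544_co.One.P_E11
import Pool.Agent.Lib.MP_8b7544_co.One.P_E11N
import Pool.Agent.Lib.MP_8b7544_co.One.P_BA
import Pool.Agent.Lib.MP_8b7544_co.One.P_BB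
import Pool.Agent.Lib.MP_8b7544_co.One.P_BC
import Pool.Agent.Lib.MP_8b7544_co.One.P_SPI
import Pool.Agent.Lib.MP_8b7544_co.One.P_PEN
import Pool.Agent.Lib.MP_8b7544_co.One.P_CAP
import Pool.Agent.Lib.MP_8b7544_co.One.P_CAL
import Pool.Agent.Lib.MP_8b7544_co.One.P_CSP
import Pool.Agent.Lib.MP_8b7544_co.One.P_CWW
import Pool.Agent.Lib.MP_8b7544_co.One.P_CK3
import Pool.Agent.Lib.MP_8b7544_co.One.P_CB1
import Pool.Agent.Lib.MP_8b7544_co.One.P_CB2
import Pool.Agent.Lib.MP_8b7544_co.One.P_ZE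
import Pool.Agent.Lib.MP_8b7544_co.One.P_ZO
import Pool.Agent.Lib.MP_8b7544_co.One.P_ZS
import Pool.Agent.Lib.MP_8b7544_co.One.P_ZP
import Pool.Agent.Lib.MP_8b7544_co.One.P_CAT
import Pool.Agent.Lib.MP_8b7544_co.One.P_TRE
import Pool.Agent.Lib.MP_8b7544_co.One.P_CD2
import Pool.Agent.Lib.MP_8b7544_co.One.P_CTH
import Pool.Agent.Lib.MP_8b7544_co.One.P_CLM
import Pool.Agent.Lib.MP_8b7544_co.One.P_ONE
import Pool.Agent.Lib.MP_8b7544_co.One.P_ONT
import Pool.Agent.Lib.MP_8b7544_co.One.P_UN1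
import Pool.Agent.Lib.MP_8b7544_co.One.P_ISO
import Pool.Agent.Lib.MP_8b7544_co.One.P_STR
import Pool.Agent.Lib.MP_8b7544_co.One.P_MAIN

set_option autoImplicit false

namespace Pool.Agent.Lib.MP_8b7544_co.One

theorem pack : S_PACK := PACK_holds PKF_holds

theorem pw : S_PW := PW_holds SOLVE_holds ASM_holds

theorem fin' : S_FIN := FIN_holds (PATH_holds INC_holds pack GROW_holds)
  (PATHC_holds INC_holds PKF_holds) TUNE_holds pw

theorem oc : S_OC := OC_holds N1_holds N2_holds CHN_holds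

theorem e11n : S_E11N := E11N_holds E11_holds

theorem spi : S_SPI := SPI_holds BC_holds e11n

theorem cat : S_CAT := CAT_holds (ZP_holds (ZS_holds ZE_holds ZO_holds)) (LMX_holds ASM_holds)

theorem clm : S_CLM := CLM_holds PEN_holds (CAP_holds fin' oc PEN_holds) (CAL_holds fin' oc)
  (CSP_holds fin' spi) (CWW_holds fin' BB_holds E11_holds) (CK3_holds fin' N3_holds CHN_holds)

theorem one : S_ONE := ONE_holds cat (CD2_holds TRE_holds) (CTH_holds TRE_holds) clm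
  (CB1_holds fin' BA_holds) (CB2_holds fin' BA_holds e11n)

theorem ont : S_ONT := ONT_holds one

theorem main : S_MAIN := MAIN_holds (UN1_holds ont) ISO_holds (STR_holds Hv.IND_holds) Hv.fin

end Pool.Agent.Lib.MP_8b7544_co.One
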