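import Pool.Agent.Lib.MP_8b7544_co.Assemble

set_option autoImplicit false

namespace Pool.Agent.Lib.MP_8b7544_co.One

open Finset

/-- `par` and `dep` are the parent function and the depth function of a tree on `V` rooted at
`v` (convention: `par v = v`). -/
structure Rt {V : Type} (v : V) (par : V → V) (dep : V → ℕ) : Prop where
  pv : par v = v
  dv : dep v = 0
  ds : ∀ x, x ≠ v → dep x = dep (par x) + 1

/-- `G` is the tree given by the parent function `par`. -/
def Tr {V : Type} (G : SimpleGraph V) (v : V) (par : V → V) : Prop :=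
  ∀ a b, G.Adj a b ↔ (a ≠ v ∧ par a = b) ∨ (b ≠ v ∧ par b = a)

/-- The tree with sufficiently many further leaves at the root is edge-magic. -/
def Win {V : Type} (v : V) (par : V → V) : Prop :=
  ∃ N₀ : ℕ, ∀ N, N₀ ≤ N → ∀ G : SimpleGraph V, Tr G v par → EdgeMagic (attach G v N)

/-- `x` has no children. -/
def Lf {V : Type} (v : V) (par : V → V) (x : V) : Prop := ∀ y, y ≠ v → par y ≠ x

/-- All children of `x` are leaves. -/
def Thin {V : Type} (v : V) (par : V → V) (x : V) : Prop :=
  ∀ y, y ≠ v → par y = x → Lf v par y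

/-- `x` is penultimate: it has children, and all of them are leaves. -/
def Pen {V : Type} (v : V) (par : V → V) (x : V) : Prop := ¬ Lf v par x ∧ Thin v par x

/-- `w` is an ancestor of `u` (or equal to it). -/
def Anc {V : Type} (par : V → V) (u w : V) : Prop := ∃ j : ℕ, par^[j] u = w

/-- Abstract chains of states: `Z` is a finite set of states with `|S| + 1` elements, containing
`lo` and `hi`; every state except `hi` is `o x` for some `x ∈ S`, every state except `lo` is
`o x + ω x` for some `x ∈ S`. (A path from `lo` to `hi` and some cycles.) -/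
structure AC {V : Type} (S : Finset V) (o ω : V → ℤ) (Z : Finset ℤ) (lo hi : ℤ) : Prop where
  card : Z.card = S.card + 1
  mlo : lo ∈ Z
  mhi : hi ∈ Z
  frm : ∀ z ∈ Z, z = hi ∨ ∃ x ∈ S, o x = z
  arr : ∀ z ∈ Z, z = lo ∨ ∃ x ∈ S, o x + ω x = z

/-- Local labellings of a parent closed set `K`: the root has label `0`, the labels are distinct,
`e` is one of them, and every other label is the sum `δ w + δ (par w)` of an edge inside `K`. -/
structure Loc {V : Type} (v : V) (par : V → V) (K : Finset V) (δ : V → ℤ) (e : ℤ) : Prop where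
  root : v ∈ K
  closed : ∀ x ∈ K, par x ∈ K
  zero : δ v = 0
  inj : ∀ x ∈ K, ∀ y ∈ K, δ x = δ y → x = y
  emem : ∃ x ∈ K, δ x = e
  loc : ∀ x ∈ K, δ x ≠ e → ∃ w ∈ K, w ≠ v ∧ δ w + δ (par w) = δ x

/-- A local labelling of `K` together with two thin vertices `a`, `b` outside `K` whose parents
are in `K` and have opposite nonzero labels. -/
structure Good {V : Type} (v : V) (par : V → V) (K : Finset V) (δ : V → ℤ) (e : ℤ)
    (a b : V) : Prop where
  loc : Loc v par K δ e
  ne : a ≠ b
  aK : a ∉ K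
  bK : b ∉ K
  pa : par a ∈ K
  pb : par b ∈ K
  nz : δ (par a) ≠ 0
  opp : δ (par b) = - δ (par a)
  ta : Thin v par a
  tb : Thin v par b

/-- A local labelling of `K` in which the vertices `P`, `Q` have opposite odd labels. -/
structure Odp {V : Type} (v : V) (par : V → V) (K : Finset V) (δ : V → ℤ) (e : ℤ)
    (P Q : V) : Prop where
  loc : Loc v par K δ e
  pK : P ∈ K
  qK : Q ∈ K
  odd : Odd (δ P)
  opp : δ Q = - δ P

/-- A numerical chain of length `L`. -/
structure Num (L : ℕ) (lam : ℕ → ℤ) (e : ℤ) : Prop where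
  zero : lam 0 = 0
  inj : ∀ i ≤ L, ∀ j ≤ L, lam i = lam j → i = j
  emem : ∃ i ≤ L, lam i = e
  loc : ∀ i ≤ L, lam i ≠ e → ∃ j < L, lam j + lam (j + 1) = lam i

/-! ### Basic facts about rooted trees -/

theorem Rt.dep_par {V : Type} {v : V} {par : V → V} {dep : V → ℕ} (h : Rt v par dep) (x : V) :
    dep (par x) = dep x - 1 := by
  by_cases hx : x = v
  · rw [hx, h.pv, h.dv]
  · have := h.ds x hx
    omega

theorem Rt.eq_root {V : Type} {v : V} {par : V → V} {dep : V → ℕ} (h : Rt v par dep) {x : V}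
    (hx : dep x = 0) : x = v := by
  by_contra hne
  have := h.ds x hne
  omega

theorem Rt.dep_iter {V : Type} {v : V} {par : V → V} {dep : V → ℕ} (h : Rt v par dep) (j : ℕ)
    (x : V) : dep (par^[j] x) = dep x - j := by
  induction j with
  | zero => rfl
  | succ j ih => rw [Function.iterate_succ_apply', h.dep_par, ih]; omega

theorem Rt.iter_dep {V : Type} {v : V} {par : V → V} {dep : V → ℕ} (h : Rt v par dep) (x : V) :
    par^[dep x] x = v := h.eq_root (by rw [h.dep_iter]; omega)

theorem Rt.anc_root {V : Type} {v : V} {par : V → V} {dep : V → ℕ} (h : Rt v par dep) (x : V) :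
    Anc par x v := ⟨dep x, h.iter_dep x⟩

theorem Rt.iter_root {V : Type} {v : V} {par : V → V} {dep : V → ℕ} (h : Rt v par dep) (j : ℕ) :
    par^[j] v = v := Function.iterate_fixed h.pv j

theorem Anc.refl {V : Type} {par : V → V} (x : V) : Anc par x x := ⟨0, rfl⟩

theorem Anc.trans {V : Type} {par : V → V} {x y z : V} (h1 : Anc par x y) (h2 : Anc par y z) :
    Anc par x z := by
  obtain ⟨i, rfl⟩ := h1
  obtain ⟨j, rfl⟩ := h2
  exact ⟨j + i, by rw [Function.iterate_add_apply]⟩

theorem Anc.par {V : Type} {par : V → V} {x y : V} (h : Anc par x y) : Anc par x (par y) := by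
  obtain ⟨i, rfl⟩ := h
  exact ⟨i + 1, by rw [Function.iterate_succ_apply']⟩

theorem Anc.of_par {V : Type} {par : V → V} {x y : V} (h : Anc par (par x) y) : Anc par x y := by
  obtain ⟨i, rfl⟩ := h
  exact ⟨i + 1, by rw [Function.iterate_succ_apply]⟩

theorem Rt.anc_dep {V : Type} {v : V} {par : V → V} {dep : V → ℕ} (h : Rt v par dep) {x y : V}
    (hxy : Anc par x y) : dep y ≤ dep x ∧ par^[dep x - dep y] x = y := by
  obtain ⟨j, rfl⟩ := hxy
  rw [h.dep_iter]
  refine ⟨by omega, ?_⟩
  rcases le_or_gt j (dep x) with hj | hj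
  · congr 1
    rw [show dep x - (dep x - j) = j by omega]
  · have e1 : par^[dep x] x = v := h.iter_dep x
    have e2 : par^[j] x = v := by
      rw [show j = (j - dep x) + dep x by omega, Function.iterate_add_apply, e1, h.iter_root]
    rw [show dep x - (dep x - j) = dep x by omega, e1, e2]

/-- Two ancestors of the same vertex with the same depth are equal. -/
theorem Rt.anc_eq {V : Type} {v : V} {par : V → V} {dep : V → ℕ} (h : Rt v par dep) {x y z : V}
    (hy : Anc par x y) (hz : Anc par x z) (hd : dep y = dep z) : y = z := by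
  rw [← (h.anc_dep hy).2, ← (h.anc_dep hz).2, hd]

/-- A parent closed set contains the ancestors of its elements. -/
theorem Loc.anc {V : Type} {v : V} {par : V → V} {K : Finset V} {δ : V → ℤ} {e : ℤ}
    (h : Loc v par K δ e) {x y : V} (hx : x ∈ K) (hxy : Anc par x y) : y ∈ K := by
  obtain ⟨j, rfl⟩ := hxy
  induction j with
  | zero => exact hx
  | succ j ih => rw [Function.iterate_succ_apply']; exact h.closed _ ih

/-! ### Chains -/

theorem AC.congr {V : Type} {S : Finset V} {o ω o' ω' : V → ℤ} {Z : Finset ℤ} {lo hi : ℤ}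
    (h : AC S o ω Z lo hi) (h1 : ∀ x ∈ S, o' x = o x) (h2 : ∀ x ∈ S, ω' x = ω x) :
    AC S o' ω' Z lo hi := by
  refine ⟨h.card, h.mlo, h.mhi, ?_, ?_⟩
  · intro z hz
    rcases h.frm z hz with h | ⟨x, hx, h⟩
    · exact Or.inl h
    · exact Or.inr ⟨x, hx, by rw [h1 x hx, h]⟩
  · intro z hz
    rcases h.arr z hz with h | ⟨x, hx, h⟩
    · exact Or.inl h
    · exact Or.inr ⟨x, hx, by rw [h1 x hx, h2 x hx, h]⟩

theorem AC.shift {V : Type} {S : Finset V} {o ω : V → ℤ} {Z : Finset ℤ} {lo hi : ℤ}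
    (h : AC S o ω Z lo hi) (t : ℤ) :
    AC S (fun x => t + o x) ω (Z.image (fun z => t + z)) (t + lo) (t + hi) := by
  refine ⟨?_, mem_image.2 ⟨lo, h.mlo, rfl⟩, mem_image.2 ⟨hi, h.mhi, rfl⟩, ?_, ?_⟩
  · rw [card_image_of_injective _ (fun a b hab => by
      have : t + a = t + b := hab
      linarith), h.card]
  · intro z hz
    obtain ⟨y, hy, rfl⟩ := mem_image.1 hz
    rcases h.frm y hy with h | ⟨x, hx, h⟩
    · left; rw [h]
    · right; exact ⟨x, hx, by rw [h]⟩
  · intro z hz
    obtain ⟨y, hy, rfl⟩ := mem_image.1 hz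
    rcases h.arr y hy with h | ⟨x, hx, h⟩
    · left; rw [h]
    · right; exact ⟨x, hx, by rw [← h]; ring⟩

theorem AC.nil {V : Type} (o ω : V → ℤ) (t : ℤ) : AC (∅ : Finset V) o ω {t} t t := by
  refine ⟨by simp, by simp, by simp, ?_, ?_⟩ <;> intro z hz <;> rw [mem_singleton] at hz <;>
    exact Or.inl hz

theorem AC.single {V : Type} (o ω : V → ℤ) (x : V) (h : ω x ≠ 0) :
    AC ({x} : Finset V) o ω {o x, o x + ω x} (o x) (o x + ω x) := by
  refine ⟨?_, by simp, by simp, ?_, ?_⟩
  · rw [card_pair (by intro h'; exact h (by linarith))]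
    simp
  · intro z hz
    rw [mem_insert, mem_singleton] at hz
    rcases hz with rfl | rfl
    · right; exact ⟨x, by simp, rfl⟩
    · left; rfl
  · intro z hz
    rw [mem_insert, mem_singleton] at hz
    rcases hz with rfl | rfl
    · left; rfl
    · right; exact ⟨x, by simp, rfl⟩

theorem AC.append {V : Type} [DecidableEq V] {S₁ S₂ : Finset V} {o ω : V → ℤ}
    {Z₁ Z₂ : Finset ℤ} {lo mid hi : ℤ} (h1 : AC S₁ o ω Z₁ lo mid) (h2 : AC S₂ o ω Z₂ mid hi)
    (hS : Disjoint S₁ S₂) (hZ : ∀ z ∈ Z₁, z ∈ Z₂ → z = mid) :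
    AC (S₁ ∪ S₂) o ω (Z₁ ∪ Z₂) lo hi := by
  have hinter : Z₁ ∩ Z₂ = {mid} := by
    ext z
    rw [mem_inter, mem_singleton]
    constructor
    · rintro ⟨h1, h2⟩
      exact hZ z h1 h2
    · rintro rfl
      exact ⟨h1.mhi, h2.mlo⟩
  refine ⟨?_, mem_union_left _ h1.mlo, mem_union_right _ h2.mhi, ?_, ?_⟩
  · have := Finset.card_union_add_card_inter Z₁ Z₂
    rw [hinter, card_singleton, h1.card, h2.card] at this
    rw [Finset.card_union_of_disjoint hS]
    omega
  · intro z hz
    rcases mem_union.1 hz with hz | hz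
    · rcases h1.frm z hz with rfl | ⟨x, hx, h⟩
      · rcases h2.frm z h2.mlo with h | ⟨x, hx, h⟩
        · left; exact h
        · right; exact ⟨x, mem_union_right _ hx, h⟩
      · right; exact ⟨x, mem_union_left _ hx, h⟩
    · rcases h2.frm z hz with h | ⟨x, hx, h⟩
      · left; exact h
      · right; exact ⟨x, mem_union_right _ hx, h⟩
  · intro z hz
    rcases mem_union.1 hz with hz | hz
    · rcases h1.arr z hz with h | ⟨x, hx, h⟩
      · left; exact h
      · right; exact ⟨x, mem_union_left _ hx, h⟩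
    · rcases h2.arr z hz with rfl | ⟨x, hx, h⟩
      · rcases h1.arr z h1.mhi with h | ⟨x, hx, h⟩
        · left; exact h
        · right; exact ⟨x, mem_union_left _ hx, h⟩
      · right; exact ⟨x, mem_union_right _ hx, h⟩

/-- Adding a cycle `Y` on the vertices `M`. -/
theorem AC.cycle {V : Type} [DecidableEq V] {S M : Finset V} {o ω : V → ℤ} {Z Y : Finset ℤ}
    {lo hi : ℤ} (h : AC S o ω Z lo hi) (hS : Disjoint S M) (hZ : ∀ z ∈ Z, z ∉ Y)
    (hc : Y.card = M.card) (h1 : ∀ z ∈ Y, ∃ x ∈ M, o x = z)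
    (h2 : ∀ z ∈ Y, ∃ x ∈ M, o x + ω x = z) : AC (S ∪ M) o ω (Z ∪ Y) lo hi := by
  refine ⟨?_, mem_union_left _ h.mlo, mem_union_left _ h.mhi, ?_, ?_⟩
  · rw [Finset.card_union_of_disjoint hS, Finset.card_union_of_disjoint
      (Finset.disjoint_left.2 hZ), h.card, hc]
    omega
  · intro z hz
    rcases mem_union.1 hz with hz | hz
    · rcases h.frm z hz with h | ⟨x, hx, h⟩
      · exact Or.inl h
      · exact Or.inr ⟨x, mem_union_left _ hx, h⟩
    · obtain ⟨x, hx, h⟩ := h1 z hz
      exact Or.inr ⟨x, mem_union_right _ hx, h⟩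
  · intro z hz
    rcases mem_union.1 hz with hz | hz
    · rcases h.arr z hz with h | ⟨x, hx, h⟩
      · exact Or.inl h
      · exact Or.inr ⟨x, mem_union_left _ hx, h⟩
    · obtain ⟨x, hx, h⟩ := h2 z hz
      exact Or.inr ⟨x, mem_union_right _ hx, h⟩

end Pool.Agent.Lib.MP_8b7544_co.One
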