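import Pool.Agent.Lib.MP_8b7544_co.One.StmD

set_option autoImplicit false

namespace Pool.Agent.Lib.MP_8b7544_co.One

open Finset

theorem BB_holds : S_BB := by
  intro V _ v par dep h p q w hw hq hp
  have dq : dep q = 2 := by
    rw [← hq, h.dep_par]; omega
  have dp : dep p = 1 := by
    rw [← hp, h.dep_par]; omega
  have e1 : par p = v := h.eq_root (by rw [h.dep_par]; omega)
  have npv : p ≠ v := by
    intro hh
    rw [hh, h.dv] at dp
    omega
  have nqv : q ≠ v := by
    intro hh
    rw [hh, h.dv] at dq
    omega
  have nwv : w ≠ v := by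
    intro hh
    rw [hh, h.dv] at hw
    omega
  have nqp : q ≠ p := by
    intro hh
    rw [hh] at dq
    omega
  have nwp : w ≠ p := by
    intro hh
    rw [hh] at hw
    omega
  have nwq : w ≠ q := by
    intro hh
    rw [hh] at hw
    omega
  have d0 : (fun x => if x = v then (0 : ℤ) else if x = p then -2 else if x = q then 1 else -1) v
      = 0 := by simp
  have d1 : (fun x => if x = v then (0 : ℤ) else if x = p then -2 else if x = q then 1 else -1) p
      = -2 := by simp [npv]
  have d2 : (fun x => if x = v then (0 : ℤ) else if x = p then -2 else if x = q then 1 else -1) q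
      = 1 := by simp [nqv, nqp]
  have d3 : (fun x => if x = v then (0 : ℤ) else if x = p then -2 else if x = q then 1 else -1) w
      = -1 := by simp [nwv, nwp, nwq]
  refine ⟨fun x => if x = v then 0 else if x = p then -2 else if x = q then 1 else -1, ?_⟩
  generalize hδ : (fun x => if x = v then (0 : ℤ) else if x = p then -2 else
    if x = q then 1 else -1) = δ at d0 d1 d2 d3
  refine ⟨⟨⟨by simp, ?_, d0, ?_, ⟨q, by simp, d2⟩, ?_⟩, by simp, by simp, by rw [d3]; decide,
    by rw [d3, d2]; ring⟩, ?_⟩
  · intro x hx
    simp only [mem_insert, mem_singleton] at hx ⊢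
    rcases hx with rfl | rfl | rfl | rfl
    · left; exact h.pv
    · left; exact e1
    · right; left; exact hp
    · right; right; left; exact hq
  · intro x hx y hy hxy
    simp only [mem_insert, mem_singleton] at hx hy
    rcases hx with rfl | rfl | rfl | rfl <;> rcases hy with rfl | rfl | rfl | rfl <;>
      first
        | rfl
        | (exfalso; simp only [d0, d1, d2, d3] at hxy; revert hxy; norm_num)
  · intro x hx hx0
    simp only [mem_insert, mem_singleton] at hx
    rcases hx with rfl | rfl | rfl | rfl
    · exact ⟨w, by simp, nwv, by rw [hq, d3, d2, d0]; norm_num⟩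
    · exact ⟨x, by simp, npv, by rw [e1, d0]; ring⟩
    · exact absurd d2 hx0
    · exact ⟨q, by simp, nqv, by rw [hp, d1, d2, d3]; norm_num⟩
  · intro x hx
    simp only [mem_insert, mem_singleton] at hx
    rcases hx with rfl | rfl | rfl | rfl
    · rw [d0]; norm_num
    · rw [d1]; norm_num
    · rw [d2]
    · rw [d3]; norm_num

end Pool.Agent.Lib.MP_8b7544_co.One
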