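import Pool.Agent.Lib.MP_8b7544_co.One.StmD

set_option autoImplicit false

namespace Pool.Agent.Lib.MP_8b7544_co.One

open Finset

/-- Reversing a chain. -/
theorem PATHC_rev {V : Type} {S : Finset V} {o ω : V → ℤ} {Z : Finset ℤ} {lo hi : ℤ}
    (h : AC S o ω Z lo hi) (o' ω' : V → ℤ) (h1 : ∀ x ∈ S, o' x = o x + ω x)
    (h2 : ∀ x ∈ S, ω' x = - ω x) : AC S o' ω' Z hi lo := by
  refine ⟨h.card, h.mhi, h.mlo, ?_, ?_⟩
  · intro z hz
    rcases h.arr z hz with h | ⟨x, hx, h⟩
    · exact Or.inl h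
    · exact Or.inr ⟨x, hx, by rw [h1 x hx, h]⟩
  · intro z hz
    rcases h.frm z hz with h | ⟨x, hx, h⟩
    · exact Or.inl h
    · exact Or.inr ⟨x, hx, by rw [h1 x hx, h2 x hx, ← h]; ring⟩

theorem PATHC_holds (hINC : S_INC) (hPKF : S_PKF) : S_PATHC := by
  intro V _ _ v par dep hRt K δ e a b hG hmax ℓ hℓ hR
  have hK := hG.loc
  have hℓ1 : ℓ ≠ v ∧ (par ℓ = a ∨ par ℓ = b) := (hℓ ℓ).2 rfl
  have hℓK : ℓ ∉ K := by
    intro h
    rcases hℓ1.2 with h' | h'
    · exact hG.aK (h' ▸ hK.closed ℓ h)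
    · exact hG.bK (h' ▸ hK.closed ℓ h)
  have hℓa : ℓ ≠ a := by
    intro h
    rcases hℓ1.2 with h' | h'
    · exact hG.aK (h' ▸ h ▸ hG.pa)
    · exact hG.bK (h' ▸ h ▸ hG.pa)
  have hℓb : ℓ ≠ b := by
    intro h
    rcases hℓ1.2 with h' | h'
    · exact hG.aK (h' ▸ h ▸ hG.pb)
    · exact hG.bK (h' ▸ h ▸ hG.pb)
  have hpℓ : par ℓ ∉ K := by
    rcases hℓ1.2 with h' | h'
    · rw [h']; exact hG.aK
    · rw [h']; exact hG.bK
  -- the sets
  set Fm := univ.filter (fun x => x ∉ K ∧ x ≠ a ∧ x ≠ b ∧ par x ∈ K ∧ δ (par x) < 0) with hFm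
  set Fp := univ.filter (fun x => x ∉ K ∧ x ≠ a ∧ x ≠ b ∧ par x ∈ K ∧ 0 < δ (par x)) with hFp
  set F0 := univ.filter (fun x => x ∉ K ∧ x ≠ a ∧ x ≠ b ∧ par x ∈ K ∧ δ (par x) = 0) with hF0
  have mFm : ∀ x, x ∈ Fm ↔ x ∉ K ∧ x ≠ a ∧ x ≠ b ∧ par x ∈ K ∧ δ (par x) < 0 := by
    intro x; rw [hFm, mem_filter]; simp
  have mFp : ∀ x, x ∈ Fp ↔ x ∉ K ∧ x ≠ a ∧ x ≠ b ∧ par x ∈ K ∧ 0 < δ (par x) := by
    intro x; rw [hFp, mem_filter]; simp
  have mF0 : ∀ x, x ∈ F0 ↔ x ∉ K ∧ x ≠ a ∧ x ≠ b ∧ par x ∈ K ∧ δ (par x) = 0 := by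
    intro x; rw [hF0, mem_filter]; simp
  -- the constants
  obtain ⟨m0, hm0⟩ : ∃ m0 : ℤ, ∀ x ∈ K, |δ x| ≤ m0 :=
    ⟨∑ x ∈ K, |δ x|, fun x hx => single_le_sum (f := fun x => |δ x|)
      (fun _ _ => abs_nonneg _) hx⟩
  have hm0' : 0 ≤ m0 := (abs_nonneg _).trans (hm0 v hK.root)
  have he : |e| ≤ m0 := by
    obtain ⟨x, hx, rfl⟩ := hK.emem
    exact hm0 x hx
  set D := δ (par a) with hD
  have hDm : |D| ≤ m0 := hm0 _ hG.pa
  set sm : ℤ := ∑ x ∈ Fm, (- δ (par x)) with hsm
  set sp : ℤ := ∑ x ∈ Fp, δ (par x) with hsp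
  have hsm0 : 0 ≤ sm := sum_nonneg fun x hx => by have := ((mFm x).1 hx).2.2.2.2; omega
  have hsp0 : 0 ≤ sp := sum_nonneg fun x hx => by have := ((mFp x).1 hx).2.2.2.2; omega
  set d : ℤ := if par ℓ = a then 0 else D with hd
  have hdm : |d| ≤ m0 := by
    rw [hd]; split_ifs
    · simpa using hm0'
    · exact hDm
  set n : ℕ := Fintype.card V with hn
  obtain ⟨idx⟩ : Nonempty (V ≃ Fin n) := ⟨Fintype.equivFin V⟩
  refine ⟨-e - sm + sp + d, 10 * m0 + 10 * sm + 10 * sp + 10 * n + 10, ?_⟩
  intro C X hC hX hX2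
  rw [abs_le] at he hDm hdm
  have hn0 : (0 : ℤ) ≤ n := by positivity
  -- the chains
  obtain ⟨om, Zm, cm, cm1, cm2⟩ := hINC V Fm (fun x => - δ (par x)) (2 * C + 1 - e - sm) 1
    one_pos (fun x hx => by have := ((mFm x).1 hx).2.2.2.2; omega)
  rw [← hsm] at cm cm2
  obtain ⟨op, Zp, cp, cp1, cp2⟩ := hINC V Fp (fun x => δ (par x)) (2 * C + 1 - e - sm + (X + d)) 1
    one_pos (fun x hx => by have := ((mFp x).1 hx).2.2.2.2; omega)
  rw [← hsp] at cp cp2
  set y : ℤ := 2 * C + 1 - e - sm with hy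
  set y' : ℤ := y + (X + d) with hy'
  -- the labelling
  let τ : V → ℤ := fun x => if x ∈ K then δ x else if x = a then X else if x = b then X + D else
    if x = ℓ then y else if x ∈ Fm then om x + - δ (par x) else if x ∈ Fp then op x else
    y' - 1 - ((idx x : Fin n) : ℕ)
  have τK : ∀ x ∈ K, τ x = δ x := fun x hx => if_pos hx
  have τa : τ a = X := by simp only [τ]; rw [if_neg hG.aK]; simp
  have τb : τ b = X + D := by
    simp only [τ]; rw [if_neg hG.bK, if_neg hG.ne.symm]; simp
  have τℓ : τ ℓ = y := by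
    simp only [τ]; rw [if_neg hℓK, if_neg hℓa, if_neg hℓb]; simp
  have τpℓ : τ (par ℓ) = X + d := by
    rw [hd]
    split_ifs with h
    · rw [h, τa]; ring
    · rcases hℓ1.2 with h' | h'
      · exact absurd h' h
      · rw [h', τb]
  have nℓ : ∀ x, par x ∈ K → x ≠ ℓ := fun x hx h => hpℓ (h ▸ hx)
  have τm : ∀ x ∈ Fm, τ x = om x + - δ (par x) := by
    intro x hx
    have h := (mFm x).1 hx
    simp only [τ]
    rw [if_neg h.1, if_neg h.2.1, if_neg h.2.2.1, if_neg (nℓ x h.2.2.2.1), if_pos hx]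
  have τp : ∀ x ∈ Fp, τ x = op x := by
    intro x hx
    have h := (mFp x).1 hx
    have h2 : x ∉ Fm := fun h' => by have := ((mFm x).1 h').2.2.2.2; omega
    simp only [τ]
    rw [if_neg h.1, if_neg h.2.1, if_neg h.2.2.1, if_neg (nℓ x h.2.2.2.1), if_neg h2, if_pos hx]
  have τ0 : ∀ x ∈ F0, τ x = y' - 1 - ((idx x : Fin n) : ℕ) := by
    intro x hx
    have h := (mF0 x).1 hx
    have h2 : x ∉ Fm := fun h' => by have := ((mFm x).1 h').2.2.2.2; omega
    have h3 : x ∉ Fp := fun h' => by have := ((mFp x).1 h').2.2.2.2; omega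
    simp only [τ]
    rw [if_neg h.1, if_neg h.2.1, if_neg h.2.2.1, if_neg (nℓ x h.2.2.2.1), if_neg h2, if_neg h3]
  -- the bounds of the chains
  have bm : ∀ t ∈ Zm, y ≤ t ∧ t ≤ 2 * C + 1 - e := by
    intro t ht
    have h1 := cm1 t ht
    have h2 := cm2 t ht
    omega
  have bp : ∀ t ∈ Zp, y' ≤ t ∧ t ≤ y' + sp := by
    intro t ht
    have h1 := cp1 t ht
    have h2 := cp2 t ht
    omega
  have c1 : AC Fm τ (fun x => τ (par x)) Zm (2 * C + 1 - e) y := by
    have h := PATHC_rev cm τ (fun x => τ (par x)) τm (fun x hx => by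
      rw [τK _ ((mFm x).1 hx).2.2.2.1]; ring)
    rwa [show y + sm = 2 * C + 1 - e by omega] at h
  have c2 : AC ({ℓ} : Finset V) τ (fun x => τ (par x)) {y, y'} y y' := by
    have h := AC.single τ (fun x => τ (par x)) ℓ (by rw [τpℓ]; omega)
    rwa [τℓ, τpℓ] at h
  have c3 : AC Fp τ (fun x => τ (par x)) Zp y' (y' + sp) :=
    cp.congr τp (fun x hx => by rw [τK _ ((mFp x).1 hx).2.2.2.1])
  have c12 : AC (Fm ∪ {ℓ}) τ (fun x => τ (par x)) (Zm ∪ {y, y'}) (2 * C + 1 - e) y' := by
    refine c1.append c2 ?_ ?_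
    · rw [disjoint_singleton_right]
      intro h
      exact hpℓ ((mFm ℓ).1 h).2.2.2.1
    · intro z hz hz2
      rw [mem_insert, mem_singleton] at hz2
      have := bm z hz
      rcases hz2 with h | h
      · exact h
      · omega
  have c123 : AC (Fm ∪ {ℓ} ∪ Fp) τ (fun x => τ (par x)) (Zm ∪ {y, y'} ∪ Zp) (2 * C + 1 - e)
      (y' + sp) := by
    refine c12.append c3 ?_ ?_
    · rw [disjoint_left]
      intro x hx hx2
      have h2 := (mFp x).1 hx2
      rcases mem_union.1 hx with h | h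
      · have := ((mFm x).1 h).2.2.2.2
        omega
      · rw [mem_singleton] at h
        exact nℓ x h2.2.2.2.1 h
    · intro z hz hz2
      have h2 := bp z hz2
      rcases mem_union.1 hz with h | h
      · have := bm z h
        omega
      · rw [mem_insert, mem_singleton] at h
        omega
  set Y0 : Finset ℤ := F0.image (fun x => y' - 1 - (((idx x : Fin n) : ℕ) : ℤ)) with hY0
  have bY0 : ∀ t ∈ Y0, y' - n ≤ t ∧ t ≤ y' - 1 := by
    intro t ht
    obtain ⟨x, _, rfl⟩ := mem_image.1 ht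
    have := (idx x).2
    omega
  have c4 : AC (Fm ∪ {ℓ} ∪ Fp ∪ F0) τ (fun x => τ (par x)) (Zm ∪ {y, y'} ∪ Zp ∪ Y0)
      (2 * C + 1 - e) (y' + sp) := by
    refine c123.cycle ?_ ?_ ?_ ?_ ?_
    · rw [disjoint_left]
      intro x hx hx2
      have h2 := (mF0 x).1 hx2
      rcases mem_union.1 hx with h | h
      · rcases mem_union.1 h with h | h
        · have := ((mFm x).1 h).2.2.2.2
          omega
        · rw [mem_singleton] at h
          exact nℓ x h2.2.2.2.1 h
      · have := ((mFp x).1 h).2.2.2.2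
        omega
    · intro z hz hz2
      have h2 := bY0 z hz2
      rcases mem_union.1 hz with h | h
      · rcases mem_union.1 h with h | h
        · have := bm z h
          omega
        · rw [mem_insert, mem_singleton] at h
          omega
      · have := bp z h
        omega
    · rw [hY0, card_image_of_injective]
      intro x x' hxx
      have h : y' - 1 - (((idx x : Fin n) : ℕ) : ℤ) = y' - 1 - (((idx x' : Fin n) : ℕ) : ℤ) := hxx
      have h2 : ((idx x : Fin n) : ℕ) = ((idx x' : Fin n) : ℕ) := by omega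
      exact idx.injective (Fin.ext h2)
    · intro z hz
      obtain ⟨x, hx, rfl⟩ := mem_image.1 hz
      exact ⟨x, hx, τ0 x hx⟩
    · intro z hz
      obtain ⟨x, hx, rfl⟩ := mem_image.1 hz
      refine ⟨x, hx, ?_⟩
      have h := (mF0 x).1 hx
      rw [τ0 x hx, τK _ h.2.2.2.1, h.2.2.2.2, add_zero]
  have c5 : AC (Fm ∪ {ℓ} ∪ Fp ∪ F0 ∪ {a, b}) τ (fun x => τ (par x))
      (Zm ∪ {y, y'} ∪ Zp ∪ Y0 ∪ {X, X + D}) (2 * C + 1 - e) (y' + sp) := by
    refine c4.cycle ?_ ?_ ?_ ?_ ?_
    · rw [disjoint_left]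
      intro x hx hx2
      rw [mem_insert, mem_singleton] at hx2
      rcases mem_union.1 hx with h | h
      · rcases mem_union.1 h with h | h
        · rcases mem_union.1 h with h | h
          · have := (mFm x).1 h
            rcases hx2 with h' | h'
            · exact this.2.1 h'
            · exact this.2.2.1 h'
          · rw [mem_singleton] at h
            rcases hx2 with h' | h'
            · exact hℓa (h ▸ h')
            · exact hℓb (h ▸ h')
        · have := (mFp x).1 h
          rcases hx2 with h' | h'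
          · exact this.2.1 h'
          · exact this.2.2.1 h'
      · have := (mF0 x).1 h
        rcases hx2 with h' | h'
        · exact this.2.1 h'
        · exact this.2.2.1 h'
    · intro z hz hz2
      rw [mem_insert, mem_singleton] at hz2
      rcases mem_union.1 hz with h | h
      · rcases mem_union.1 h with h | h
        · rcases mem_union.1 h with h | h
          · have := bm z h
            omega
          · rw [mem_insert, mem_singleton] at h
            omega
        · have := bp z h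
          omega
      · have := bY0 z h
        omega
    · rw [card_pair (by have := hG.nz; omega), card_pair hG.ne]
    · intro z hz
      rw [mem_insert, mem_singleton] at hz
      rcases hz with h | h
      · exact ⟨a, by simp, by rw [τa, h]⟩
      · exact ⟨b, by simp, by rw [τb, h]⟩
    · intro z hz
      rw [mem_insert, mem_singleton] at hz
      rcases hz with h | h
      · refine ⟨b, by simp, ?_⟩
        rw [τb, τK _ hG.pb, hG.opp, h]
        ring
      · refine ⟨a, by simp, ?_⟩
        rw [τa, τK _ hG.pa, h]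
  have hset : Fm ∪ {ℓ} ∪ Fp ∪ F0 ∪ {a, b} = Kᶜ := by
    ext x
    rw [mem_compl]
    constructor
    · intro hx
      rcases mem_union.1 hx with h | h
      · rcases mem_union.1 h with h | h
        · rcases mem_union.1 h with h | h
          · rcases mem_union.1 h with h | h
            · exact ((mFm x).1 h).1
            · rw [mem_singleton] at h
              rw [h]; exact hℓK
          · exact ((mFp x).1 h).1
        · exact ((mF0 x).1 h).1
      · rw [mem_insert, mem_singleton] at h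
        rcases h with h | h
        · rw [h]; exact hG.aK
        · rw [h]; exact hG.bK
    · intro hx
      by_cases hxa : x = a
      · exact mem_union_right _ (by rw [hxa]; simp)
      by_cases hxb : x = b
      · exact mem_union_right _ (by rw [hxb]; simp)
      refine mem_union_left _ ?_
      by_cases hpx : par x ∈ K
      · rcases lt_trichotomy (δ (par x)) 0 with h | h | h
        · exact mem_union_left _ (mem_union_left _ (mem_union_left _
            ((mFm x).2 ⟨hx, hxa, hxb, hpx, h⟩)))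
        · exact mem_union_right _ ((mF0 x).2 ⟨hx, hxa, hxb, hpx, h⟩)
        · exact mem_union_left _ (mem_union_right _ ((mFp x).2 ⟨hx, hxa, hxb, hpx, h⟩))
      · have hxv : x ≠ v := fun h => hx (h ▸ hK.root)
        have h3 : x = ℓ := by
          refine (hℓ x).1 ⟨hxv, ?_⟩
          by_contra h
          push Not at h
          exact hR x ⟨hx, hpx, h.1, h.2⟩
        exact mem_union_left _ (mem_union_left _ (mem_union_right _ (by rw [h3]; simp)))
  rw [hset] at c5
  have hhi : y' + sp = C + 1 + (1 * C + 1 * X + (-e - sm + sp + d)) := by omega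
  rw [hhi] at c5
  have ball : ∀ z ∈ Zm ∪ {y, y'} ∪ Zp ∪ Y0 ∪ {X, X + D}, (y ≤ z ∧ z ≤ 2 * C + 1 - e) ∨
      (y' - n ≤ z ∧ z ≤ y' + sp) ∨ (X - m0 ≤ z ∧ z ≤ X + m0) := by
    intro z hz
    rcases mem_union.1 hz with h | h
    · rcases mem_union.1 h with h | h
      · rcases mem_union.1 h with h | h
        · rcases mem_union.1 h with h | h
          · have := bm z h
            omega
          · rw [mem_insert, mem_singleton] at h
            omega
        · have := bp z h
          omega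
      · have := bY0 z h
        omega
    · rw [mem_insert, mem_singleton] at h
      omega
  refine ⟨τ, _, τK, c5, ?_, ?_⟩
  · intro z hz
    have := ball z hz
    omega
  · intro x hx hxe
    have h1 := hmax x hx
    have h2 := abs_le.1 (hm0 x hx)
    refine ⟨by omega, by omega, ?_⟩
    intro hz
    have := ball _ hz
    omega

end Pool.Agent.Lib.MP_8b7544_co.One
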