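import Pool.Agent.Lib.MP_8b7544_co.One.StmD

set_option autoImplicit false

namespace Pool.Agent.Lib.MP_8b7544_co.One

theorem UN1_holds (hONT : S_ONT) : S_UN1 := by
  intro n
  classical
  let I := (m : Fin (n + 1)) × (SimpleGraph (Fin m.1) × Fin m.1)
  have hfin : Finite I := inferInstance
  have h1 : ∀ i : I, ∃ N₀ : ℕ, i.2.1.IsTree → ∀ N, N₀ ≤ N →
      EdgeMagic (attach i.2.1 i.2.2 N) := by
    intro i
    by_cases h : i.2.1.IsTree
    · obtain ⟨N₀, h2⟩ := hONT (Fin i.1.1) i.2.1 h i.2.2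
      exact ⟨N₀, fun _ => h2⟩
    · exact ⟨0, fun h' => absurd h' h⟩
  choose f hf using h1
  obtain ⟨M, hM⟩ := (Set.finite_range f).bddAbove
  refine ⟨M, fun m hm G hG v N hN => ?_⟩
  have h2 := hM ⟨(⟨⟨m, Nat.lt_succ_of_le hm⟩, G, v⟩ : I), rfl⟩
  exact hf (⟨⟨m, Nat.lt_succ_of_le hm⟩, G, v⟩ : I) hG N (h2.trans hN)

end Pool.Agent.Lib.MP_8b7544_co.One
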