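import Pool.Agent.Lib.MP_8b7544_co.One.StmD

set_option autoImplicit false

namespace Pool.Agent.Lib.MP_8b7544_co.One

open Finset

theorem ZE_holds : S_ZE := by
  intro V _ v par dep hR K δ a b α β x h hx hpx
  have hxv : x ≠ v := fun h' => hx (h' ▸ h.root)
  have hup : ∀ w ∈ K, Function.update δ x (a + 1) w = δ w := by
    intro w hw
    rw [Function.update_of_ne]
    rintro rfl
    exact hx hw
  have hself : Function.update δ x (a + 1) x = a + 1 := Function.update_self ..
  have hdx : Even (dep x) := by
    rw [hR.ds x hxv, hpx]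
    exact h.βo.add_one
  have hpos : 0 ≤ a := by
    have := h.even α h.αK h.αe
    linarith [this.1, h.αa]
  have hlt : ∀ w ∈ K, δ w ≤ a := by
    intro w hw
    rcases Nat.even_or_odd (dep w) with he | ho
    · exact (h.even w hw he).2
    · linarith [(h.odd w hw ho).2]
  refine ⟨Function.update δ x (a + 1), ?_⟩
  refine ⟨mem_insert_of_mem h.root, ?_, ?_, ?_, ?_, ?_, ?_, ?_, mem_insert_self _ _, hdx, hself,
    mem_insert_of_mem h.βK, h.βo, ?_⟩
  · intro w hw
    rcases mem_insert.1 hw with rfl | hw
    · rw [hpx]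
      exact mem_insert_of_mem h.βK
    · exact mem_insert_of_mem (h.closed w hw)
  · rw [hup v h.root, h.zero]
  · intro w hw w' hw' he
    rcases mem_insert.1 hw with rfl | hw1
    · rcases mem_insert.1 hw' with rfl | hw2
      · rfl
      · rw [hself, hup w' hw2] at he
        have := hlt w' hw2
        omega
    · rcases mem_insert.1 hw' with rfl | hw2
      · rw [hself, hup w hw1] at he
        have := hlt w hw1
        omega
      · rw [hup w hw1, hup w' hw2] at he
        exact h.inj w hw1 w' hw2 he
  · intro w hw he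
    rcases mem_insert.1 hw with rfl | hw1
    · rw [hself]
      omega
    · rw [hup w hw1]
      have := h.even w hw1 he
      omega
  · intro w hw ho
    rcases mem_insert.1 hw with rfl | hw1
    · exact absurd ho (Nat.not_odd_iff_even.2 hdx)
    · rw [hup w hw1]
      exact h.odd w hw1 ho
  · intro t ht1 ht2
    rcases eq_or_lt_of_le ht2 with rfl | ht
    · exact ⟨x, mem_insert_self _ _, hself⟩
    · obtain ⟨w, hw, he⟩ := h.surj t ht1 (by omega)
      exact ⟨w, mem_insert_of_mem hw, by rw [hup w hw, he]⟩
  · intro t ht1 ht2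
    rcases eq_or_lt_of_le (Int.le_of_lt_add_one ht2) with rfl | ht
    · refine ⟨x, mem_insert_self _ _, hxv, ?_⟩
      rw [hself, hpx, hup β h.βK, h.βb]
      ring
    · obtain ⟨w, hw, hwv, he⟩ := h.sums t ht1 ht
      exact ⟨w, mem_insert_of_mem hw, hwv, by rw [hup w hw, hup _ (h.closed w hw), he]⟩
  · rw [hup β h.βK, h.βb]

end Pool.Agent.Lib.MP_8b7544_co.One
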