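import Pool.Agent.Lib.MP_8b7544_co.One.Defs

set_option autoImplicit false

namespace Pool.Agent.Lib.MP_8b7544_co.One

open Finset

/-- [INC] Chains with positive steps. Proof: induction on `S`; for `insert x₀ S` put
`o x₀ := z + ∑ x ∈ S, ω x` and add the state `z + ∑ x ∈ S, ω x + ω x₀`, which is larger than all
earlier ones (`AC.append` with `AC.single`, after `AC.congr`). -/
def S_INC : Prop := ∀ (V : Type) [DecidableEq V] (S : Finset V) (ω : V → ℤ) (z m : ℤ), 0 < m →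
  (∀ x ∈ S, m ≤ ω x) →
  ∃ (o : V → ℤ) (Z : Finset ℤ), AC S o ω Z z (z + ∑ x ∈ S, ω x) ∧
    (∀ t ∈ Z, t = z ∨ z + m ≤ t) ∧
    (∀ t ∈ Z, t = z + ∑ x ∈ S, ω x ∨ t + m ≤ z + ∑ x ∈ S, ω x)

/-- [PKF] Families without zero sums: the partial sums in any order are distinct. Proof:
induction on `F`; the new state `∑ x ∈ insert x₀ F, ω x` is not an old one because an old one is
`∑ x ∈ M, ω x` with `M ⊆ F`, and the difference would be a zero sum over the nonempty set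
`insert x₀ F \ M`. -/
def S_PKF : Prop := ∀ (V : Type) [DecidableEq V] (F : Finset V) (ω : V → ℤ),
  (∀ M ⊆ F, M.Nonempty → ∑ x ∈ M, ω x ≠ 0) →
  ∃ (o : V → ℤ) (Z : Finset ℤ), AC F o ω Z 0 (∑ x ∈ F, ω x) ∧ ∀ z ∈ Z, ∃ M ⊆ F, z = ∑ x ∈ M, ω x

/-- [PACK] Arbitrary families. Proof (uses `S_PKF`): strong induction on `|F|`. If `F` has no
nonempty subset with sum zero use `S_PKF`. Otherwise let `M` be a nonempty subset with sum zero
of least cardinality and `x₀ ∈ M`; then `M' = M.erase x₀` has no nonempty zero-sum subset, so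
`S_PKF` gives `AC M' o₂ ω Y 0 (∑ x ∈ M', ω x)`; putting `o₂ x₀ := ∑ x ∈ M', ω x = - ω x₀` the set
`Y` (with `|M|` elements) becomes a cycle: each `z ∈ Y` is `o₂ x` and is `o₂ x + ω x` for some
`x ∈ M` (`o₂ x₀ + ω x₀ = 0`). Translate the cycle by a large `c`, so that it is disjoint from the
states `Z` obtained for `F \ M` by induction, and use `AC.cycle`. -/
def S_PACK : Prop := ∀ (V : Type) [DecidableEq V] (F : Finset V) (ω : V → ℤ),
  ∃ (o : V → ℤ) (Z : Finset ℤ) (E : ℤ), AC F o ω Z 0 E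

/-- [GROW] Descendants, parents first; all labels are linear forms `α W + γ`. Proof: induction on
`|R|`. If `R = ∅`: `A = 1`, `c' = c₂`, `α = 1`, `γ = c`, `Z = {W + c₂}`. Otherwise let
`x₀ ∈ R` have maximal depth, so that `par x ≠ x₀` for all `x ∈ R`, and apply the induction
hypothesis to `R.erase x₀`; new data: `α' = update α x₀ A`, `γ' = update γ x₀ c'`,
`A' = A + α (par x₀)`, `c'' = c' + γ (par x₀)`, `Z' = insert (A' W + c'') Z`, where `W₀'` is so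
large that `α (par x₀) W + γ (par x₀) > 0` and `A' W + c'' > W + B` (`A' ≥ 2`) for `W ≥ W₀'`. -/
def S_GROW : Prop := ∀ (V : Type) [DecidableEq V] (par : V → V) (dep : V → ℕ) (R : Finset V),
  (∀ x ∈ R, dep (par x) < dep x) → ∀ (c : V → ℤ) (c₂ B : ℤ),
  ∃ (A c' W₀ : ℤ) (α γ : V → ℤ), 1 ≤ A ∧ (R = ∅ → A = 1 ∧ c' = c₂) ∧
    (∀ x, x ∉ R → α x = 1 ∧ γ x = c x) ∧ (∀ x, 1 ≤ α x) ∧
    ∀ W : ℤ, W₀ ≤ W → ∃ Z : Finset ℤ,
      AC R (fun x => α x * W + γ x) (fun x => α (par x) * W + γ (par x)) Z (W + c₂) (A * W + c') ∧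
      (∀ z ∈ Z, z = W + c₂ ∨ W + B < z) ∧ (∀ z ∈ Z, z ≤ A * W + c')

/-- [TUNE] Proof: let `2 ^ s` be the least power of two `≥ g`; then `2 ^ s ≤ 2 g - 1` and
`i = 2 g - 2 ^ s` satisfies `1 ≤ i ≤ g`. Moreover
`2 * (i A + (g - i)) - i * (2 A - 1) = 2 g - i = 2 ^ s` and `2 A - 1` is odd. -/
def S_TUNE : Prop := ∀ g : ℕ, 1 ≤ g → ∃ i : ℕ, 1 ≤ i ∧ i ≤ g ∧ ∀ A : ℤ, 1 ≤ A →
  IsCoprime (2 * A - 1) ((i : ℤ) * A + ((g : ℤ) - i))

/-- [SOLVE] Proof: put `C₀ = ⌊2 M / (2 p + 3 q)⌋`, let `C` be the integer in `[C₀, C₀ + q)` with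
`p C ≡ M (mod q)` and `X = (M - p C) / q`. From `(2p+3q) C₀ ≤ 2M < (2p+3q)(C₀+1)`:
`2q(C+B) ≤ 2qX` as soon as `C₀ ≥ 2p+2q+2B`, and `2q(X+B) ≤ 4qC` as soon as
`q C₀ ≥ 2p+3q+2qB`. -/
def S_SOLVE : Prop := ∀ p q B : ℤ, 1 ≤ p → 1 ≤ q → IsCoprime p q → ∃ M₀ : ℤ, ∀ M : ℤ, M₀ ≤ M →
  ∃ C X : ℤ, p * C + q * X = M ∧ B ≤ C ∧ C + B ≤ X ∧ X + B ≤ 2 * C

/-- [ASM] Assembly. Proof: apply `assemble` (file `Assemble.lean`; compare the proof of
`assemble_one` there) with `s = 1`, `g x = τ x - C`, `P = |V| - 1 + N` (so `hi = P + C + 1`) and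
`U = {z - C : z ∈ Z, z ≠ hi} ∪ {1 + C - τ x : x ∈ K, τ x ≠ e}`. Then
`|U| = |Kᶜ| + (|K| - 1) = |V| - 1`; the elements `z - C` are vertex labels, the elements
`1 + C - τ x = 1 + C - (τ w + τ (par w))` are edge labels; for `t ≤ 0` with `1 - t ∈ U` or
`1 - t > P`: `t = 1 + C - z` with `z ∈ Z`, which is an edge label, or for `z = 2C+1-e` the label
`e - C` of the vertex of `K` with `τ = e`; or `t = τ x - C` with `x ∈ K`, a vertex label. -/
def S_ASM : Prop := ∀ (V : Type) [Fintype V] [DecidableEq V] (G : SimpleGraph V) (v : V)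
  (par : V → V), Tr G v par →
  ∀ (K : Finset V) (τ : V → ℤ) (e C hi : ℤ) (Z : Finset ℤ) (N : ℕ), Loc v par K τ e →
  AC Kᶜ τ (fun x => τ (par x)) Z (2 * C + 1 - e) hi →
  (∀ z ∈ Z, C + 1 ≤ z ∧ z ≤ hi) →
  (∀ x ∈ K, τ x ≠ e → τ x ≤ C ∧ 2 * C + 2 - τ x ≤ hi ∧ 2 * C + 1 - τ x ∉ Z) →
  hi = (Fintype.card V : ℤ) + N + C →
  EdgeMagic (attach G v N)

/-- Path data with parameters `C`, `X`: for `X` between `C + B` and `2 C - B` there is a
system of states for the vertices outside `K`, the last state being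
`C + 1 + (p * C + q * X + κ)`. -/
def Pth {V : Type} [Fintype V] [DecidableEq V] (par : V → V) (K : Finset V)
    (δ : V → ℤ) (e p q κ B : ℤ) : Prop :=
  ∀ C X : ℤ, B ≤ C → C + B ≤ X → X + B ≤ 2 * C →
    ∃ (τ : V → ℤ) (Z : Finset ℤ), (∀ x ∈ K, τ x = δ x) ∧
      AC Kᶜ τ (fun x => τ (par x)) Z (2 * C + 1 - e) (C + 1 + (p * C + q * X + κ)) ∧
      (∀ z ∈ Z, C + 1 ≤ z ∧ z ≤ C + 1 + (p * C + q * X + κ)) ∧
      (∀ x ∈ K, δ x ≠ e → δ x ≤ C ∧ 2 * C + 2 - δ x ≤ C + 1 + (p * C + q * X + κ) ∧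
        2 * C + 1 - δ x ∉ Z)

/-- [PW] From path data to `Win` (uses `S_SOLVE`, `S_ASM`). Proof: for `N` large put
`M = |V| - 1 + N - κ`, choose `C`, `X` with `S_SOLVE p q B` and apply `S_ASM` with the `τ`, `Z`
of `Pth` (`Loc v par K τ e` holds because `τ = δ` on the parent closed set `K`) and
`hi = C + 1 + (p * C + q * X + κ) = |V| + N + C`. -/
def S_PW : Prop := ∀ (V : Type) [Fintype V] [DecidableEq V] (v : V) (par : V → V)
  (K : Finset V) (δ : V → ℤ) (e p q κ B : ℤ), Loc v par K δ e → 1 ≤ p → 1 ≤ q → IsCoprime p q →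
  Pth par K δ e p q κ B → Win v par

/-- [PATH] The main system of states (uses `S_INC`, `S_PACK`, `S_GROW`). Let
`D = δ (par a) = - δ (par b)`, `F` the set of the vertices `x ∉ K ∪ {a, b}` with `par x ∈ K`, so
that `Kᶜ = {a, b} ∪ L₁ ∪ L₂ ∪ F ∪ R` (disjoint) and `par x ∈ F ∪ R` for `x ∈ R` (the elements of
`L₁ ∪ L₂` are leaves). Labels: `τ a = X`, `τ b = X + D` (the two states `X`, `X + D` form a
cycle); `W = 2 C + |L₁| X`; a chain (`S_INC`, steps `X` or `X + D`) on `L₁` from `2 C + 1 - e` to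
`z₁ = W + c₁`; on `F` the offsets `z₁ + o f` of `S_PACK` (with `ω = δ ∘ par`), a chain from `z₁`
to `z₁ + E`; on `R` the chain of `S_GROW` (with `c f = c₁ + o f`, `c₂ = c₁ + E` and `B` larger
than all `c₁ + z`, `z` a state of `S_PACK`) from `W + c₂` to `A W + c'`; a chain (`S_INC`) on
`L₂` from `A W + c'` to `A W + |L₂| X + c''`, which is the last state
`C + 1 + ((2 A - 1) C + (|L₁| A + |L₂|) X + (c'' - 1))`. If `C`, `X - C`, `2 C - X` are large,
then the groups of states are separated from each other and from the values `2 C + 1 - δ x`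
(`x ∈ K`), and the last state is the largest one because `R` or `L₂` is nonempty. -/
def S_PATH : Prop := ∀ (V : Type) [Fintype V] [DecidableEq V] (v : V) (par : V → V)
  (dep : V → ℕ), Rt v par dep → ∀ (K : Finset V) (δ : V → ℤ) (e : ℤ) (a b : V),
  Good v par K δ e a b → ∀ L₁ L₂ R : Finset V, Disjoint L₁ L₂ → L₁.Nonempty →
  (∀ x, x ∈ L₁ ∪ L₂ ↔ x ≠ v ∧ (par x = a ∨ par x = b)) →
  (∀ x, x ∈ R ↔ x ∉ K ∧ par x ∉ K ∧ par x ≠ a ∧ par x ≠ b) →
  (R.Nonempty ∨ L₂.Nonempty) →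
  ∃ A κ B : ℤ, 1 ≤ A ∧ (R = ∅ → A = 1) ∧
    Pth par K δ e (2 * A - 1) ((L₁.card : ℤ) * A + L₂.card) κ B

/-- [PATHC] The remaining case: `a`, `b` have together exactly one child `ℓ`, all other vertices
outside `K` (and different from `a`, `b`) have their parent in `K`, and `e` is the largest label.
Let `F⁻`, `F⁰`, `F⁺` be the sets of the vertices `x ∉ K ∪ {a, b}` with `par x ∈ K` and
`δ (par x)` negative, zero, positive. States: the cycle `X`, `X + D` (`τ a = X`, `τ b = X + D`,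
`D = δ (par a)`); from `2 C + 1 - e` down along `F⁻` (partial sums, all `≤ 2 C + 1 - e`, hence
different from `2 C + 1 - δ x` for `δ x ≠ e`) to `y`; the leaf `ℓ` (step `X` or `X + D`) to `y'`;
from `y'` up along `F⁺` to the last state; and a `1`-cycle (a single state) for each `x ∈ F⁰`, at
the states `y' - 1, y' - 2, …`. The last state is `2 C + X + const = C + 1 + (C + X + κ)`.
(The chain along `F⁻` can be taken from `S_PKF` or by a direct induction.) -/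
def S_PATHC : Prop := ∀ (V : Type) [Fintype V] [DecidableEq V] (v : V) (par : V → V)
  (dep : V → ℕ), Rt v par dep → ∀ (K : Finset V) (δ : V → ℤ) (e : ℤ) (a b : V),
  Good v par K δ e a b → (∀ x ∈ K, δ x ≤ e) → ∀ ℓ : V,
  (∀ x, (x ≠ v ∧ (par x = a ∨ par x = b)) ↔ x = ℓ) →
  (∀ x, ¬ (x ∉ K ∧ par x ∉ K ∧ par x ≠ a ∧ par x ≠ b)) →
  ∃ κ B : ℤ, Pth par K δ e 1 1 κ B

/-- [FIN] (uses `S_PATH`, `S_PATHC`, `S_TUNE`, `S_PW`). Proof: let `L` be the set of the children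
of `a` and `b`, `g = |L| ≥ 1`, `R` the set of the `x ∉ K` with `par x ∉ K ∪ {a, b}`. If `R` is
nonempty choose `i` with `S_TUNE g`, split `L = L₁ ∪ L₂` with `|L₁| = i` and use `S_PATH`, `S_PW`.
If `R = ∅` and `g ≥ 2` do the same with `i = 1` (now `A = 1`, and `1` is coprime to everything).
If `R = ∅` and `g = 1` the hypothesis leaves only the first alternative, and `S_PATHC` applies. -/
def S_FIN : Prop := ∀ (V : Type) [Fintype V] [DecidableEq V] (v : V) (par : V → V)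
  (dep : V → ℕ), Rt v par dep → ∀ (K : Finset V) (δ : V → ℤ) (e : ℤ) (a b : V),
  Good v par K δ e a b → (∃ ℓ, ℓ ≠ v ∧ (par ℓ = a ∨ par ℓ = b)) →
  ((∀ x ∈ K, δ x ≤ e) ∨ (∃ r, r ∉ K ∧ par r ∉ K ∧ par r ≠ a ∧ par r ≠ b) ∨
    (∃ ℓ ℓ', ℓ ≠ ℓ' ∧ (ℓ ≠ v ∧ (par ℓ = a ∨ par ℓ = b)) ∧ (ℓ' ≠ v ∧ (par ℓ' = a ∨ par ℓ' = b)))) →
  Win v par

/-- [LMX] A local labelling with `e` the smallest label of a set `K` whose complement consists of
children of the root (uses `S_ASM`). Proof: for `N` large put `C = |V| - 1 + N + e`, number the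
vertices outside `K` by `0, 1, …` and let `τ x = C + 1 + (number of x)` for `x ∉ K`,
`Z = {τ x : x ∉ K} ∪ {2 C + 1 - e}`; here `2 C + 1 - e = |V| + N + C` is both the first and the
last state, and `τ x + τ (par x) = τ x` because `par x = v` and `δ v = 0`. -/
def S_LMX : Prop := ∀ (V : Type) [Fintype V] [DecidableEq V] (v : V) (par : V → V)
  (dep : V → ℕ), Rt v par dep → ∀ (K : Finset V) (δ : V → ℤ) (e : ℤ), Loc v par K δ e →
  (∀ x ∈ K, e ≤ δ x) → (∀ x, x ∉ K → par x = v) → Win v par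

end Pool.Agent.Lib.MP_8b7544_co.One
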