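import Pool.Agent.Lib.MP_8b7544_co.One.StmA

set_option autoImplicit false

namespace Pool.Agent.Lib.MP_8b7544_co.One

open Finset

/-- [N1] Numerical chains of even length. Proof: `lam i = i / 2` for even `i` and
`lam i = (i + 1) / 2 - h - 1` for odd `i` (so `lam 1 = - h`, `lam (2 h) = h`), `e = h`. The values
are `- h, …, h`; the sum `lam j + lam (j + 1)` is `j - h`, so the sums are `- h, …, h - 1`. -/
def S_N1 : Prop := ∀ h : ℕ, 1 ≤ h → ∃ (lam : ℕ → ℤ) (e : ℤ), Num (2 * h) lam e ∧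
  (∀ i ≤ 2 * h, lam i ≤ e) ∧ lam 1 ≠ 0 ∧ lam (2 * h) = - lam 1

/-- [N2] Numerical chains of odd length `≥ 5`. Proof: induction (`L = 5 + 2 t`) with the
additional information that there is `m` with `1 ≤ m < L` such that `lam m` is odd and
`lam (m + 1) = - lam m`. For `L = 5`: `lam = 0, -5, 2, 3, -3, 5`, `e = 3`, `m = 3`. Step: given
`lam` (length `L`, position `m`, `a = lam m`), the new chain of length `L + 2` is
`2 lam 0, …, 2 lam m, - a, a, 2 lam (m + 1), …, 2 lam L` with `e' = 2 e` and `m' = m + 1`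
(`lam' (m + 1) = - a`, `lam' (m + 2) = a`); the new sums are `a`, `0`, `- a` and the old sums
doubled except the old `0`, which occurs again; the two new values are odd, the others even. -/
def S_N2 : Prop := ∀ L : ℕ, 5 ≤ L → Odd L → ∃ (lam : ℕ → ℤ) (e : ℤ), Num L lam e ∧
  lam 1 ≠ 0 ∧ lam L = - lam 1

/-- [N3] Proof: `lam = 0, -3, 2, -1, 1`, `e = 2`. -/
def S_N3 : Prop := ∃ (lam : ℕ → ℤ) (e : ℤ), Num 4 lam e ∧ (∀ i ≤ 4, lam i ≤ e) ∧
  lam 3 ≠ 0 ∧ lam 4 = - lam 3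

/-- [CHN] A numerical chain labels the set of the ancestors of a vertex. Proof: `K` = the set of
all `w` with `Anc par u w`; `dep` is injective on `K` (`Rt.anc_eq`) with values `0, …, dep u`
(every value `j ≤ dep u` is attained by `par^[dep u - j] u`, see `Rt.dep_iter`). -/
def S_CHN : Prop := ∀ (V : Type) [Fintype V] [DecidableEq V] (v : V) (par : V → V)
  (dep : V → ℕ), Rt v par dep → ∀ (u : V) (lam : ℕ → ℤ) (e : ℤ), Num (dep u) lam e →
  ∃ K : Finset V, (∀ w, w ∈ K ↔ Anc par u w) ∧ Loc v par K (fun w => lam (dep w)) e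

/-- [OC] (uses `S_N1`, `S_N2`, `S_CHN`). For a vertex `u` of depth `2`, or `≥ 4`, the ancestors of
`u` have a local labelling in which `u` and its ancestor of depth `1` have opposite labels. -/
def S_OC : Prop := ∀ (V : Type) [Fintype V] [DecidableEq V] (v : V) (par : V → V)
  (dep : V → ℕ), Rt v par dep → ∀ u : V, 2 ≤ dep u → dep u ≠ 3 →
  ∃ (K : Finset V) (δ : V → ℤ) (e : ℤ), Loc v par K δ e ∧ (∀ w, w ∈ K ↔ Anc par u w) ∧
    (∀ p, dep p = 1 → Anc par u p → δ p ≠ 0 ∧ δ u = - δ p) ∧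
    ((∀ x ∈ K, δ x ≤ e) ∨ Odd (dep u))

/-- [E11] Proof: `δ' x = - δ P`, `δ' y = - δ Q` and `δ' w = 2 δ w` for `w ∈ K`. The new sums are
`δ' x + δ' P = δ P = δ' y` and `δ' y + δ' Q = δ Q = δ' x`, the old ones are doubled; the new values
are odd and distinct, the others even. If all `δ w ≤ e` then `|δ P| ≤ e ≤ 2 e`. (`P ≠ Q` since
`δ P` is odd, hence not `0`; so `x ≠ y`.) -/
def S_E11 : Prop := ∀ (V : Type) [DecidableEq V] (v : V) (par : V → V)
  (dep : V → ℕ), Rt v par dep → ∀ (K : Finset V) (δ : V → ℤ) (e : ℤ) (P Q x y : V),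
  Odp v par K δ e P Q → x ∉ K → y ∉ K → par x = P → par y = Q →
  ∃ δ' : V → ℤ, Odp v par (insert x (insert y K)) δ' (2 * e) x y ∧
    ((∀ w ∈ K, δ w ≤ e) → ∀ w ∈ insert x (insert y K), δ' w ≤ 2 * e)

/-- [E11N] Iteration of `S_E11`. Proof: induction on `n`; for `n + 1` apply the induction
hypothesis to `par P'`, `par Q'` (`par^[n] (par P') = P`) and then `S_E11` with `x = P'`,
`y = Q'`. The vertex `P'` is not in the set `K'` obtained for `n`: it is not in `K` (hypothesis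
with `j = 0`), not an ancestor of `par P'` (depth; `P' ≠ v` because `v ∈ K`), and not an ancestor
of `par Q'`: otherwise, `P' = par^[i] Q'` with `i ≥ 1`; if `i ≤ n` then
`par^[n + 1 - i] P' = par^[n + 1] Q' = Q ∈ K`, and `n + 1 - i ≤ n` contradicts the hypothesis for
`P'`; if `i > n` then `P'` is an ancestor of `Q`, hence in `K`. Same for `Q'`. -/
def S_E11N : Prop := ∀ (V : Type) [DecidableEq V] (v : V) (par : V → V)
  (dep : V → ℕ), Rt v par dep → ∀ (n : ℕ) (K : Finset V) (δ : V → ℤ) (e : ℤ) (P Q P' Q' : V),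
  Odp v par K δ e P Q → par^[n] P' = P → par^[n] Q' = Q →
  (∀ j < n, par^[j] P' ∉ K) → (∀ j < n, par^[j] Q' ∉ K) →
  ∃ (K' : Finset V) (δ' : V → ℤ) (e' : ℤ), Odp v par K' δ' e' P' Q' ∧
    (∀ w, w ∈ K' ↔ w ∈ K ∨ Anc par P' w ∨ Anc par Q' w) ∧
    ((∀ w ∈ K, δ w ≤ e) → ∀ w ∈ K', δ' w ≤ e')

/-- [BA] Two children of the root: labels `0, -1, 1`, `e = 0`. -/
def S_BA : Prop := ∀ (V : Type) [DecidableEq V] (v : V) (par : V → V)
  (dep : V → ℕ), Rt v par dep → ∀ p₁ p₂ : V, p₁ ≠ p₂ → dep p₁ = 1 → dep p₂ = 1 →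
  ∃ δ : V → ℤ, Odp v par ({v, p₁, p₂} : Finset V) δ 0 p₁ p₂

/-- [BB] A path `v, p, q, w`: labels `0, -2, 1, -1`, `e = 1`. -/
def S_BB : Prop := ∀ (V : Type) [DecidableEq V] (v : V) (par : V → V)
  (dep : V → ℕ), Rt v par dep → ∀ p q w : V, dep w = 3 → par w = q → par q = p →
  ∃ δ : V → ℤ, Odp v par ({v, p, q, w} : Finset V) δ 1 w q ∧
    ∀ x ∈ ({v, p, q, w} : Finset V), δ x ≤ 1

/-- [BC] The ancestors of `y` (`dep y = 2 h + 1`, `h ≥ 1`) and a vertex `x₁` of depth `2`, not an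
ancestor of `y`, with the same parent as the ancestor of `y` of depth `2`. Labels: `δ x₁ = 1`;
`δ w = 0` for `w = v`; `δ w = i + 1` if `dep w = 2 i`, `i ≥ 1`; `δ w = i - h - 1` if
`dep w = 2 i + 1`; `e = h + 1`. The values are `- (h + 1), …, h + 1`. The sums are `- (h + 1)`
(edge at the root), `- h` (edge of `x₁`) and `d - h - 1` (edge of the ancestor of depth
`d = 2, …, 2 h + 1`), altogether exactly `- (h + 1), …, h`. -/
def S_BC : Prop := ∀ (V : Type) [Fintype V] [DecidableEq V] (v : V) (par : V → V)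
  (dep : V → ℕ), Rt v par dep → ∀ x₁ y : V, Odd (dep y) → 3 ≤ dep y → dep x₁ = 2 →
  par x₁ = par^[dep y - 1] y → ¬ Anc par y x₁ →
  ∃ (K : Finset V) (δ : V → ℤ) (e : ℤ), Odp v par K δ e x₁ y ∧
    (∀ w, w ∈ K ↔ w = x₁ ∨ Anc par y w) ∧ ∀ w ∈ K, δ w ≤ e

/-- [SPI] (uses `S_BC`, `S_E11N`). Two vertices `P'`, `Q'` of depths `≥ 2` of different parity
with the same ancestor of depth `1` and different ancestors of depth `2`. Proof: by symmetry
(`Odp` with `P`, `Q` exchanged is again `Odp`, since `- δ P` is odd) let `dep P' < dep Q'`,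
`i = dep P' - 2`; apply `S_BC` to `x₁ = par^[i] P'` (depth `2`) and `y = par^[i] Q'` (depth
`dep Q' - dep P' + 2`, odd, `≥ 3`), then `S_E11N` with `n = i`. -/
def S_SPI : Prop := ∀ (V : Type) [Fintype V] [DecidableEq V] (v : V) (par : V → V)
  (dep : V → ℕ), Rt v par dep → ∀ P' Q' : V, 2 ≤ dep P' → 2 ≤ dep Q' → Odd (dep P' + dep Q') →
  par^[dep P' - 1] P' = par^[dep Q' - 1] Q' → par^[dep P' - 2] P' ≠ par^[dep Q' - 2] Q' →
  ∃ (K : Finset V) (δ : V → ℤ) (e : ℤ), Odp v par K δ e P' Q' ∧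
    (∀ w, w ∈ K ↔ Anc par P' w ∨ Anc par Q' w) ∧ ∀ w ∈ K, δ w ≤ e

end Pool.Agent.Lib.MP_8b7544_co.One
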