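import Pool.Agent.Lib.MP_8b7544_co.One.StmB

set_option autoImplicit false

namespace Pool.Agent.Lib.MP_8b7544_co.One

open Finset

/-- [PEN] Every internal vertex has a penultimate descendant (or is penultimate). Proof: among the
non-leaves `y` with `Anc par y x` choose one of maximal depth. -/
def S_PEN : Prop := ∀ (V : Type) [Fintype V] (v : V) (par : V → V) (dep : V → ℕ),
  Rt v par dep → ∀ x, ¬ Lf v par x → ∃ r, Pen v par r ∧ Anc par r x

/-- [CAP] (uses `S_FIN`, `S_OC`, `S_PEN`). Take a penultimate `r` with `Anc par r q`. If `dep r` is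
`2` or `4` let `u = r` and `b` a child of `r`; otherwise `u = par r`, `b = r`. Then `dep u` is
`2` or at least `4`; apply `S_OC` to `u` and `S_FIN` with `a = x` (`par a = p`, `par b = u`).
`x ∉ K` because `q` is the ancestor of `u` of depth `2`; `b ∉ K` by depth. In the first case
`dep u` is even, so `e` is the largest label; in the second case `a`, `b` have two children. -/
def S_CAP : Prop := ∀ (V : Type) [Fintype V] [DecidableEq V] (v : V) (par : V → V)
  (dep : V → ℕ), Rt v par dep → ∀ p x q : V, dep p = 1 → par x = p → par q = p → x ≠ q →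
  Pen v par x → ¬ Lf v par q → Win v par

/-- [CAL] (uses `S_FIN`, `S_OC`). `S_OC` for `u = par r` (depth `2` or `≥ 4`), `a = x`
(`par a = p`), `b = r` (`par b = u`); `x ∉ K` because `x` is a leaf and `K` is the set of the
ancestors of `par r`. The second alternative of `S_FIN` holds: `y₁`, `y₂` are not both ancestors of
`r` (`Rt.anc_eq`), say `¬ Anc par r y₁`; let `c` be a child of `y₁`; then `c ∉ K`, `y₁ ∉ K`,
`y₁ ≠ x` (leaf), `y₁ ≠ r`. -/
def S_CAL : Prop := ∀ (V : Type) [Fintype V] [DecidableEq V] (v : V) (par : V → V)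
  (dep : V → ℕ), Rt v par dep → ∀ p x r y₁ y₂ : V, dep p = 1 → par x = p → Lf v par x →
  Pen v par r → Anc par r p → 3 ≤ dep r → dep r ≠ 4 →
  y₁ ≠ y₂ → y₁ ≠ v → y₂ ≠ v → par y₁ = par y₂ → ¬ Lf v par y₁ → ¬ Lf v par y₂ → Win v par

/-- [CSP] (uses `S_FIN`, `S_SPI`). If `dep r₁ + dep r₂` is odd: `P' = par r₁`, `Q' = par r₂`,
`a = r₁`, `b = r₂`; otherwise `P' = r₁`, `Q' = par r₂`, `a` a child of `r₁`, `b = r₂`. The sets of
ancestors of `r₁`, `r₂` meet only in `{v, p}` (their ancestors of depth `2` are `q₁`, `q₂`), so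
`a`, `b` are not in `K`. Here `e` is the largest label, and `r₂` has a child. -/
def S_CSP : Prop := ∀ (V : Type) [Fintype V] [DecidableEq V] (v : V) (par : V → V)
  (dep : V → ℕ), Rt v par dep → ∀ p q₁ q₂ r₁ r₂ : V, dep p = 1 → par q₁ = p → par q₂ = p →
  q₁ ≠ q₂ → Pen v par r₁ → Pen v par r₂ → Anc par r₁ q₁ → Anc par r₂ q₂ → r₁ ≠ q₁ → r₂ ≠ q₂ →
  Win v par

/-- [CWW] (uses `S_FIN`, `S_BB`, `S_E11`). `S_BB` for `v, p, q, w₁` (`p = par q`), then `S_E11` with
`P = w₁`, `Q = q`, `x = r₁`, `y = w₂`; `a` = a child of `r₁`, `b = r₂` (`par b = w₂`). -/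
def S_CWW : Prop := ∀ (V : Type) [Fintype V] [DecidableEq V] (v : V) (par : V → V)
  (dep : V → ℕ), Rt v par dep → ∀ q w₁ w₂ r₁ r₂ : V, dep q = 2 → par w₁ = q → par w₂ = q →
  w₁ ≠ w₂ → par r₁ = w₁ → par r₂ = w₂ → Pen v par r₁ → Pen v par r₂ → Win v par

/-- [CK3] (uses `S_FIN`, `S_N3`, `S_CHN`). The chain `S_N3` on the ancestors of `r₁` (depth `4`),
`a = r₂` (`par a = w`, label `lam 3`), `b` = a child of `r₁` (`par b = r₁`, label `lam 4`). -/
def S_CK3 : Prop := ∀ (V : Type) [Fintype V] [DecidableEq V] (v : V) (par : V → V)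
  (dep : V → ℕ), Rt v par dep → ∀ w r₁ r₂ : V, dep w = 3 → par r₁ = w → par r₂ = w →
  r₁ ≠ r₂ → Pen v par r₁ → Pen v par r₂ → Win v par

/-- [CB1] (uses `S_FIN`, `S_BA`). `K = {v, p₁, p₂}`, `a = x`, `b = y`; second alternative of
`S_FIN` with a child of `q`. -/
def S_CB1 : Prop := ∀ (V : Type) [Fintype V] [DecidableEq V] (v : V) (par : V → V)
  (dep : V → ℕ), Rt v par dep → ∀ p₁ p₂ x y q : V, dep p₁ = 1 → dep p₂ = 1 → p₁ ≠ p₂ →
  par x = p₁ → Pen v par x → par y = p₂ → Lf v par y → par q = p₂ → ¬ Lf v par q → Win v par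

/-- [CB2] (uses `S_FIN`, `S_BA`, `S_E11N`). `S_BA` for `p₁, p₂` and `S_E11N` with `P' = par r₁`,
`Q' = par r₂`, `n = dep r₁ - 2`; `a = r₁`, `b = r₂`; third alternative of `S_FIN`. (If a vertex is
an ancestor of both `r₁` and `r₂` it is `v`, because the ancestors of depth `1` are `p₁ ≠ p₂`.) -/
def S_CB2 : Prop := ∀ (V : Type) [Fintype V] [DecidableEq V] (v : V) (par : V → V)
  (dep : V → ℕ), Rt v par dep → ∀ p₁ p₂ r₁ r₂ : V, dep p₁ = 1 → dep p₂ = 1 → p₁ ≠ p₂ →
  Pen v par r₁ → Pen v par r₂ → Anc par r₁ p₁ → Anc par r₂ p₂ → dep r₁ = dep r₂ → 2 ≤ dep r₁ →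
  Win v par

/-- Zigzag labellings: vertices of even depth have the labels `0, …, a`, vertices of odd depth the
labels `- b, …, - 1`, and the sums along the edges are `- b, …, a - 1`; `α` has the label `a` and
`β` the label `- 1`. -/
structure ZZ {V : Type} (v : V) (par : V → V) (dep : V → ℕ) (K : Finset V) (δ : V → ℤ)
    (a b : ℤ) (α β : V) : Prop where
  root : v ∈ K
  closed : ∀ x ∈ K, par x ∈ K
  zero : δ v = 0
  inj : ∀ x ∈ K, ∀ y ∈ K, δ x = δ y → x = y
  even : ∀ x ∈ K, Even (dep x) → 0 ≤ δ x ∧ δ x ≤ a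
  odd : ∀ x ∈ K, Odd (dep x) → - b ≤ δ x ∧ δ x ≤ - 1
  surj : ∀ t : ℤ, - b ≤ t → t ≤ a → ∃ x ∈ K, δ x = t
  sums : ∀ t : ℤ, - b ≤ t → t < a → ∃ w ∈ K, w ≠ v ∧ δ w + δ (par w) = t
  αK : α ∈ K
  αe : Even (dep α)
  αa : δ α = a
  βK : β ∈ K
  βo : Odd (dep β)
  βb : δ β = - 1

/-- [ZE] One more child of `β`: new label `a + 1`. -/
def S_ZE : Prop := ∀ (V : Type) [DecidableEq V] (v : V) (par : V → V) (dep : V → ℕ),
  Rt v par dep → ∀ (K : Finset V) (δ : V → ℤ) (a b : ℤ) (α β x : V), ZZ v par dep K δ a b α β →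
  x ∉ K → par x = β → ∃ δ' : V → ℤ, ZZ v par dep (insert x K) δ' (a + 1) b x β

/-- [ZO] One more child of `α`: subtract `1` from the labels of the vertices of odd depth (all
sums decrease by `1`) and give the label `- 1` to the new vertex (sum `a - 1`). -/
def S_ZO : Prop := ∀ (V : Type) [DecidableEq V] (v : V) (par : V → V) (dep : V → ℕ),
  Rt v par dep → ∀ (K : Finset V) (δ : V → ℤ) (a b : ℤ) (α β y : V), ZZ v par dep K δ a b α β →
  y ∉ K → par y = α → ∃ δ' : V → ℤ, ZZ v par dep (insert y K) δ' a (b + 1) α y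

/-- [ZS] (uses `S_ZE`, `S_ZO`) All children of `γ ∈ {α, β}` at once, a given one (`s`) last.
Proof: induction on the finite set `S.erase s` (or on `|S|`), then one more step for `s`. -/
def S_ZS : Prop := ∀ (V : Type) [DecidableEq V] (v : V) (par : V → V) (dep : V → ℕ),
  Rt v par dep → ∀ (K : Finset V) (δ : V → ℤ) (a b : ℤ) (α β γ : V), ZZ v par dep K δ a b α β →
  (γ = α ∨ γ = β) → ∀ (S : Finset V) (s : V), s ∈ S → (∀ x ∈ S, x ∉ K ∧ par x = γ) →
  ∃ (δ' : V → ℤ) (a' b' : ℤ) (α' β' : V), ZZ v par dep (K ∪ S) δ' a' b' α' β' ∧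
    (s = α' ∨ s = β')

/-- [ZP] (uses `S_ZS`) Following the spine of a caterpillar. Proof: induction on `n`. If `γ` is a
leaf take `K' = K`. Otherwise let `S` be the set of all children of `γ` and `s ∈ S` the
internal child of `γ` if there is one (it is unique), any child otherwise; apply `S_ZS`. If `s` is
a leaf then all children of `γ` are leaves and `K' = K ∪ S`; otherwise use the induction
hypothesis for `K ∪ S` and `s`. -/
def S_ZP : Prop := ∀ (V : Type) [Fintype V] [DecidableEq V] (v : V) (par : V → V) (dep : V → ℕ),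
  Rt v par dep →
  (∀ y z, y ≠ v → z ≠ v → par y = par z → ¬ Lf v par y → ¬ Lf v par z → y = z) →
  ∀ (n : ℕ) (K : Finset V) (δ : V → ℤ) (a b : ℤ) (α β γ : V), ZZ v par dep K δ a b α β →
  (γ = α ∨ γ = β) → γ ≠ v → (∀ x, par x = γ → x ∉ K) →
  (∀ x ∈ K, x ≠ v → x ≠ γ → ∀ y, par y = x → y ∈ K) → Kᶜ.card ≤ n →
  ∃ (K' : Finset V) (δ' : V → ℤ) (a' b' : ℤ) (α' β' : V), ZZ v par dep K' δ' a' b' α' β' ∧
    K ⊆ K' ∧ ∀ x ∈ K', x ≠ v → ∀ y, par y = x → y ∈ K'

/-- [CAT] (uses `S_ZP`, `S_LMX`). If all `x ≠ v` are leaves, then all of them are children of `v`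
and `S_LMX` applies to `K = {v}`, `δ = 0`, `e = 0`. Otherwise let `p` be the internal vertex of
depth `1` (ancestor of an internal vertex `≠ v`); start with `K = {v, p}`, `δ v = 0`, `δ p = - 1`,
`a = 0`, `b = 1`, `α = v`, `β = γ = p`, get `K'` from `S_ZP`, and apply `S_LMX` to `- δ'` and
`e = - a'` (`Loc` follows from `ZZ`). Every `x ∉ K'` is a child of `v`: let `y` be the ancestor
of `x` closest to `v` which is not in `K'`; then `par y ∈ K'`, hence `par y = v`; if `y ≠ x` then
`y` is an internal child of `v`, so `y = p ∈ K'`, a contradiction. -/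
def S_CAT : Prop := ∀ (V : Type) [Fintype V] [DecidableEq V] (v : V) (par : V → V) (dep : V → ℕ),
  Rt v par dep →
  (∀ y z, y ≠ v → z ≠ v → par y = par z → ¬ Lf v par y → ¬ Lf v par z → y = z) → Win v par

/-- [TRE] The graph given by `par` is a tree. -/
def S_TRE : Prop := ∀ (V : Type) [Fintype V] (G : SimpleGraph V) (v : V) (par : V → V)
  (dep : V → ℕ), Rt v par dep → Tr G v par → G.IsTree

/-- [CD2] (uses `S_TRE` and `part_b` of file `DegTwo.lean`; `N₀ = 4 ^ |V|`). -/
def S_CD2 : Prop := ∀ (V : Type) [Fintype V] [DecidableEq V] (v : V) (par : V → V) (dep : V → ℕ),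
  Rt v par dep → ∀ p w : V, dep p = 1 → par w = p → (∀ y, par y = p → y = w) → Win v par

/-- [CTH] (uses `S_TRE` and `part_c` of file `Star.lean`; `Tr G v par` determines `G`). -/
def S_CTH : Prop := ∀ (V : Type) [Fintype V] [DecidableEq V] (v : V) (par : V → V) (dep : V → ℕ),
  Rt v par dep → ∀ p : V, dep p = 1 → Pen v par p → Win v par

/-- The remaining shapes below a child `p` of the root: `p` has a leaf child and exactly one
internal child `q`, and `q` is penultimate or `q` has exactly one internal child `w`, and `w` has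
exactly one internal child `r`, which is penultimate. -/
def Bad {V : Type} (v : V) (par : V → V) (p : V) : Prop :=
  (∃ y, par y = p ∧ Lf v par y) ∧
  ∃ q, par q = p ∧ ¬ Lf v par q ∧ (∀ q', par q' = p → ¬ Lf v par q' → q' = q) ∧
    (Pen v par q ∨ ∃ w r, par w = q ∧ ¬ Lf v par w ∧
      (∀ w', par w' = q → ¬ Lf v par w' → w' = w) ∧ par r = w ∧ Pen v par r ∧
      (∀ r', par r' = w → ¬ Lf v par r' → r' = r))

/-- [CLM] (uses `S_PEN`, `S_CAP`, `S_CAL`, `S_CSP`, `S_CWW`, `S_CK3`). Case 1: `p` has a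
penultimate child `x`. If `p` has another internal child: `S_CAP`; otherwise `p` is `Bad` (one of
`c₁`, `c₂` is not `x`, hence a leaf). Case 2: `p` has no penultimate child, but a leaf child `x`.
If there is a penultimate `r` below `p` with `dep r ≠ 4` (automatically `dep r ≥ 3`): `S_CAL`.
Otherwise all penultimate vertices below `p` have depth `4`. If `p` has two internal children
`q₁ ≠ q₂`: `S_PEN` and `S_CSP`. Otherwise let `q` be the internal child; not being penultimate it
has an internal child `w₁`. If `q` has another internal child `w₂`: the penultimate vertices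
`r₁`, `r₂` below `w₁`, `w₂` (`S_PEN`) have depth `4`, so they are children of `w₁`, `w₂`: `S_CWW`.
Otherwise `w = w₁` is not penultimate (depth `3`), so it has an internal child; each internal child
of `w` is penultimate (a penultimate vertex below it has depth `4`, so it is equal to it). Two of
them: `S_CK3`; one: `p` is `Bad`. Case 3: `p` has neither a penultimate nor a leaf child: then
`c₁`, `c₂` are internal and not penultimate, `S_PEN` and `S_CSP`. -/
def S_CLM : Prop := ∀ (V : Type) [Fintype V] [DecidableEq V] (v : V) (par : V → V) (dep : V → ℕ),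
  Rt v par dep → (∃ y₁ y₂, y₁ ≠ y₂ ∧ y₁ ≠ v ∧ y₂ ≠ v ∧ par y₁ = par y₂ ∧ ¬ Lf v par y₁ ∧
    ¬ Lf v par y₂) →
  ∀ p c₁ c₂ q : V, dep p = 1 → par c₁ = p → par c₂ = p → c₁ ≠ c₂ → par q = p → ¬ Lf v par q →
  Win v par ∨ Bad v par p

/-- [ONE] (uses `S_CAT`, `S_CD2`, `S_CTH`, `S_CLM`, `S_CB1`, `S_CB2`). If every vertex has at most
one internal child: `S_CAT`. Otherwise let `y₁ ≠ y₂` be internal with the same parent. The ancestor
`p₀` of `y₁` of depth `1` is internal. If some internal `p` of depth `1` has only one child: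
`S_CD2`; if some `p` of depth `1` is penultimate: `S_CTH`. Otherwise every internal `p` of depth `1`
has two children and an internal child, so by `S_CLM` (if not `Win`) all of them are `Bad`. If
there are two of them: `S_CB1` or, if both are of the second kind, `S_CB2` (`dep r = 4`). If `p₀`
is the only one: the internal vertices `≠ v` are `p₀`, `q` or `p₀`, `q`, `w`, `r` (compare the
ancestors of depth `1, 2, 3, 4` of an internal vertex, which are internal), of different depths,
contradicting `y₁ ≠ y₂` (`dep y₁ = dep y₂`). -/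
def S_ONE : Prop := ∀ (V : Type) [Fintype V] [DecidableEq V] (v : V) (par : V → V) (dep : V → ℕ),
  Rt v par dep → Win v par

end Pool.Agent.Lib.MP_8b7544_co.One
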