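import Pool.Agent.Lib.MP_8b7544_co.One.StmC

set_option autoImplicit false

namespace Pool.Agent.Lib.MP_8b7544_co.One

open Finset

/-- [ONT] (uses `S_ONE` and `exists_par` of file `Chain.lean`). Proof: take `par`, `d` from
`exists_par`, put `par' v = v` and let `dep x` be the least `j` with `par'^[j] x = v`. -/
def S_ONT : Prop := ∀ (V : Type) [Fintype V] (G : SimpleGraph V), G.IsTree → ∀ v : V,
  ∃ N₀ : ℕ, ∀ N, N₀ ≤ N → EdgeMagic (attach G v N)

/-- [UN1] (uses `S_ONT`). There are only finitely many graphs on `Fin m`, `m ≤ n`. -/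
def S_UN1 : Prop := ∀ n : ℕ, ∃ M : ℕ, ∀ m ≤ n, ∀ G : SimpleGraph (Fin m), G.IsTree →
  ∀ v : Fin m, ∀ N, M ≤ N → EdgeMagic (attach G v N)

/-- [ISO] Edge-magicness is invariant under isomorphism (`SimpleGraph.Iso.mapEdgeSet`). -/
def S_ISO : Prop := ∀ (W W' : Type) (G : SimpleGraph W) (G' : SimpleGraph W'), Nonempty (G ≃g G') →
  EdgeMagic G → EdgeMagic G'

/-- [STR] A tree `T` and a set `S` containing `v` such that every vertex outside `S` is a leaf
adjacent to `v`: `T` is `attach G v' N` with `G` isomorphic to the subgraph induced on `S`. (That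
`T.induce S` is a tree: `IND_holds : Hv.S_IND` in `Hv/P_IND.lean`, `Hv/Stm3.lean`.) -/
def S_STR : Prop := ∀ (W : Type) [Fintype W] (T : SimpleGraph W), T.IsTree → ∀ (v : W) (S : Set W),
  v ∈ S → (∀ w, w ∉ S → T.Adj w v ∧ ∀ x, T.Adj w x → x = v) →
  ∃ (G : SimpleGraph (Fin S.ncard)) (v' : Fin S.ncard), G.IsTree ∧
    Nonempty (attach G v' Sᶜ.ncard ≃g T)

/-- [MAIN] (uses `S_UN1`, `S_ISO`, `S_STR` and `Hv.fin` of `Hv/All.lean`). Proof: let `M₂` be the
number given by `Hv.fin k` and `M₁` the one given by `S_UN1` for `n = k + k * M₂`, and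
`M = n + M₁ + 3`. If two distinct vertices are adjacent to at least `M₂` leaves each, use
`Hv.fin`. Otherwise let `I` be the set of the non-leaves (`|I| ≤ k`); each leaf has its neighbour
in `I` (because `|W| ≥ 3`; compare `Hv/P_FIN.lean`). As `|W| > k + k * M₂`, some `v ∈ I` is
adjacent to more than `M₂` leaves; all other vertices are adjacent to less than `M₂` leaves. Let
`S` be the set of all vertices which are in `I` or not adjacent to `v`. Then
`|S| ≤ k + k * M₂`, hence `|Sᶜ| ≥ M₁`, and `S_STR`, `S_UN1`, `S_ISO` give the result. -/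
def S_MAIN : Prop := ∀ k : ℕ, ∃ M : ℕ, ∀ (W : Type) [Fintype W] (T : SimpleGraph W), T.IsTree →
  {w | (T.neighborSet w).ncard ≠ 1}.ncard ≤ k → M ≤ Fintype.card W → EdgeMagic T

end Pool.Agent.Lib.MP_8b7544_co.One
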